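import Pool.Agent.V11317.NC.Sum5

/-!
# Bodies over a base whose law satisfies KLS
-/

set_option autoImplicit false

namespace Pool.Agent.V11317.NC

open MeasureTheory Set Filter Topology
open scoped ENNReal InnerProductSpace Pointwise
open Pool.Agent.W695.KH (Eu)
open Pool.Agent.V11298.KD (CovLe VarKLS)

variable {ι ι' : Type} [Fintype ι] [Fintype ι']

/-- **Bodies whose sections are homothets of `B`, with a general law of the barycentres of the sections.** -/
theorem tower2 [Nonempty ι'] (B : Set (Eu ι')) (hB : IsCompact B) (hBi : (interior B).Nonempty)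
    (k : ℝ) (hk : VarKLS ((volume B)⁻¹ • volume.restrict B) k)
    (D : Set (Eu ι)) (g : Eu ι → ℝ) (hg : Measurable g) (hg0 : ∀ t ∈ D, 0 ≤ g t)
    (hgc : ConcaveOn ℝ D g) (a : Eu ι → Eu ι') (ha : Measurable a)
    (K : Set (Eu (ι ⊕ ι'))) (hKc : IsCompact K) (hKi : (interior K).Nonempty)
    (hK : ∀ z, z ∈ K ↔ lft z ∈ D ∧ ∃ y ∈ B, rgt z = a (lft z) + g (lft z) • y) (k' : ℝ)
    (hk' : VarKLS (Measure.map (fun z : Eu (ι ⊕ ι') => jn (lft z, a (lft z) + g (lft z) •
      ∫ y, y ∂((volume B)⁻¹ • volume.restrict B))) ((volume K)⁻¹ • volume.restrict K)) k') :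
    VarKLS ((volume K)⁻¹ • volume.restrict K) (k + 2 * k' + 4) := by
  classical
  obtain ⟨β, hβ⟩ : ∃ β : Measure (Eu ι'), β = (volume B)⁻¹ • volume.restrict B := ⟨_, rfl⟩
  rw [← hβ] at hk
  obtain ⟨b, hb⟩ : ∃ b : Eu ι', b = ∫ y, y ∂β := ⟨_, rfl⟩
  obtain ⟨y0, hy0⟩ : ∃ y0, y0 ∈ interior B := hBi
  -- a second point of `B`
  obtain ⟨y1, hy1, hne⟩ : ∃ y1 ∈ B, y1 ≠ y0 := by
    have h2 : interior B ∈ 𝓝 y0 := isOpen_interior.mem_nhds hy0
    have h3 : interior B ∩ {y0}ᶜ ∈ 𝓝[≠] y0 := inter_mem (mem_nhdsWithin_of_mem_nhds h2)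
      self_mem_nhdsWithin
    have h4 := Module.punctured_nhds_neBot ℝ (Eu ι') y0
    obtain ⟨y, hy, hyn⟩ := Filter.nonempty_of_mem h3
    exact ⟨y, interior_subset hy, hyn⟩
  have hyB := interior_subset hy0
  -- points of `K`
  have hpt : ∀ t ∈ D, ∀ y ∈ B, jn (t, a t + g t • y) ∈ K := fun t ht y hy => by
    rw [hK]
    exact ⟨ht, y, hy, rfl⟩
  have hDK : D = lft '' K := by
    ext t
    constructor
    · intro ht
      exact ⟨_, hpt t ht y0 hyB, rfl⟩
    · rintro ⟨z, hz, rfl⟩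
      exact ((hK z).1 hz).1
  have hDc : IsCompact D := by
    rw [hDK]
    exact hKc.image lft_cont
  have hDm := hDc.measurableSet
  obtain ⟨R0, hR0⟩ := hKc.isBounded.exists_norm_le
  have hd : 0 < ‖y1 - y0‖ := norm_pos_iff.2 (sub_ne_zero.2 hne)
  obtain ⟨R1, hR1⟩ : ∃ R1 : ℝ, R1 = 2 * max R0 0 / ‖y1 - y0‖ := ⟨_, rfl⟩
  have hR1' : 0 ≤ R1 := by rw [hR1]; positivity
  have hgR : ∀ t ∈ D, g t ≤ R1 := by
    intro t ht
    rw [hR1, le_div_iff₀ hd]
    have h1 := hR0 _ (hpt t ht y1 hy1)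
    have h2 := hR0 _ (hpt t ht y0 hyB)
    have h3 : rgt (jn (t, a t + g t • y1)) - rgt (jn (t, a t + g t • y0)) = g t • (y1 - y0) := by
      rw [rgt_jn, rgt_jn, smul_sub]
      exact add_sub_add_left_eq_sub _ _ _
    have h4 : g t * ‖y1 - y0‖ = ‖g t • (y1 - y0)‖ := by
      rw [norm_smul, Real.norm_eq_abs, abs_of_nonneg (hg0 t ht)]
    rw [h4, ← h3]
    refine (norm_sub_le _ _).trans ?_
    have h5 := (norm_rgt_le (jn (t, a t + g t • y1))).trans (h1.trans (le_max_left R0 0))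
    have h6 := (norm_rgt_le (jn (t, a t + g t • y0))).trans (h2.trans (le_max_left R0 0))
    linarith
  have hDR : ∀ t ∈ D, ‖t‖ ≤ max R0 0 := by
    intro t ht
    have h2 := hR0 _ (hpt t ht y0 hyB)
    exact (norm_lft_le (jn (t, a t + g t • y0))).trans (h2.trans (le_max_left R0 0))
  have haR : ∀ t ∈ D, ‖a t + g t • b‖ ≤ max R0 0 + R1 * ‖b - y0‖ := by
    intro t ht
    have h2 := hR0 _ (hpt t ht y0 hyB)
    have h6 := (norm_rgt_le (jn (t, a t + g t • y0))).trans (h2.trans (le_max_left R0 0))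
    rw [rgt_jn] at h6
    have h3 : a t + g t • b = (a t + g t • y0) + g t • (b - y0) := by
      rw [smul_sub]
      abel
    rw [h3]
    refine (norm_add_le _ _).trans (add_le_add h6 ?_)
    rw [norm_smul, Real.norm_eq_abs, abs_of_nonneg (hg0 t ht)]
    exact mul_le_mul_of_nonneg_right (hgR t ht) (norm_nonneg _)
  -- the modified functions
  obtain ⟨g', hg'⟩ : ∃ g' : Eu ι → ℝ, g' = D.indicator g := ⟨_, rfl⟩
  obtain ⟨a', ha'⟩ : ∃ a' : Eu ι → Eu ι', a' = fun t => a t + g t • b := ⟨_, rfl⟩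
  have hgg : EqOn g g' D := fun t ht => by rw [hg', indicator_of_mem ht]
  have hbody : body B D a' g' b = K := by
    ext z
    rw [hK]
    unfold body
    rw [mem_ofPred_eq]
    refine and_congr_right fun hz => ?_
    refine exists_congr fun y => and_congr_right fun _ => ?_
    rw [ha', ← hgg hz]
    simp only
    rw [smul_sub, add_add_sub_cancel]
  obtain ⟨R, hR⟩ : ∃ R : ℝ, R = max R0 0 + R1 * ‖b - y0‖ + R1 := ⟨_, rfl⟩
  have hm0 : 0 ≤ max R0 0 := le_max_right _ _
  have hm1 : 0 ≤ R1 * ‖b - y0‖ := mul_nonneg hR1' (norm_nonneg _)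
  have hR' : 0 ≤ R := by rw [hR]; positivity
  have hg'm : Measurable g' := by rw [hg']; exact hg.indicator hDm
  have hg'0 : ∀ t, 0 ≤ g' t := fun t => by rw [hg']; exact indicator_nonneg (fun t ht => hg0 t ht) t
  have hg'c : ConcaveOn ℝ D g' := hgc.congr hgg
  have ha'm : Measurable a' := by rw [ha']; exact ha.add (hg.smul_const b)
  obtain ⟨n, hn⟩ : ∃ n : ℕ, n = Fintype.card ι' := ⟨_, rfl⟩
  have hn1 : 1 ≤ n := by
    rw [hn]
    exact Fintype.card_pos
  have hvB : volume B ≠ 0 := (Measure.measure_pos_of_nonempty_interior volume ⟨y0, hy0⟩).ne'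
  have hvB' : volume B ≠ ⊤ := hB.measure_lt_top.ne
  have hK0 : volume K ≠ 0 := (Measure.measure_pos_of_nonempty_interior volume hKi).ne'
  have hKm : MeasurableSet (body B D a' g' b) := by
    rw [hbody]
    exact hKc.measurableSet
  have hvb := vol_body B D hDm a' g' hg'm b hKm
  rw [← hn] at hvb
  have hpos : mass D g' n ≠ 0 := by
    intro h
    rw [h, zero_mul, hbody] at hvb
    exact hK0 hvb
  obtain ⟨hfin, hp, hae, hE⟩ := law_facts D hDm g' hg'm hg'0 R
    (fun t ht => (hDR t ht).trans (by rw [hR]; linarith))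
    (fun t ht => by rw [← hgg ht]; exact (hgR t ht).trans (by rw [hR]; linarith)) n hn1 hpos
  have hv := var_g2 D hDm g' hg'm hg'0 hg'c n hn1 hfin hpos
  have hlaw := map_law B hB.measurableSet hvB hvB' D hDm a' ha'm g' hg'm b hKm (hn ▸ hpos) (hfin _)
  rw [hbody, ← hn, ← hβ] at hlaw
  have hβp : IsProbabilityMeasure β := prob B hB ⟨y0, hy0⟩ β hβ
  have hprm : Measurable (pr a' g' b) := pr_meas a' ha'm g' hg'm b
  have hτm : Measurable fun t : Eu ι => jn (t, a' t) :=
    jn_cont.measurable.comp (measurable_id.prodMk ha'm)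
  have hcm : Measurable fun z : Eu (ι ⊕ ι') => jn (lft z, a (lft z) + g (lft z) • b) :=
    jn_cont.measurable.comp (lft_cont.measurable.prodMk ((ha.comp lft_cont.measurable).add
      ((hg.comp lft_cont.measurable).smul_const b)))
  rw [← hβ, ← hb, ← hlaw, Measure.map_map hcm hprm] at hk'
  have e1 : ((fun z : Eu (ι ⊕ ι') => jn (lft z, a (lft z) + g (lft z) • b)) ∘ pr a' g' b) =
      (fun t => jn (t, a' t)) ∘ Prod.fst := by
    funext z
    simp only [Function.comp_apply, pr, lft_jn, ha']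
  rw [e1, ← Measure.map_map hτm measurable_fst] at hk'
  have e2 : Measure.map Prod.fst ((lawD D g' n).prod β) = lawD D g' n :=
    Measure.fst_prod (μ := lawD D g' n) (ν := β)
  rw [e2] at hk'
  obtain ⟨R', hR'0, hyR⟩ : ∃ R', 0 ≤ R' ∧ ∀ᵐ y ∂β, ‖y‖ ≤ R' := by
    obtain ⟨R', hR'⟩ := hB.isBounded.exists_norm_le
    refine ⟨max R' 0, le_max_right _ _, ?_⟩
    rw [hβ]
    refine Measure.smul_absolutelyContinuous.ae_le ?_
    filter_upwards [ae_restrict_mem hB.measurableSet] with y hy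
    exact (hR' y hy).trans (le_max_left _ _)
  have key := tower_abs2 (lawD D g' n) β (fun t => jn (t, a' t)) hτm g' hg'm hg'0 inr' b hb.symm
    (2 * R + R') (by positivity) (hae.mono fun t ht => by
      have h1 := norm_jn (t, a' t)
      have h2 : ‖t‖ ≤ R := (hDR t ht).trans (by rw [hR]; linarith)
      have h3 : ‖a' t‖ ≤ R := by rw [ha']; exact (haR t ht).trans (by rw [hR]; linarith)
      have h4 : ‖jn (t, a' t)‖ ^ 2 ≤ (2 * R + R') ^ 2 := by
        rw [h1]
        simp only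
        nlinarith [norm_nonneg t, norm_nonneg (a' t)]
      exact (sq_le_sq₀ (norm_nonneg _) (by positivity)).1 h4)
    (hae.mono fun t ht => by
      rw [abs_of_nonneg (hg'0 t), ← hgg ht]
      have : g t ≤ R := (hgR t ht).trans (by rw [hR]; linarith)
      linarith)
    (hyR.mono fun y hy => by linarith) k hk hE k' hk' (2 / ((n : ℝ) + 2)) (by positivity) hv
  rw [← pr_eq, hlaw] at key
  refine VarKLS_mono ?_ key
  rw [← hn]
  have h1 : 2 * (n : ℝ) * (2 / ((n : ℝ) + 2)) ≤ 4 := by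
    rw [mul_div_assoc', div_le_iff₀ (by positivity)]
    have : (0 : ℝ) ≤ n := by positivity
    linarith
  linarith

end Pool.Agent.V11317.NC
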