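import Pool.Agent.V11317.NC.Base1
import Pool.Agent.V11298.KD.Dom

/-!
# Bodies over a base: centred sections
-/

set_option autoImplicit false

namespace Pool.Agent.V11317.NC

open MeasureTheory Set Filter Topology
open scoped ENNReal InnerProductSpace Pointwise
open Pool.Agent.W695.KH (Eu)
open Pool.Agent.V11298.KD (CovLe VarKLS LC mu)

variable {ι ι' : Type} [Fintype ι] [Fintype ι']

/-- the density of the law of the first component -/
noncomputable def rho (D : Set (Eu ι)) (g : Eu ι → ℝ) (n : ℕ) (c : ℝ) (t : Eu ι) : ℝ :=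
  D.indicator (fun t => g t ^ n) t / c

theorem rho_lc (D : Set (Eu ι)) (hD : MeasurableSet D) (g : Eu ι → ℝ) (hg : Measurable g)
    (hg0 : ∀ t, 0 ≤ g t) (hgc : ConcaveOn ℝ D g) (n : ℕ) (c : ℝ) (hc : 0 < c) : LC (rho D g n c) := by
  have h0 : ∀ t, 0 ≤ rho D g n c t := fun t =>
    div_nonneg (indicator_nonneg (fun t _ => pow_nonneg (hg0 t) n) t) hc.le
  refine ⟨h0, ((hg.pow_const n).indicator hD).div_const c, ?_⟩
  intro x y t ht0 ht1
  have ht1' : 0 < 1 - t := by linarith
  by_cases hx : x ∈ D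
  · by_cases hy : y ∈ D
    · have hz : (1 - t) • x + t • y ∈ D := hgc.1 hx hy ht1'.le ht0.le (by ring)
      have h1 := hgc.2 hx hy ht1'.le ht0.le (by ring : (1 - t) + t = 1)
      simp only [smul_eq_mul] at h1
      unfold rho
      rw [indicator_of_mem hx, indicator_of_mem hy, indicator_of_mem hz]
      rw [Real.div_rpow (pow_nonneg (hg0 x) n) hc.le, Real.div_rpow (pow_nonneg (hg0 y) n) hc.le,
        div_mul_div_comm, ← Real.rpow_add hc, sub_add_cancel, Real.rpow_one]
      refine div_le_div_of_nonneg_right ?_ hc.le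
      have h2 : g x ^ (1 - t) * g y ^ t ≤ (1 - t) * g x + t * g y :=
        Real.geom_mean_le_arith_mean2_weighted ht1'.le ht0.le (hg0 x) (hg0 y) (by ring)
      have h3 : (g x ^ n) ^ (1 - t) * (g y ^ n) ^ t = (g x ^ (1 - t) * g y ^ t) ^ n := by
        rw [mul_pow, ← Real.rpow_natCast, ← Real.rpow_natCast, ← Real.rpow_natCast,
          ← Real.rpow_natCast, ← Real.rpow_mul (hg0 x), ← Real.rpow_mul (hg0 y),
          ← Real.rpow_mul (hg0 x), ← Real.rpow_mul (hg0 y), mul_comm (n : ℝ), mul_comm (n : ℝ)]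
      rw [h3]
      exact pow_le_pow_left₀ (mul_nonneg (Real.rpow_nonneg (hg0 x) _) (Real.rpow_nonneg (hg0 y) _))
        (h2.trans h1) n
    · have h1 : rho D g n c y = 0 := by
        unfold rho
        rw [indicator_of_notMem hy, zero_div]
      rw [h1, Real.zero_rpow ht0.ne', mul_zero]
      exact h0 _
  · have h1 : rho D g n c x = 0 := by
      unfold rho
      rw [indicator_of_notMem hx, zero_div]
    rw [h1, Real.zero_rpow ht1'.ne', zero_mul]
    exact h0 _

theorem rho_law (D : Set (Eu ι)) (hD : MeasurableSet D) (g : Eu ι → ℝ) (hg : Measurable g)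
    (hg0 : ∀ t, 0 ≤ g t) (n : ℕ) (h0 : mass D g n ≠ 0) (h1 : mass D g n ≠ ⊤) :
    lawD D g n = mu (rho D g n (mass D g n).toReal) := by
  unfold lawD mu
  have hm : Measurable fun t : Eu ι => ENNReal.ofReal (|g t| ^ n) := by fun_prop
  rw [← withDensity_indicator hD, ← withDensity_smul _ (hm.indicator hD)]
  congr 1
  funext t
  rw [Pi.smul_apply, smul_eq_mul]
  unfold rho
  have hc : 0 < (mass D g n).toReal := ENNReal.toReal_pos h0 h1
  by_cases ht : t ∈ D
  · rw [indicator_of_mem ht, indicator_of_mem ht, ENNReal.ofReal_div_of_pos hc,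
      ENNReal.ofReal_toReal h1, abs_of_nonneg (hg0 t), div_eq_mul_inv, mul_comm]
  · rw [indicator_of_notMem ht, indicator_of_notMem ht, zero_div, ENNReal.ofReal_zero, mul_zero]

/-- **Centred sections.** -/
theorem base_sym [Nonempty ι'] (B : Set (Eu ι')) (hB : IsCompact B) (hBi : (interior B).Nonempty)
    (hBb : ∫ x in B, x = 0)
    (D : Set (Eu ι)) (g : Eu ι → ℝ) (hg : Measurable g) (hg0 : ∀ t ∈ D, 0 ≤ g t)
    (hgc : ConcaveOn ℝ D g) (K : Set (Eu (ι ⊕ ι'))) (hKc : IsCompact K) (hKi : (interior K).Nonempty)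
    (hK : ∀ z, z ∈ K ↔ lft z ∈ D ∧ ∃ y ∈ B, rgt z = g (lft z) • y) :
    (∃ ρ : Eu ι → ℝ, LC ρ ∧ IsProbabilityMeasure (mu ρ) ∧
      (∀ s t, (s ∈ D ↔ t ∈ D) → (s ∈ D → g s = g t) → ρ s = ρ t) ∧
      Measure.map lft ((volume K)⁻¹ • volume.restrict K) = mu ρ) ∧
    ∀ k k' : ℝ, VarKLS ((volume B)⁻¹ • volume.restrict B) k →
      VarKLS (Measure.map lft ((volume K)⁻¹ • volume.restrict K)) k' →
      VarKLS ((volume K)⁻¹ • volume.restrict K) (k + 2 * k' + 4) := by
  have hK0 : volume K ≠ 0 := (Measure.measure_pos_of_nonempty_interior volume hKi).ne'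
  constructor
  · obtain ⟨hDm, R, hR, hDR, hgR⟩ := prep B hBi D g hg0 K hKc hK
    have hvB : volume B ≠ 0 := (Measure.measure_pos_of_nonempty_interior volume hBi).ne'
    have hvB' : volume B ≠ ⊤ := hB.measure_lt_top.ne
    obtain ⟨g', hg'⟩ : ∃ g' : Eu ι → ℝ, g' = D.indicator g := ⟨_, rfl⟩
    have hgg : EqOn g g' D := fun t ht => by rw [hg', indicator_of_mem ht]
    have hg'm : Measurable g' := by rw [hg']; exact hg.indicator hDm
    have hg'0 : ∀ t, 0 ≤ g' t := fun t => by
      rw [hg']; exact indicator_nonneg (fun t ht => hg0 t ht) t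
    have hg'c : ConcaveOn ℝ D g' := hgc.congr hgg
    have hbody : body B D (fun _ => 0) g' 0 = K := by
      ext z
      rw [hK]
      unfold body
      rw [mem_ofPred_eq]
      refine and_congr_right fun hz => ?_
      refine exists_congr fun y => and_congr_right fun _ => ?_
      rw [← hgg hz, sub_zero, zero_add]
    obtain ⟨n, hn⟩ : ∃ n : ℕ, n = Fintype.card ι' := ⟨_, rfl⟩
    have hn1 : 1 ≤ n := by
      rw [hn]
      exact Fintype.card_pos
    have hKm : MeasurableSet (body B D (fun _ => 0) g' 0) := by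
      rw [hbody]
      exact hKc.measurableSet
    have hvb := vol_body B D hDm (fun _ => 0) g' hg'm 0 hKm
    rw [← hn] at hvb
    have hpos : mass D g' n ≠ 0 := by
      intro h
      rw [h, zero_mul, hbody] at hvb
      exact hK0 hvb
    obtain ⟨hfin, hp, hae, hE⟩ := law_facts D hDm g' hg'm hg'0 R hDR
      (fun t ht => by rw [← hgg ht]; exact hgR t ht) n hn1 hpos
    have hlaw := map_law B hB.measurableSet hvB hvB' D hDm (fun _ => 0) measurable_const g' hg'm 0 hKm
      (hn ▸ hpos) (hfin _)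
    rw [hbody, ← hn] at hlaw
    have hβp : IsProbabilityMeasure ((volume B)⁻¹ • (volume : Measure (Eu ι')).restrict B) :=
      prob B hB hBi _ rfl
    have hprm : Measurable (pr (fun _ : Eu ι => (0 : Eu ι')) g' 0) :=
      pr_meas (fun _ => 0) measurable_const g' hg'm 0
    have hfst : Measure.map lft ((volume K)⁻¹ • volume.restrict K) = lawD D g' n := by
      rw [← hlaw, Measure.map_map lft_cont.measurable hprm]
      exact Measure.fst_prod (μ := lawD D g' n) (ν := (volume B)⁻¹ • volume.restrict B)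
    have hl := rho_law D hDm g' hg'm hg'0 n hpos (hfin n)
    have hc : 0 < (mass D g' n).toReal := ENNReal.toReal_pos hpos (hfin n)
    refine ⟨rho D g' n (mass D g' n).toReal, rho_lc D hDm g' hg'm hg'0 hg'c n _ hc, ?_, ?_, ?_⟩
    · rw [← hl]
      exact hp
    · intro s t hst hgst
      unfold rho
      by_cases hs : s ∈ D
      · have ht := hst.1 hs
        rw [indicator_of_mem hs, indicator_of_mem ht, ← hgg hs, ← hgg ht, hgst hs]
      · have ht : t ∉ D := fun h => hs (hst.2 h)
        rw [indicator_of_notMem hs, indicator_of_notMem ht]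
    · rw [hfst, hl]
  · intro k k' hk hk'
    have hb : ∫ y, y ∂((volume B)⁻¹ • (volume : Measure (Eu ι')).restrict B) = 0 := by
      rw [integral_smul_measure, hBb, smul_zero]
    refine tower2 B hB hBi k hk D g hg hg0 hgc (fun _ => 0) measurable_const K hKc hKi
      (fun z => by simp only [hK, zero_add]) k' ?_
    rw [hb]
    have h1 := VarKLS_map (inl' (ι := ι) (ι' := ι')) _ k' hk'
    rw [Measure.map_map (inl' (ι := ι) (ι' := ι')).continuous.measurable lft_cont.measurable] at h1
    have e : (fun z : Eu (ι ⊕ ι') => jn (lft z, (0 : Eu ι') + g (lft z) • (0 : Eu ι'))) =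
        (inl' (ι := ι) (ι' := ι')) ∘ lft := by
      funext z
      rw [Function.comp_apply, inl'_apply, smul_zero, add_zero]
    rw [e]
    exact h1

end Pool.Agent.V11317.NC
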