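import Pool.Agent.Y445.FF.Mila
import Pool.Agent.Y665.FF.Milb
import Pool.Agent.Y211.FF.Half
import Pool.Agent.Y429.RG.MINKM
import Pool.Agent.Y532.PV.Che

/-!
# From the variance of Lipschitz functions to the Cheeger inequality, for arbitrary convex bodies
(no central symmetry)
-/

set_option autoImplicit false

namespace Pool.Agent.V11317.NC

open MeasureTheory Set Filter Topology
open scoped ENNReal InnerProductSpace
open Pool.Agent.W695.KH (Eu EU EV VV Sm)

variable {κ : Type} [Fintype κ]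

/-- the mean over `K` is the integral for the uniform measure -/
theorem EV_eq (K : Set (Eu κ)) (μ : Measure (Eu κ)) (hμ : μ = (volume K)⁻¹ • volume.restrict K)
    (v : Eu κ → ℝ) : EV K v = ∫ x, v x ∂μ := by
  unfold EV
  rw [hμ, integral_smul_measure, smul_eq_mul, ENNReal.toReal_inv, div_eq_inv_mul]

theorem prob (K : Set (Eu κ)) (hcp : IsCompact K) (hint : (interior K).Nonempty)
    (μ : Measure (Eu κ)) (hμ : μ = (volume K)⁻¹ • volume.restrict K) : IsProbabilityMeasure μ := by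
  have hv0 : volume K ≠ 0 := (Measure.measure_pos_of_nonempty_interior volume hint).ne'
  have hvt : volume K ≠ ⊤ := hcp.measure_lt_top.ne
  exact ⟨by rw [hμ, Measure.smul_apply, Measure.restrict_apply_univ, smul_eq_mul,
    ENNReal.inv_mul_cancel hv0 hvt]⟩

theorem VV_eq (K : Set (Eu κ)) (hcp : IsCompact K) (hint : (interior K).Nonempty)
    (μ : Measure (Eu κ)) (hμ : μ = (volume K)⁻¹ • volume.restrict K)
    (v : Eu κ → ℝ) (hv : ContDiff ℝ 1 v) (hb : ∀ x, |v x| ≤ 1) :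
    VV K v = ProbabilityTheory.variance v μ := by
  have hp := prob K hcp hint μ hμ
  have hm : MemLp v 2 μ := by
    refine MemLp.of_bound hv.continuous.aestronglyMeasurable 1 (Eventually.of_forall fun x => ?_)
    rw [Real.norm_eq_abs]
    exact hb x
  rw [ProbabilityTheory.variance_eq_sub hm]
  unfold VV
  rw [EV_eq K μ hμ, EV_eq K μ hμ]
  rfl

/-- **Lipschitz functions of variance at most `B` give a Cheeger inequality for sets of measure
one half** (a theorem of E. Milman, for uniform measures on convex bodies). -/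
theorem half_of_var (K : Set (Eu κ)) (hcp : IsCompact K) (hco : Convex ℝ K)
    (hint : (interior K).Nonempty) (μ : Measure (Eu κ))
    (hμ : μ = (volume K)⁻¹ • volume.restrict K) (B : ℝ) (hB : 0 < B)
    (hlip : ∀ v : Eu κ → ℝ, ContDiff ℝ 1 v → (∀ x, ‖fderiv ℝ v x‖ ≤ 1) →
      ProbabilityTheory.variance v μ ≤ B) (S : Set (Eu κ)) (hS : μ S = 1 / 2) :
    ENNReal.ofReal (1 / (40 * Real.sqrt B)) ≤
      liminf (fun ε : ℝ => (μ (Metric.thickening ε S) - μ S) / ENNReal.ofReal ε) (𝓝[>] 0) := by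
  have hp := prob K hcp hint μ hμ
  have hvol : 0 < volume K := Measure.measure_pos_of_nonempty_interior volume hint
  have hsB : 0 < Real.sqrt B := Real.sqrt_pos.2 hB
  set l : ℝ := 1 / (5 * Real.sqrt B) with hl
  have hl0 : 0 < l := by positivity
  have hlc : Pool.Agent.Y506.FF.LCon K l (1 / 25) := by
    intro v hv hv1 hvl
    rw [VV_eq K hcp hint μ hμ v hv hv1]
    have h1 := hlip (fun x => l⁻¹ * v x) (contDiff_const.mul hv) (fun x => by
      have e1 : fderiv ℝ (fun x => l⁻¹ * v x) x = l⁻¹ • fderiv ℝ v x := by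
        rw [fderiv_const_mul (hv.differentiable one_ne_zero x)]
      rw [e1, norm_smul, Real.norm_eq_abs, abs_of_pos (inv_pos.2 hl0)]
      calc l⁻¹ * ‖fderiv ℝ v x‖ ≤ l⁻¹ * l := mul_le_mul_of_nonneg_left (hvl x) (inv_pos.2 hl0).le
        _ = 1 := inv_mul_cancel₀ hl0.ne')
    rw [ProbabilityTheory.variance_const_mul] at h1
    have h2 : l⁻¹ ^ 2 = 25 * B := by
      rw [hl, one_div, inv_inv, mul_pow, Real.sq_sqrt hB.le]
      norm_num
    rw [h2] at h1
    nlinarith
  have hmil := Pool.Agent.Y665.FF.milb Pool.Agent.Y445.FF.mila' κ K hcp hco hvol (1 / 25) l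
    (by norm_num) hl0 hlc
  have key := Pool.Agent.Y429.RG.minkm κ μ (2 / l) (by positivity) (by
    intro f L M hf hfb hf5
    have h1 := hmil f L M hf hfb (by
      rw [VV_eq K hcp hint μ hμ f hf.diff hf.bdd, ProbabilityTheory.variance_eq_sub
        (MemLp.of_bound hf.diff.continuous.aestronglyMeasurable 1
          (Eventually.of_forall fun x => by rw [Real.norm_eq_abs]; exact hf.bdd x))]
      have e1 : ∫ x, (f ^ 2) x ∂μ = ∫ x, f x ^ 2 ∂μ := rfl
      rw [e1]
      linarith)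
    unfold VV at h1
    rw [EV_eq K μ hμ, EV_eq K μ hμ, EV_eq K μ hμ] at h1
    exact h1) S hS
  rw [hS] at key
  obtain ⟨I, hI⟩ : ∃ I : ℝ≥0∞, I = liminf (fun ε : ℝ => (μ (Metric.thickening ε S) - μ S) /
    ENNReal.ofReal ε) (𝓝[>] 0) := ⟨_, rfl⟩
  have key' : (1 / 2 : ℝ≥0∞) * (1 - 1 / 2) ≤ ENNReal.ofReal (2 / l) * I := by
    rw [hI, ← hS]
    rw [hS]
    exact key
  rw [hS]
  rw [hS] at hI
  rw [← hI]
  have h1 : (1 / 2 : ℝ≥0∞) * (1 - 1 / 2) = ENNReal.ofReal (1 / 4) := by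
    have h2 : (1 / 2 : ℝ≥0∞) = ENNReal.ofReal (1 / 2) := by
      rw [ENNReal.ofReal_div_of_pos (by norm_num)]
      norm_num
    rw [h2, ← ENNReal.ofReal_one, ← ENNReal.ofReal_sub _ (by norm_num),
      ← ENNReal.ofReal_mul (by norm_num)]
    norm_num
  rw [h1] at key'
  have h3 : ENNReal.ofReal (l / 2) * ENNReal.ofReal (1 / 4) ≤
      ENNReal.ofReal (l / 2) * (ENNReal.ofReal (2 / l) * I) := by gcongr
  rw [← mul_assoc, ← ENNReal.ofReal_mul (by positivity), ← ENNReal.ofReal_mul (by positivity)] at h3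
  have h4 : l / 2 * (2 / l) = 1 := by field_simp
  rw [h4, ENNReal.ofReal_one, one_mul] at h3
  refine le_trans (ENNReal.ofReal_le_ofReal (le_of_eq ?_)) h3
  rw [hl]
  field_simp
  norm_num

/-- the variances of the linear functionals are controlled by the halfspaces -/
theorem var_of_halfspaces : ∃ C : ℝ, 0 < C ∧ ∀ (κ : Type) [Fintype κ] (K : Set (Eu κ)),
    IsCompact K → Convex ℝ K → (interior K).Nonempty → ∀ μ : Measure (Eu κ),
    μ = (volume K)⁻¹ • volume.restrict K → ∀ t : ℝ≥0∞,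
    (∀ (a : Eu κ) (b : ℝ), a ≠ 0 → t * min (μ {x | ⟪a, x⟫_ℝ ≤ b}) (1 - μ {x | ⟪a, x⟫_ℝ ≤ b}) ≤
      liminf (fun ε : ℝ => (μ (Metric.thickening ε {x | ⟪a, x⟫_ℝ ≤ b}) - μ {x | ⟪a, x⟫_ℝ ≤ b}) /
        ENNReal.ofReal ε) (𝓝[>] 0)) →
    ∀ r : ℝ, 0 < r → ENNReal.ofReal r ≤ t → ∀ θ : Eu κ, ‖θ‖ = 1 →
      ProbabilityTheory.variance (fun x => ⟪θ, x⟫_ℝ) μ ≤ C / r ^ 2 := by
  obtain ⟨C, hC, HH⟩ := Pool.Agent.Y211.FF.half
  refine ⟨C, hC, ?_⟩
  intro κ _ K hcp hco hint μ hμ t ht r hr hrt θ hθ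
  have hp := prob K hcp hint μ hμ
  have hvol : 0 < volume K := Measure.measure_pos_of_nonempty_interior volume hint
  obtain ⟨m, hm⟩ := HH κ K hcp hco hint μ hμ θ t hθ fun b => ht θ b (by
    intro h0
    rw [h0, norm_zero] at hθ
    exact zero_ne_one hθ)
  have hint' : Integrable (fun x => (⟪θ, x⟫_ℝ - m) ^ 2) μ := by
    rw [hμ]
    refine Integrable.smul_measure ?_ (ENNReal.inv_ne_top.2 hvol.ne')
    have : Continuous fun x : Eu κ => (⟪θ, x⟫_ℝ - m) ^ 2 := by fun_prop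
    exact this.continuousOn.integrableOn_compact hcp
  rw [← ofReal_integral_eq_lintegral_ofReal hint' (Eventually.of_forall fun x => sq_nonneg _)] at hm
  obtain ⟨W, hW⟩ : ∃ W : ℝ, W = ∫ x, (⟪θ, x⟫_ℝ - m) ^ 2 ∂μ := ⟨_, rfl⟩
  rw [← hW] at hm
  have h1 : ENNReal.ofReal (r ^ 2 * W) ≤ ENNReal.ofReal C := by
    rw [ENNReal.ofReal_mul (by positivity), ENNReal.ofReal_pow hr.le]
    exact (mul_le_mul_left (pow_le_pow_left' hrt 2) _).trans hm
  have h2 : r ^ 2 * W ≤ C := (ENNReal.ofReal_le_ofReal_iff hC.le).1 h1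
  have h3 : ProbabilityTheory.variance (fun x => ⟪θ, x⟫_ℝ) μ ≤ W := by
    have h4 : ProbabilityTheory.variance (fun x => ⟪θ, x⟫_ℝ - m) μ =
        ProbabilityTheory.variance (fun x => ⟪θ, x⟫_ℝ) μ :=
      ProbabilityTheory.variance_sub_const (by fun_prop) m
    rw [← h4]
    refine (ProbabilityTheory.variance_le_expectation_sq (by fun_prop)).trans (le_of_eq ?_)
    rw [hW]
    refine integral_congr_ae (Eventually.of_forall fun x => ?_)
    simp only [Pi.pow_apply]
  refine h3.trans ?_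
  rw [le_div_iff₀ (by positivity)]
  linarith

end Pool.Agent.V11317.NC
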