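import Pool.Agent.V11317.NC.Var

/-!
# The variance form of KLS implies the hyperplane form for symmetric convex bodies
-/

set_option autoImplicit false

namespace Pool.Agent.V11317.NC

open MeasureTheory Set Filter Topology
open scoped ENNReal InnerProductSpace Pointwise
open Pool.Agent.W695.KH (Eu EU EV VV Sm sec per)
open Pool.Agent.V11298.KD (CovLe VarKLS)

variable {κ : Type} [Fintype κ]

theorem hyp_var : ∃ C : ℝ, 0 < C ∧ ∀ (κ : Type) [Fintype κ] [Nonempty κ] (Ω : Set (Eu κ)),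
    IsOpen Ω → Convex ℝ Ω → Bornology.IsBounded Ω → (0 : Eu κ) ∈ Ω → (∀ x ∈ Ω, -x ∈ Ω) →
    ∀ k : ℝ, 0 < k → VarKLS ((volume (closure Ω))⁻¹ • volume.restrict (closure Ω)) k →
    ∃ a : Eu κ, a ≠ 0 ∧ ∀ E : Set (Eu κ), MeasurableSet E → E ⊆ Ω → volume E = volume Ω / 2 →
      sec Ω a ≤ ENNReal.ofReal (C * Real.sqrt k) * per E Ω := by
  obtain ⟨C, hC, H⟩ := Pool.Agent.V11298.KD.final_of_fun
  refine ⟨C * Real.sqrt 500, by positivity, ?_⟩
  intro κ _ _ Ω hop hco hbd h0 hsym k hk hv
  have hΩc : IsCompact (closure Ω) := Metric.isCompact_of_isClosed_isBounded isClosed_closure hbd.closure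
  have hΩi : (interior (closure Ω)).Nonempty := ⟨0, interior_mono subset_closure (by rwa [hop.interior_eq])⟩
  obtain ⟨μ, hμ⟩ : ∃ μ : Measure (Eu κ), μ = (volume (closure Ω))⁻¹ • volume.restrict (closure Ω) := ⟨_, rfl⟩
  rw [← hμ] at hv
  have hμp := prob (closure Ω) hΩc hΩi μ hμ
  -- the means over `Ω` and its dilates
  have hEV : ∀ u : Eu κ → ℝ, EV Ω u = ∫ x, u x ∂μ := by
    intro u
    have h1 := Pool.Agent.W932.KH.EV_scale hop hco 1 one_pos u
    simp only [one_smul] at h1
    rw [← h1, EV_eq (closure Ω) μ hμ]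
  have hEVr : ∀ (r : ℝ), 0 < r → ∀ u : Eu κ → ℝ, EV (r • closure Ω) u = ∫ x, u (r • x) ∂μ := by
    intro r hr u
    rw [Pool.Agent.W932.KH.EV_scale hop hco r hr u, hEV]
  have key := H κ Ω hop hco hbd h0 hsym (500 * k) (by positivity) (by
    intro r hr0 hr1 q hq hcov f L N hf hf2 h5
    have hDc : IsCompact (r • closure Ω) := hΩc.smul r
    have hrp : 0 < ENNReal.ofReal |r ^ Module.finrank ℝ (Eu κ)| := by
      rw [abs_of_pos (pow_pos hr0 _)]
      exact ENNReal.ofReal_pos.mpr (pow_pos hr0 _)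
    have hDvol : 0 < volume (r • closure Ω) := by
      rw [Measure.addHaar_smul]
      refine ENNReal.mul_pos hrp.ne' ?_
      exact (lt_of_lt_of_le (hop.measure_pos volume ⟨0, h0⟩) (measure_mono subset_closure)).ne'
    -- the covariance
    have hc : CovLe μ (q / r ^ 2) := by
      intro θ
      have hm : MemLp (fun x : Eu κ => ⟪θ, x⟫_ℝ) 2 μ :=
        memLp_lin (closure Ω) hΩc hΩi μ hμ _ (by fun_prop)
      rw [← hm.ofReal_variance_eq]
      apply ENNReal.ofReal_le_ofReal
      have h1 := hcov (r⁻¹ • θ)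
      rw [hEVr r hr0] at h1
      have e1 : ∀ x : Eu κ, ⟪r⁻¹ • θ, r • x⟫_ℝ = ⟪θ, x⟫_ℝ := by
        intro x
        rw [real_inner_smul_left, real_inner_smul_right, ← mul_assoc, inv_mul_cancel₀ hr0.ne', one_mul]
      simp only [e1] at h1
      rw [norm_smul, norm_inv, Real.norm_eq_abs, abs_of_pos hr0] at h1
      refine (ProbabilityTheory.variance_le_expectation_sq hm.aestronglyMeasurable).trans ?_
      have e2 : ∫ x, ((fun x : Eu κ => ⟪θ, x⟫_ℝ) ^ 2) x ∂μ = ∫ x, ⟪θ, x⟫_ℝ ^ 2 ∂μ := rfl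
      rw [e2]
      refine h1.trans (le_of_eq ?_)
      field_simp
    obtain ⟨l, hl⟩ : ∃ l : ℝ, l = 1 / (5 * Real.sqrt (k * q)) := ⟨_, rfl⟩
    have hkq : 0 < Real.sqrt (k * q) := Real.sqrt_pos.2 (by positivity)
    have hl0 : 0 < l := by rw [hl]; positivity
    have hlc : Pool.Agent.Y506.FF.LCon (r • closure Ω) l (1 / 25) := by
      intro v hv1 hvb hvl
      have h1 : VV (r • closure Ω) v = ProbabilityTheory.variance (fun x => v (r • x)) μ := by
        have hm : MemLp (fun x => v (r • x)) 2 μ := by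
          refine MemLp.of_bound ?_ 1 (Eventually.of_forall fun x => ?_)
          · exact (hv1.continuous.comp (continuous_const_smul r)).aestronglyMeasurable
          · rw [Real.norm_eq_abs]
            exact hvb _
        rw [ProbabilityTheory.variance_eq_sub hm]
        unfold VV
        rw [hEVr r hr0, hEVr r hr0]
        rfl
      rw [h1]
      have hrl : 0 < r * l := mul_pos hr0 hl0
      have hud : ContDiff ℝ 1 fun x : Eu κ => (r * l)⁻¹ * v (r • x) :=
        contDiff_const.mul (hv1.comp (contDiff_const_smul r))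
      have h2 := (hv (q / r ^ 2) (by positivity) hc (fun x => (r * l)⁻¹ * v (r • x)) hud (fun x => by
        have hd1 : HasFDerivAt (fun x : Eu κ => r • x) (r • ContinuousLinearMap.id ℝ (Eu κ)) x :=
          (hasFDerivAt_id x).const_smul r
        have hd2 := ((hv1.differentiable one_ne_zero (r • x)).hasFDerivAt.comp x hd1).const_mul (r * l)⁻¹
        have hd3 : fderiv ℝ (fun x : Eu κ => (r * l)⁻¹ * v (r • x)) x = _ := hd2.fderiv
        rw [hd3, norm_smul, ContinuousLinearMap.comp_smul, norm_smul, ContinuousLinearMap.comp_id,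
          Real.norm_eq_abs, Real.norm_eq_abs, abs_of_pos (inv_pos.2 hrl), abs_of_pos hr0]
        calc (r * l)⁻¹ * (r * ‖fderiv ℝ v (r • x)‖) ≤ (r * l)⁻¹ * (r * l) := by
              refine mul_le_mul_of_nonneg_left ?_ (inv_pos.2 hrl).le
              exact mul_le_mul_of_nonneg_left (hvl _) hr0.le
          _ = 1 := inv_mul_cancel₀ hrl.ne')).2
      rw [ProbabilityTheory.variance_const_mul] at h2
      obtain ⟨W, hW⟩ : ∃ W : ℝ, W = ProbabilityTheory.variance (fun x => v (r • x)) μ := ⟨_, rfl⟩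
      rw [← hW] at h2 ⊢
      have h3 : W ≤ (r * l) ^ 2 * (k * (q / r ^ 2)) := by
        have h4 : W = (r * l) ^ 2 * ((r * l)⁻¹ ^ 2 * W) := by
          field_simp
        rw [h4]
        exact mul_le_mul_of_nonneg_left h2 (sq_nonneg _)
      refine h3.trans (le_of_eq ?_)
      have h5 : l ^ 2 = 1 / (25 * (k * q)) := by
        rw [hl, div_pow, mul_pow, Real.sq_sqrt (by positivity)]
        norm_num
      rw [mul_pow, h5]
      field_simp
    have hmil := Pool.Agent.Y665.FF.milb Pool.Agent.Y445.FF.mila' κ (r • closure Ω) hDc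
      (hco.closure.smul r) hDvol (1 / 25) l (by norm_num) hl0 hlc f L N hf hf2 (by linarith)
    obtain ⟨Y, hY⟩ : ∃ Y : ℝ, Y = EV (r • closure Ω) fun x => ‖fderiv ℝ f x‖ := ⟨_, rfl⟩
    obtain ⟨Z, hZ⟩ : ∃ Z : ℝ, Z = VV (r • closure Ω) f := ⟨_, rfl⟩
    rw [← hY, ← hZ] at hmil
    rw [← hZ] at h5
    rw [← hY, ← hZ]
    have h6 : Z ≤ 10 * Real.sqrt (k * q) * Y := by
      refine hmil.trans (le_of_eq ?_)
      rw [hl]
      field_simp
      ring
    rw [mul_pow, Real.sq_sqrt (by positivity)]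
    have h7 : (Real.sqrt (k * q)) ^ 2 = k * q := Real.sq_sqrt (by positivity)
    have h8 : (10 * Real.sqrt (k * q) * Y) ^ 2 = 100 * (k * q) * Y ^ 2 := by
      rw [mul_pow, mul_pow, h7]
      norm_num
    nlinarith)
  have e : C * Real.sqrt (500 * k) = C * Real.sqrt 500 * Real.sqrt k := by
    rw [Real.sqrt_mul (by norm_num), mul_assoc]
  rw [e] at key
  exact key

end Pool.Agent.V11317.NC
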