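import Pool.Agent.V11317.NC.Var
import Pool.Agent.H212R2.KLS.T1

/-!
# Convex bodies over a convex body: the law of the uniform measure
-/

set_option autoImplicit false

namespace Pool.Agent.V11317.NC

open MeasureTheory Set Filter Topology
open scoped ENNReal InnerProductSpace Pointwise
open Pool.Agent.W695.KH (Eu)

variable {ι ι' : Type} [Fintype ι] [Fintype ι']

/-- the point with the components `x`, `y` -/
def jn (z : Eu ι × Eu ι') : Eu (ι ⊕ ι') := WithLp.toLp 2 (Sum.elim z.1.ofLp z.2.ofLp)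

/-- first component -/
def lft (z : Eu (ι ⊕ ι')) : Eu ι := WithLp.toLp 2 fun i => z (Sum.inl i)

/-- second component -/
def rgt (z : Eu (ι ⊕ ι')) : Eu ι' := WithLp.toLp 2 fun i => z (Sum.inr i)

@[simp] theorem lft_jn (z : Eu ι × Eu ι') : lft (jn z) = z.1 := rfl
@[simp] theorem rgt_jn (z : Eu ι × Eu ι') : rgt (jn z) = z.2 := rfl

theorem jn_lr (z : Eu (ι ⊕ ι')) : jn (lft z, rgt z) = z := by
  ext i
  rcases i with i | i <;> rfl

theorem inner_jn (z w : Eu ι × Eu ι') : ⟪jn z, jn w⟫_ℝ = ⟪z.1, w.1⟫_ℝ + ⟪z.2, w.2⟫_ℝ := by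
  simp only [PiLp.inner_apply, Fintype.sum_sum_type]
  rfl

theorem norm_jn (z : Eu ι × Eu ι') : ‖jn z‖ ^ 2 = ‖z.1‖ ^ 2 + ‖z.2‖ ^ 2 := by
  rw [← real_inner_self_eq_norm_sq, inner_jn, real_inner_self_eq_norm_sq, real_inner_self_eq_norm_sq]

theorem jn_mp : MeasurePreserving (jn (ι := ι) (ι' := ι'))
    ((volume : Measure (Eu ι)).prod (volume : Measure (Eu ι'))) volume := by
  have h1 : MeasurePreserving (fun z : Eu ι × Eu ι' => ((z.1.ofLp, z.2.ofLp) : (ι → ℝ) × (ι' → ℝ)))
      ((volume : Measure (Eu ι)).prod (volume : Measure (Eu ι')))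
      ((volume : Measure (ι → ℝ)).prod (volume : Measure (ι' → ℝ))) :=
    (PiLp.volume_preserving_ofLp ι).prod (PiLp.volume_preserving_ofLp _)
  have h2 := volume_measurePreserving_sumPiEquivProdPi_symm (fun _ : ι ⊕ ι' => ℝ)
  have h4 := PiLp.volume_preserving_toLp (ι ⊕ ι')
  have h5 := h4.comp (h2.comp h1)
  have h6 : jn (ι := ι) (ι' := ι') = (@WithLp.toLp 2 (ι ⊕ ι' → ℝ)) ∘
      ((MeasurableEquiv.sumPiEquivProdPi (fun _ : ι ⊕ ι' => ℝ)).symm ∘
      fun z : Eu ι × Eu ι' => ((z.1.ofLp, z.2.ofLp) : (ι → ℝ) × (ι' → ℝ))) := by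
    funext z
    ext p
    simp only [Function.comp_apply, MeasurableEquiv.coe_sumPiEquivProdPi_symm]
    rcases p with i | i <;> rfl
  rw [h6]
  exact h5

theorem jn_add (z w : Eu ι × Eu ι') : jn (z + w) = jn z + jn w := by
  ext i
  rcases i with i | i <;> rfl

theorem jn_smul (r : ℝ) (z : Eu ι × Eu ι') : jn (r • z) = r • jn z := by
  ext i
  rcases i with i | i <;> rfl

theorem jn_cont : Continuous (jn (ι := ι) (ι' := ι')) := by
  have : Continuous fun z : Eu ι × Eu ι' => (Sum.elim z.1.ofLp z.2.ofLp : ι ⊕ ι' → ℝ) := by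
    refine continuous_pi fun i => ?_
    rcases i with i | i
    · simp only [Sum.elim_inl]
      fun_prop
    · simp only [Sum.elim_inr]
      fun_prop
  exact (PiLp.continuous_toLp 2 _).comp this

/-- the parametrisation of the body over `B` -/
noncomputable def pr (a : Eu ι → Eu ι') (g : Eu ι → ℝ) (b : Eu ι') (z : Eu ι × Eu ι') :
    Eu (ι ⊕ ι') := jn (z.1, a z.1 + g z.1 • (z.2 - b))

theorem pr_meas (a : Eu ι → Eu ι') (ha : Measurable a) (g : Eu ι → ℝ) (hg : Measurable g) (b : Eu ι') :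
    Measurable (pr a g b) := by
  unfold pr
  exact jn_cont.measurable.comp (measurable_fst.prodMk
    ((ha.comp measurable_fst).add ((hg.comp measurable_fst).smul (measurable_snd.sub_const b))))

/-- volume of the image of a dilation -/
theorem vol_dil (c : Eu ι') (r : ℝ) (b : Eu ι') (Y : Set (Eu ι')) :
    volume ((fun y => c + r • (y - b)) '' Y) = ENNReal.ofReal (|r| ^ Fintype.card ι') * volume Y := by
  have h1 : (fun y => c + r • (y - b)) '' Y = (fun x => (c - r • b) + x) '' (r • Y) := by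
    rw [← image_smul, image_image]
    refine image_congr fun y _ => ?_
    rw [smul_sub]
    abel
  rw [h1, image_add_left, measure_preimage_add, Measure.addHaar_smul, finrank_euclideanSpace, abs_pow]

/-- the body over `B` -/
def body (B : Set (Eu ι')) (D : Set (Eu ι)) (a : Eu ι → Eu ι') (g : Eu ι → ℝ) (b : Eu ι') :
    Set (Eu (ι ⊕ ι')) := {z | lft z ∈ D ∧ ∃ y ∈ B, rgt z = a (lft z) + g (lft z) • (y - b)}

theorem vol_inter (B : Set (Eu ι')) (D : Set (Eu ι)) (hD : MeasurableSet D) (a : Eu ι → Eu ι')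
    (g : Eu ι → ℝ) (b : Eu ι') (hK : MeasurableSet (body B D a g b))
    (E : Set (Eu (ι ⊕ ι'))) (hE : MeasurableSet E) :
    volume (body B D a g b ∩ E) =
      ∫⁻ t in D, ENNReal.ofReal (|g t| ^ Fintype.card ι') * volume (B ∩ {y | pr a g b (t, y) ∈ E}) := by
  have h0 : volume (body B D a g b ∩ E) = ((volume : Measure (Eu ι)).prod
      (volume : Measure (Eu ι'))) (jn ⁻¹' (body B D a g b ∩ E)) :=
    (jn_mp.measure_preimage (hK.inter hE).nullMeasurableSet).symm
  rw [h0, Measure.prod_apply (jn_cont.measurable (hK.inter hE)), ← lintegral_indicator hD]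
  refine lintegral_congr fun t => ?_
  by_cases ht : t ∈ D
  · rw [indicator_of_mem ht, ← vol_dil (a t) (g t) b]
    congr 1
    ext x
    simp only [mem_preimage, mem_inter_iff, mem_image, body, mem_ofPred_eq, lft_jn, rgt_jn, pr]
    constructor
    · rintro ⟨⟨_, y, hy, rfl⟩, hE⟩
      exact ⟨y, ⟨hy, hE⟩, rfl⟩
    · rintro ⟨y, ⟨hy, hE⟩, rfl⟩
      exact ⟨⟨ht, y, hy, rfl⟩, hE⟩
  · rw [indicator_of_notMem ht]
    have : Prod.mk t ⁻¹' (jn ⁻¹' (body B D a g b ∩ E)) = ∅ := by
      ext x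
      simp only [mem_preimage, mem_inter_iff, body, mem_ofPred_eq, lft_jn, mem_empty_iff_false,
        iff_false]
      rintro ⟨⟨h, _⟩, _⟩
      exact ht h
    rw [this, measure_empty]

end Pool.Agent.V11317.NC
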