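import Pool.Agent.V11317.NC.Rev1

/-!
# Convex bodies over a convex body: the law of the uniform measure, second part
-/

set_option autoImplicit false

namespace Pool.Agent.V11317.NC

open MeasureTheory Set Filter Topology
open scoped ENNReal InnerProductSpace Pointwise
open Pool.Agent.W695.KH (Eu)

variable {ι ι' : Type} [Fintype ι] [Fintype ι']

/-- the mass of the weight `|g|^n` on `D` -/
noncomputable def mass (D : Set (Eu ι)) (g : Eu ι → ℝ) (n : ℕ) : ℝ≥0∞ :=
  ∫⁻ t in D, ENNReal.ofReal (|g t| ^ n)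

/-- the law of the first component -/
noncomputable def lawD (D : Set (Eu ι)) (g : Eu ι → ℝ) (n : ℕ) : Measure (Eu ι) :=
  (mass D g n)⁻¹ • (volume.restrict D).withDensity fun t => ENNReal.ofReal (|g t| ^ n)

theorem lawD_prob (D : Set (Eu ι)) (g : Eu ι → ℝ) (n : ℕ) (h0 : mass D g n ≠ 0)
    (h1 : mass D g n ≠ ⊤) : IsProbabilityMeasure (lawD D g n) := by
  refine ⟨?_⟩
  unfold lawD
  rw [Measure.smul_apply, withDensity_apply _ MeasurableSet.univ, Measure.restrict_univ, smul_eq_mul]
  exact ENNReal.inv_mul_cancel h0 h1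

theorem lintegral_lawD (D : Set (Eu ι)) (g : Eu ι → ℝ) (hg : Measurable g) (n : ℕ)
    (F : Eu ι → ℝ≥0∞) (hF : Measurable F) :
    ∫⁻ t, F t ∂(lawD D g n) = (mass D g n)⁻¹ * ∫⁻ t in D, ENNReal.ofReal (|g t| ^ n) * F t := by
  unfold lawD
  have hm : Measurable fun t => ENNReal.ofReal (|g t| ^ n) := by fun_prop
  rw [lintegral_smul_measure, smul_eq_mul]
  congr 1
  rw [lintegral_withDensity_eq_lintegral_mul _ hm hF]
  rfl

theorem vol_body (B : Set (Eu ι')) (D : Set (Eu ι)) (hD : MeasurableSet D)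
    (a : Eu ι → Eu ι') (g : Eu ι → ℝ) (hg : Measurable g) (b : Eu ι')
    (hK : MeasurableSet (body B D a g b)) :
    volume (body B D a g b) = mass D g (Fintype.card ι') * volume B := by
  have h := vol_inter B D hD a g b hK univ MeasurableSet.univ
  simp only [inter_univ, mem_univ] at h
  rw [h]
  have e : (B ∩ {y : Eu ι' | True}) = B := by
    ext y
    simp
  simp only [e]
  rw [lintegral_mul_const _ (by fun_prop)]
  rfl

/-- **The law of the uniform measure.** -/
theorem map_law (B : Set (Eu ι')) (hB : MeasurableSet B) (hB0 : volume B ≠ 0) (hB1 : volume B ≠ ⊤)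
    (D : Set (Eu ι)) (hD : MeasurableSet D)
    (a : Eu ι → Eu ι') (ha : Measurable a) (g : Eu ι → ℝ) (hg : Measurable g) (b : Eu ι')
    (hK : MeasurableSet (body B D a g b)) (h0 : mass D g (Fintype.card ι') ≠ 0)
    (h1 : mass D g (Fintype.card ι') ≠ ⊤) :
    Measure.map (pr a g b) ((lawD D g (Fintype.card ι')).prod ((volume B)⁻¹ • volume.restrict B)) =
      (volume (body B D a g b))⁻¹ • volume.restrict (body B D a g b) := by
  have hp1 := lawD_prob D g (Fintype.card ι') h0 h1
  have hp2 : IsProbabilityMeasure ((volume B)⁻¹ • (volume : Measure (Eu ι')).restrict B) := by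
    refine ⟨?_⟩
    rw [Measure.smul_apply, Measure.restrict_apply_univ, smul_eq_mul]
    exact ENNReal.inv_mul_cancel hB0 hB1
  have hpr := pr_meas a ha g hg b
  ext E hE
  rw [Measure.map_apply hpr hE, Measure.prod_apply (hpr hE)]
  have hsec : ∀ t, ((volume B)⁻¹ • (volume : Measure (Eu ι')).restrict B)
      (Prod.mk t ⁻¹' (pr a g b ⁻¹' E)) = (volume B)⁻¹ * volume (B ∩ {y | pr a g b (t, y) ∈ E}) := by
    intro t
    have hm : MeasurableSet (Prod.mk t ⁻¹' (pr a g b ⁻¹' E)) := measurable_prodMk_left (hpr hE)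
    rw [Measure.smul_apply, Measure.restrict_apply hm, smul_eq_mul, inter_comm]
    rfl
  simp only [hsec]
  have hmv : Measurable fun t => volume (B ∩ {y | pr a g b (t, y) ∈ E}) := by
    have h2 : MeasurableSet ((univ ×ˢ B) ∩ (pr a g b ⁻¹' E)) :=
      (MeasurableSet.univ.prod hB).inter (hpr hE)
    have h3 := measurable_measure_prodMk_left (ν := (volume : Measure (Eu ι'))) h2
    convert h3 using 2
    congr 1
    ext y
    simp
  rw [lintegral_lawD D g hg _ _ (hmv.const_mul _), Measure.smul_apply, smul_eq_mul,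
    Measure.restrict_apply hE, inter_comm E, vol_inter B D hD a g b hK E hE, vol_body B D hD a g hg b hK]
  have e2 : ∀ t, ENNReal.ofReal (|g t| ^ Fintype.card ι') *
      ((volume B)⁻¹ * volume (B ∩ {y | pr a g b (t, y) ∈ E})) = (volume B)⁻¹ *
      (ENNReal.ofReal (|g t| ^ Fintype.card ι') * volume (B ∩ {y | pr a g b (t, y) ∈ E})) := fun t => by
    ring
  simp only [e2]
  rw [lintegral_const_mul' _ _ (ENNReal.inv_ne_top.2 hB0), ← mul_assoc,
    ENNReal.mul_inv (Or.inl h0) (Or.inl h1)]

/-- **Prekopa-Leindler for the powers of a concave function** -/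
theorem mass_pl (D : Set (Eu ι)) (hD : MeasurableSet D) (g : Eu ι → ℝ) (hg : Measurable g)
    (hg0 : ∀ t ∈ D, 0 ≤ g t) (hc : ConcaveOn ℝ D g) (n : ℕ) (hn : 1 ≤ n) :
    (ENNReal.ofReal ((n : ℝ) ^ Fintype.card ι) * mass D g n) ^ (1 / 2 : ℝ) *
      (ENNReal.ofReal (((n : ℝ) + 2) ^ Fintype.card ι) * mass D g (n + 2)) ^ (1 / 2 : ℝ) ≤
      ENNReal.ofReal (((n : ℝ) + 1) ^ Fintype.card ι) * mass D g (n + 1) := by
  have hn0 : (0 : ℝ) < n := by exact_mod_cast hn
  -- dilated powers
  have key : ∀ (k : ℕ) (r : ℝ), 0 < r →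
      ∫⁻ x : Eu ι, D.indicator (fun t => ENNReal.ofReal (|g t| ^ k)) (r⁻¹ • x) =
        ENNReal.ofReal (r ^ Fintype.card ι) * mass D g k := by
    intro k r hr
    have hm : Measurable (D.indicator fun t => ENNReal.ofReal (|g t| ^ k)) :=
      Measurable.indicator (by fun_prop) hD
    have h1 : ∫⁻ x : Eu ι, D.indicator (fun t => ENNReal.ofReal (|g t| ^ k)) (r⁻¹ • x) =
        ∫⁻ t, D.indicator (fun t => ENNReal.ofReal (|g t| ^ k)) t
          ∂(Measure.map (fun x : Eu ι => r⁻¹ • x) volume) :=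
      (lintegral_map hm (measurable_const_smul r⁻¹)).symm
    rw [h1, Measure.map_addHaar_smul _ (inv_ne_zero hr.ne'), lintegral_smul_measure,
      finrank_euclideanSpace, smul_eq_mul, lintegral_indicator hD]
    have h2 : |((r⁻¹) ^ Fintype.card ι)⁻¹| = r ^ Fintype.card ι := by
      rw [inv_pow, inv_inv, abs_of_pos (pow_pos hr _)]
    rw [h2]
    rfl
  have hm : ∀ (k : ℕ) (r : ℝ), Measurable fun x : Eu ι =>
      D.indicator (fun t => ENNReal.ofReal (|g t| ^ k)) (r⁻¹ • x) := fun k r =>
    (Measurable.indicator (by fun_prop) hD).comp (measurable_const_smul r⁻¹)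
  have hpl := Pool.Agent.H212R2.KLS.PL (volume : Measure (Eu ι)) (1 / 2) (by norm_num) (by norm_num)
    (fun x => D.indicator (fun t => ENNReal.ofReal (|g t| ^ n)) ((n : ℝ)⁻¹ • x))
    (fun x => D.indicator (fun t => ENNReal.ofReal (|g t| ^ (n + 2))) (((n : ℝ) + 2)⁻¹ • x))
    (fun x => D.indicator (fun t => ENNReal.ofReal (|g t| ^ (n + 1))) (((n : ℝ) + 1)⁻¹ • x))
    (hm _ _) (hm _ _) (hm _ _) (by
      intro x y
      obtain ⟨u, hu⟩ : ∃ u : Eu ι, u = (n : ℝ)⁻¹ • x := ⟨_, rfl⟩
      obtain ⟨v, hv⟩ : ∃ v : Eu ι, v = ((n : ℝ) + 2)⁻¹ • y := ⟨_, rfl⟩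
      obtain ⟨l, hl⟩ : ∃ l : ℝ, l = n / (2 * (n + 1)) := ⟨_, rfl⟩
      have hl0 : 0 < l := by rw [hl]; positivity
      have hl1 : 1 - l = (n + 2) / (2 * (n + 1)) := by
        rw [hl]; field_simp; ring
      have hl2 : 0 < 1 - l := by rw [hl1]; positivity
      have hw : ((n : ℝ) + 1)⁻¹ • ((1 - 1 / 2 : ℝ) • x + (1 / 2 : ℝ) • y) = l • u + (1 - l) • v := by
        rw [hu, hv, hl1, hl, smul_add, smul_smul, smul_smul, smul_smul, smul_smul]
        congr 2
        · field_simp
          norm_num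
        · field_simp
      rw [hw, ← hu, ← hv]
      by_cases hxu : u ∈ D
      · by_cases hyv : v ∈ D
        · have hmem : l • u + (1 - l) • v ∈ D := hc.1 hxu hyv hl0.le hl2.le (by ring)
          rw [indicator_of_mem hxu, indicator_of_mem hyv, indicator_of_mem hmem,
            ENNReal.ofReal_rpow_of_nonneg (by positivity) (by norm_num),
            ENNReal.ofReal_rpow_of_nonneg (by positivity) (by norm_num),
            ← ENNReal.ofReal_mul (by positivity)]
          apply ENNReal.ofReal_le_ofReal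
          have hgu := hg0 u hxu
          have hgv := hg0 v hyv
          have hgm := hg0 _ hmem
          rw [abs_of_nonneg hgu, abs_of_nonneg hgv, abs_of_nonneg hgm]
          have h1 : l * g u + (1 - l) * g v ≤ g (l • u + (1 - l) • v) := by
            have := hc.2 hxu hyv hl0.le hl2.le (by ring)
            simpa using this
          have h2 : g u ^ l * g v ^ (1 - l) ≤ l * g u + (1 - l) * g v :=
            Real.geom_mean_le_arith_mean2_weighted hl0.le hl2.le hgu hgv (by ring)
          have h3 : (g u ^ n) ^ (1 - 1 / 2 : ℝ) * (g v ^ (n + 2)) ^ (1 / 2 : ℝ) =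
              (g u ^ l * g v ^ (1 - l)) ^ (n + 1) := by
            rw [mul_pow, ← Real.rpow_natCast, ← Real.rpow_natCast, ← Real.rpow_natCast,
              ← Real.rpow_natCast, ← Real.rpow_mul hgu, ← Real.rpow_mul hgv, ← Real.rpow_mul hgu,
              ← Real.rpow_mul hgv]
            congr 2
            · rw [hl]; push_cast; field_simp; norm_num
            · rw [hl1]; push_cast; field_simp
          rw [h3]
          exact pow_le_pow_left₀ (by positivity) (h2.trans h1) _
        · rw [indicator_of_notMem hyv, ENNReal.zero_rpow_of_pos (by norm_num), mul_zero]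
          exact zero_le
      · rw [indicator_of_notMem hxu, ENNReal.zero_rpow_of_pos (by norm_num), zero_mul]
        exact zero_le)
  rw [key n n hn0, key (n + 2) (n + 2) (by positivity), key (n + 1) (n + 1) (by positivity)] at hpl
  have e : (1 - 1 / 2 : ℝ) = 1 / 2 := by norm_num
  rw [e] at hpl
  exact hpl

end Pool.Agent.V11317.NC
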