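import Pool.Agent.V11317.NC.Rev2

/-!
# Convex bodies over a convex body: moments of `g` and the decomposition of the variance
-/

set_option autoImplicit false

namespace Pool.Agent.V11317.NC

open MeasureTheory Set Filter Topology
open scoped ENNReal InnerProductSpace Pointwise
open Pool.Agent.W695.KH (Eu)

section general

variable {X Y : Type*} [MeasurableSpace X] [MeasurableSpace Y]

theorem second_moment_about {β : Measure Y} [IsProbabilityMeasure β] {f : Y → ℝ} (hf : MemLp f 2 β)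
    (c : ℝ) : ∫ y, (f y - c) ^ 2 ∂β = ProbabilityTheory.variance f β + (∫ y, f y ∂β - c) ^ 2 := by
  have hm : AEStronglyMeasurable f β := hf.aestronglyMeasurable
  have h1 : MemLp (fun y => f y - c) 2 β := hf.sub (memLp_const c)
  have h2 := ProbabilityTheory.variance_eq_sub h1
  have h3 : ProbabilityTheory.variance (fun y => f y - c) β = ProbabilityTheory.variance f β :=
    ProbabilityTheory.variance_sub_const hm c
  have hi : Integrable f β := hf.integrable (by norm_num)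
  have h4 : ∫ y, (f y - c) ∂β = ∫ y, f y ∂β - c := by
    rw [integral_sub hi (integrable_const c)]
    simp
  have h5 : ∫ y, ((fun y => f y - c) ^ 2) y ∂β = ∫ y, (f y - c) ^ 2 ∂β := rfl
  rw [h3, h5, h4] at h2
  linarith

theorem decomp (ν : Measure X) (β : Measure Y) [IsProbabilityMeasure ν] [IsProbabilityMeasure β]
    (F : X × Y → ℝ) (hF : Measurable F) (R : ℝ) (hb : ∀ᵐ p ∂(ν.prod β), |F p| ≤ R) (c : ℝ) :
    ∫ p, (F p - c) ^ 2 ∂(ν.prod β) = ∫ t, (ProbabilityTheory.variance (fun y => F (t, y)) β +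
      (∫ y, F (t, y) ∂β - c) ^ 2) ∂ν := by
  have hm : MemLp F 2 (ν.prod β) := MemLp.of_bound hF.aestronglyMeasurable R
    (hb.mono fun p hp => by rwa [Real.norm_eq_abs])
  have h1 : Integrable (fun p => (F p - c) ^ 2) (ν.prod β) := (hm.sub (memLp_const c)).integrable_sq
  rw [integral_prod _ h1]
  refine integral_congr_ae ?_
  filter_upwards [Measure.ae_ae_of_ae_prod hb] with t ht
  have h2 : MemLp (fun y => F (t, y)) 2 β :=
    MemLp.of_bound (hF.comp measurable_prodMk_left).aestronglyMeasurable R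
      (ht.mono fun y hy => by rwa [Real.norm_eq_abs])
  exact second_moment_about h2 c

end general

variable {ι ι' : Type} [Fintype ι] [Fintype ι']

theorem mean_pow (D : Set (Eu ι)) (g : Eu ι → ℝ) (hg : Measurable g) (hg0 : ∀ t, 0 ≤ g t) (n j : ℕ) :
    ∫ t, g t ^ j ∂(lawD D g n) = (mass D g (n + j)).toReal / (mass D g n).toReal := by
  rw [integral_eq_lintegral_of_nonneg_ae (Eventually.of_forall fun t => pow_nonneg (hg0 t) j)
    (by fun_prop), lintegral_lawD D g hg n _ (by fun_prop)]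
  have e : ∀ t, ENNReal.ofReal (|g t| ^ n) * ENNReal.ofReal (g t ^ j) =
      ENNReal.ofReal (|g t| ^ (n + j)) := fun t => by
    rw [← ENNReal.ofReal_mul (by positivity), abs_of_nonneg (hg0 t), pow_add]
  simp only [e]
  rw [ENNReal.toReal_mul, ENNReal.toReal_inv]
  unfold mass
  rw [mul_comm, div_eq_mul_inv]

/-- **The relative variance of `g`.** -/
theorem var_g (D : Set (Eu ι)) (hD : MeasurableSet D) (g : Eu ι → ℝ) (hg : Measurable g)
    (hg0 : ∀ t, 0 ≤ g t) (hc : ConcaveOn ℝ D g) (n : ℕ) (hn : 1 ≤ n)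
    (hfin : ∀ k, mass D g k ≠ ⊤) (hpos : mass D g n ≠ 0) :
    ∫ t, g t ^ 2 ∂(lawD D g n) - (∫ t, g t ∂(lawD D g n)) ^ 2 ≤
      Fintype.card ι / ((n : ℝ) + 1) ^ 2 * ∫ t, g t ^ 2 ∂(lawD D g n) := by
  have h1 := mean_pow D g hg hg0 n 1
  have h2 := mean_pow D g hg hg0 n 2
  simp only [pow_one] at h1
  rw [h1, h2]
  obtain ⟨A, hA⟩ : ∃ A : ℝ, A = (mass D g n).toReal := ⟨_, rfl⟩
  obtain ⟨B, hB⟩ : ∃ B : ℝ, B = (mass D g (n + 1)).toReal := ⟨_, rfl⟩
  obtain ⟨C, hC⟩ : ∃ C : ℝ, C = (mass D g (n + 2)).toReal := ⟨_, rfl⟩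
  have hA0 : 0 < A := by rw [hA]; exact ENNReal.toReal_pos hpos (hfin n)
  have hB0 : 0 ≤ B := by rw [hB]; exact ENNReal.toReal_nonneg
  have hC0 : 0 ≤ C := by rw [hC]; exact ENNReal.toReal_nonneg
  rw [← hA, ← hB, ← hC]
  have hn0 : (0 : ℝ) < n := by exact_mod_cast hn
  obtain ⟨m, hm⟩ : ∃ m : ℕ, m = Fintype.card ι := ⟨_, rfl⟩
  have hpl := mass_pl D hD g hg (fun t _ => hg0 t) hc n hn
  rw [← hm] at hpl ⊢
  have key : ((n : ℝ) ^ m * A) * (((n : ℝ) + 2) ^ m * C) ≤ (((n : ℝ) + 1) ^ m * B) ^ 2 := by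
    have h3 := ENNReal.toReal_mono (ENNReal.mul_ne_top ENNReal.ofReal_ne_top (hfin (n + 1))) hpl
    rw [ENNReal.toReal_mul, ← ENNReal.toReal_rpow, ← ENNReal.toReal_rpow, ENNReal.toReal_mul,
      ENNReal.toReal_mul, ENNReal.toReal_mul, ENNReal.toReal_ofReal (by positivity),
      ENNReal.toReal_ofReal (by positivity), ENNReal.toReal_ofReal (by positivity), ← hA, ← hB, ← hC,
      ← Real.sqrt_eq_rpow, ← Real.sqrt_eq_rpow] at h3
    have h4 := pow_le_pow_left₀ (by positivity) h3 2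
    rw [mul_pow, Real.sq_sqrt (by positivity), Real.sq_sqrt (by positivity)] at h4
    exact h4
  obtain ⟨x, hx⟩ : ∃ x : ℝ, x = 1 / ((n : ℝ) + 1) ^ 2 := ⟨_, rfl⟩
  have hx1 : x ≤ 1 := by
    rw [hx, div_le_one (by positivity)]
    nlinarith
  have hx0 : 0 < x := by rw [hx]; positivity
  have hber : 1 - m * x ≤ (1 - x) ^ m := by
    have := one_add_mul_le_pow (show (-2 : ℝ) ≤ -x by linarith) m
    have e : (1 + -x) = 1 - x := by ring
    rw [e] at this
    linarith
  have hq : (1 - x) ^ m * (A * C) ≤ B ^ 2 := by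
    have e1 : (n : ℝ) * (n + 2) = (1 - x) * (n + 1) ^ 2 := by
      rw [hx]; field_simp; ring
    have h3 : ((n : ℝ) ^ m * A) * (((n : ℝ) + 2) ^ m * C) =
        (1 - x) ^ m * (A * C) * (((n : ℝ) + 1) ^ m) ^ 2 := by
      have : ((n : ℝ) ^ m * A) * (((n : ℝ) + 2) ^ m * C) = ((n : ℝ) * (n + 2)) ^ m * (A * C) := by
        rw [mul_pow]; ring
      rw [this, e1, mul_pow, ← pow_mul, mul_comm 2 m, pow_mul]
      ring
    rw [h3, mul_pow, mul_comm ((((n : ℝ) + 1) ^ m) ^ 2)] at key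
    exact le_of_mul_le_mul_right key (by positivity)
  have h5 : (1 - m * x) * (A * C) ≤ B ^ 2 :=
    (mul_le_mul_of_nonneg_right hber (by positivity)).trans hq
  have e3 : (m : ℝ) / ((n : ℝ) + 1) ^ 2 = m * x := by rw [hx]; ring
  rw [e3, div_pow]
  have h6 : C / A - B ^ 2 / A ^ 2 ≤ m * x * (C / A) := by
    have h7 : (1 - m * x) * (C / A) ≤ B ^ 2 / A ^ 2 := by
      rw [le_div_iff₀ (by positivity)]
      calc (1 - m * x) * (C / A) * A ^ 2 = (1 - m * x) * (A * C) := by field_simp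
        _ ≤ B ^ 2 := h5
    linarith
  exact h6

end Pool.Agent.V11317.NC
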