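import Pool.Agent.V11317.NC.Rev3

/-!
# Convex bodies over a convex body: the inequality for Lipschitz functions
-/

set_option autoImplicit false

namespace Pool.Agent.V11317.NC

open MeasureTheory Set Filter Topology
open scoped ENNReal InnerProductSpace Pointwise
open Pool.Agent.W695.KH (Eu)
open Pool.Agent.V11298.KD (CovLe VarKLS)

section general

variable {X : Type*} [MeasurableSpace X] {E : Type*} [NormedAddCommGroup E] [InnerProductSpace ℝ E]
  [FiniteDimensional ℝ E] [MeasurableSpace E] [BorelSpace E]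

theorem memLp_bdd {ν : Measure X} [IsProbabilityMeasure ν] {u : X → ℝ} (hu : Measurable u) (R : ℝ)
    (hb : ∀ᵐ t ∂ν, |u t| ≤ R) : MemLp u 2 ν :=
  MemLp.of_bound hu.aestronglyMeasurable R (hb.mono fun p hp => by rwa [Real.norm_eq_abs])

theorem int_bdd {ν : Measure X} [IsProbabilityMeasure ν] {u : X → ℝ} (hu : Measurable u) (R : ℝ)
    (hb : ∀ᵐ t ∂ν, |u t| ≤ R) : Integrable u ν :=
  Integrable.of_bound hu.aestronglyMeasurable R (hb.mono fun p hp => by rwa [Real.norm_eq_abs])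

/-- the second moment of a vector around its mean -/
theorem second_moment_le (ν : Measure X) [IsProbabilityMeasure ν] (τ : X → E) (hτ : Measurable τ)
    (R : ℝ) (hb : ∀ᵐ t ∂ν, ‖τ t‖ ≤ R) (V : Submodule ℝ E) (p : E) (hV : ∀ᵐ t ∂ν, τ t - p ∈ V) (s : ℝ)
    (hs : ∀ e : E, ‖e‖ = 1 → ProbabilityTheory.variance (fun t => ⟪e, τ t⟫_ℝ) ν ≤ s) :
    ∫ t, ‖τ t - ∫ t', τ t' ∂ν‖ ^ 2 ∂ν ≤ Module.finrank ℝ V * s := by
  have hi : Integrable τ ν := Integrable.of_bound hτ.aestronglyMeasurable R hb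
  obtain ⟨q, hq⟩ : ∃ q : E, q = ∫ t', τ t' ∂ν := ⟨_, rfl⟩
  rw [← hq]
  have hqV : q - p ∈ V := by
    have h1 : ∫ t, (τ t - p) ∂ν = q - p := by
      rw [integral_sub hi (integrable_const p)]
      simp [hq]
    rw [← h1]
    exact Convex.integral_mem V.convex V.closed_of_finiteDimensional hV (hi.sub (integrable_const p))
  have hd : ∀ᵐ t ∂ν, τ t - q ∈ V := hV.mono fun t ht => by
    have : τ t - q = (τ t - p) - (q - p) := by abel
    rw [this]
    exact V.sub_mem ht hqV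
  set bs := stdOrthonormalBasis ℝ V with hbs
  have hsum : ∀ᵐ t ∂ν, ‖τ t - q‖ ^ 2 = ∑ i, (⟪(bs i : E), τ t⟫_ℝ - ⟪(bs i : E), q⟫_ℝ) ^ 2 := by
    filter_upwards [hd] with t ht
    have h1 := bs.sum_sq_norm_inner_right (⟨τ t - q, ht⟩ : V)
    have h2 : ‖(⟨τ t - q, ht⟩ : V)‖ = ‖τ t - q‖ := rfl
    rw [h2] at h1
    rw [← h1]
    refine Finset.sum_congr rfl fun i _ => ?_
    rw [Real.norm_eq_abs, sq_abs]
    congr 1
    rw [← inner_sub_right]
    rfl
  have hm : ∀ e : E, Measurable fun t => ⟪e, τ t⟫_ℝ := fun e =>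
    (continuous_const.inner continuous_id).measurable.comp hτ
  have hbd : ∀ e : E, ∀ᵐ t ∂ν, |⟪e, τ t⟫_ℝ| ≤ ‖e‖ * R := fun e => hb.mono fun t ht =>
    (abs_real_inner_le_norm _ _).trans (mul_le_mul_of_nonneg_left ht (norm_nonneg _))
  have hvar : ∀ i, ∫ t, (⟪(bs i : E), τ t⟫_ℝ - ⟪(bs i : E), q⟫_ℝ) ^ 2 ∂ν ≤ s := by
    intro i
    have h1 := second_moment_about (memLp_bdd (hm (bs i : E)) _ (hbd (bs i : E))) ⟪(bs i : E), q⟫_ℝ
    have h2 : ∫ t, ⟪(bs i : E), τ t⟫_ℝ ∂ν = ⟪(bs i : E), q⟫_ℝ := by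
      rw [hq]
      exact integral_inner hi (bs i : E)
    rw [h1, h2, sub_self]
    simp only [ne_eq, OfNat.ofNat_ne_zero, not_false_eq_true, zero_pow, add_zero]
    exact hs _ (by
      have := bs.orthonormal.1 i
      exact this)
  calc ∫ t, ‖τ t - q‖ ^ 2 ∂ν = ∫ t, ∑ i, (⟪(bs i : E), τ t⟫_ℝ - ⟪(bs i : E), q⟫_ℝ) ^ 2 ∂ν :=
        integral_congr_ae hsum
    _ = ∑ i, ∫ t, (⟪(bs i : E), τ t⟫_ℝ - ⟪(bs i : E), q⟫_ℝ) ^ 2 ∂ν := by
        refine integral_finsetSum _ fun i _ => ?_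
        exact ((memLp_bdd (hm _) _ (hbd _)).sub (memLp_const _)).integrable_sq
    _ ≤ ∑ i : Fin (Module.finrank ℝ V), s := Finset.sum_le_sum fun i _ => hvar i
    _ = Module.finrank ℝ V * s := by simp

end general

section main

variable {X : Type*} [MeasurableSpace X] {κ ι' : Type} [Fintype κ] [Fintype ι']

/-- the parametrisation -/
noncomputable def GG (τ : X → Eu κ) (g : X → ℝ) (J : Eu ι' →ₗᵢ[ℝ] Eu κ) (b : Eu ι') (z : X × Eu ι') :
    Eu κ := τ z.1 + g z.1 • J (z.2 - b)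

theorem GG_meas {τ : X → Eu κ} (hτ : Measurable τ) {g : X → ℝ} (hg : Measurable g)
    (J : Eu ι' →ₗᵢ[ℝ] Eu κ) (b : Eu ι') : Measurable (GG τ g J b) := by
  unfold GG
  exact (hτ.comp measurable_fst).add ((hg.comp measurable_fst).smul
    (J.continuous.measurable.comp (measurable_snd.sub_const b)))

theorem GG_bdd {ν : Measure X} [IsProbabilityMeasure ν] {β : Measure (Eu ι')} [IsProbabilityMeasure β]
    {τ : X → Eu κ} {g : X → ℝ} (J : Eu ι' →ₗᵢ[ℝ] Eu κ) (b : Eu ι') {R : ℝ} (hR : 0 ≤ R)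
    (hτR : ∀ᵐ t ∂ν, ‖τ t‖ ≤ R) (hgR : ∀ᵐ t ∂ν, |g t| ≤ R) (hyR : ∀ᵐ y ∂β, ‖y‖ ≤ R) :
    ∀ᵐ z ∂(ν.prod β), ‖GG τ g J b z‖ ≤ R + R * (R + ‖b‖) := by
  filter_upwards [Measure.quasiMeasurePreserving_fst.ae hτR, Measure.quasiMeasurePreserving_fst.ae hgR,
    Measure.quasiMeasurePreserving_snd.ae hyR] with z h1 h2 h3
  unfold GG
  refine (norm_add_le _ _).trans (add_le_add h1 ?_)
  rw [norm_smul, Real.norm_eq_abs, J.norm_map]
  exact mul_le_mul h2 ((norm_sub_le _ _).trans (by linarith)) (norm_nonneg _) hR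

theorem lin_part (ν : Measure X) [IsProbabilityMeasure ν] (β : Measure (Eu ι')) [IsProbabilityMeasure β]
    (τ : X → Eu κ) (hτ : Measurable τ) (g : X → ℝ) (hg : Measurable g)
    (J : Eu ι' →ₗᵢ[ℝ] Eu κ) (b : Eu ι') (R : ℝ) (hR : 0 ≤ R)
    (hτR : ∀ᵐ t ∂ν, ‖τ t‖ ≤ R) (hgR : ∀ᵐ t ∂ν, |g t| ≤ R) (hyR : ∀ᵐ y ∂β, ‖y‖ ≤ R)
    (hbar : ∫ y, y ∂β = b) (θ : Eu κ) :
    ProbabilityTheory.variance (fun t => ⟪θ, τ t⟫_ℝ) ν +
      (∫ t, g t ^ 2 ∂ν) * ProbabilityTheory.variance (fun y => ⟪θ, J y⟫_ℝ) β ≤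
    ProbabilityTheory.variance (fun z => ⟪θ, GG τ g J b z⟫_ℝ) (ν.prod β) := by
  have hGm := GG_meas hτ hg J b
  have hGb := GG_bdd (β := β) J b hR hτR hgR hyR
  have hFm : Measurable fun z => ⟪θ, GG τ g J b z⟫_ℝ :=
    (continuous_const.inner continuous_id).measurable.comp hGm
  have hFb : ∀ᵐ z ∂(ν.prod β), |⟪θ, GG τ g J b z⟫_ℝ| ≤ ‖θ‖ * (R + R * (R + ‖b‖)) :=
    hGb.mono fun t ht => (abs_real_inner_le_norm _ _).trans
      (mul_le_mul_of_nonneg_left ht (norm_nonneg _))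
  obtain ⟨c, hc⟩ : ∃ c : ℝ, c = ∫ z, ⟪θ, GG τ g J b z⟫_ℝ ∂(ν.prod β) := ⟨_, rfl⟩
  have h1 := second_moment_about (memLp_bdd hFm _ hFb) c
  rw [← hc, sub_self] at h1
  simp only [ne_eq, OfNat.ofNat_ne_zero, not_false_eq_true, zero_pow, add_zero] at h1
  rw [← h1, decomp ν β _ hFm _ hFb c]
  -- the functions of `y`
  have hwm : Measurable fun y : Eu ι' => ⟪θ, J y⟫_ℝ :=
    (continuous_const.inner J.continuous).measurable
  have hwb : ∀ᵐ y ∂β, |⟪θ, J y⟫_ℝ| ≤ ‖θ‖ * R := hyR.mono fun y hy =>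
    (abs_real_inner_le_norm _ _).trans (mul_le_mul_of_nonneg_left (by rwa [J.norm_map])
      (norm_nonneg _))
  have hyi : Integrable (fun y : Eu ι' => y) β :=
    Integrable.of_bound measurable_id.aestronglyMeasurable R hyR
  have hwi : Integrable (fun y : Eu ι' => ⟪θ, J y⟫_ℝ) β := int_bdd hwm _ hwb
  have hwmean : ∫ y, ⟪θ, J y⟫_ℝ ∂β = ⟪θ, J b⟫_ℝ := by
    have h2 := ((innerSL ℝ θ).comp J.toContinuousLinearMap).integral_comp_comm hyi
    rw [hbar] at h2
    exact h2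
  have hmean : ∀ t, ∫ y, ⟪θ, GG τ g J b (t, y)⟫_ℝ ∂β = ⟪θ, τ t⟫_ℝ := by
    intro t
    have e1 : ∀ y, ⟪θ, GG τ g J b (t, y)⟫_ℝ = ⟪θ, τ t⟫_ℝ + g t * (⟪θ, J y⟫_ℝ - ⟪θ, J b⟫_ℝ) := by
      intro y
      unfold GG
      rw [inner_add_right, real_inner_smul_right, map_sub, inner_sub_right]
    simp only [e1]
    have hA : Integrable (fun y => g t * (⟪θ, J y⟫_ℝ - ⟪θ, J b⟫_ℝ)) β :=
      (hwi.sub (integrable_const _)).const_mul _
    rw [integral_add (integrable_const _) hA,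
      integral_const_mul, integral_sub hwi (integrable_const _), hwmean]
    simp
  have hvar : ∀ t, ProbabilityTheory.variance (fun y => ⟪θ, GG τ g J b (t, y)⟫_ℝ) β =
      g t ^ 2 * ProbabilityTheory.variance (fun y => ⟪θ, J y⟫_ℝ) β := by
    intro t
    have e1 : (fun y => ⟪θ, GG τ g J b (t, y)⟫_ℝ) =
        fun y => (g t * ⟪θ, J y⟫_ℝ) - (g t * ⟪θ, J b⟫_ℝ - ⟪θ, τ t⟫_ℝ) := by
      funext y
      unfold GG
      rw [inner_add_right, real_inner_smul_right, map_sub, inner_sub_right]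
      ring
    rw [e1, ProbabilityTheory.variance_sub_const (hwm.const_mul _).aestronglyMeasurable,
      ProbabilityTheory.variance_const_mul]
  simp only [hmean, hvar]
  have hum : Measurable fun t => ⟪θ, τ t⟫_ℝ := (continuous_const.inner continuous_id).measurable.comp hτ
  have hub : ∀ᵐ t ∂ν, |⟪θ, τ t⟫_ℝ| ≤ ‖θ‖ * R := hτR.mono fun t ht =>
    (abs_real_inner_le_norm _ _).trans (mul_le_mul_of_nonneg_left ht (norm_nonneg _))
  have hul := memLp_bdd hum _ hub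
  have hgl := memLp_bdd hg _ hgR
  have hB : Integrable (fun t => (⟪θ, τ t⟫_ℝ - c) ^ 2) ν := (hul.sub (memLp_const c)).integrable_sq
  rw [integral_add (hgl.integrable_sq.mul_const _) hB,
    integral_mul_const, second_moment_about hul c]
  nlinarith [sq_nonneg (∫ t, ⟪θ, τ t⟫_ℝ ∂ν - c)]

theorem lip_of {f : Eu κ → ℝ} (hf : ContDiff ℝ 1 f) (hf1 : ∀ x, ‖fderiv ℝ f x‖ ≤ 1) (x y : Eu κ) :
    |f x - f y| ≤ ‖x - y‖ := by
  have h1 := Convex.norm_image_sub_le_of_norm_fderiv_le (𝕜 := ℝ) (f := f) (C := 1) (s := univ)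
    (fun z _ => hf.differentiable one_ne_zero z) (fun z _ => hf1 z) convex_univ (mem_univ y) (mem_univ x)
  rwa [one_mul] at h1

theorem lip_part (ν : Measure X) [IsProbabilityMeasure ν] (β : Measure (Eu ι')) [IsProbabilityMeasure β]
    (τ : X → Eu κ) (hτ : Measurable τ) (g : X → ℝ) (hg : Measurable g) (hg0 : ∀ t, 0 ≤ g t)
    (J : Eu ι' →ₗᵢ[ℝ] Eu κ) (b : Eu ι') (R : ℝ) (hR : 0 ≤ R)
    (hτR : ∀ᵐ t ∂ν, ‖τ t‖ ≤ R) (hgR : ∀ᵐ t ∂ν, |g t| ≤ R) (hyR : ∀ᵐ y ∂β, ‖y‖ ≤ R)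
    (k : ℝ) (hk : VarKLS β k) (s : ℝ) (hs : 0 < s) (hE : 0 < ∫ t, g t ^ 2 ∂ν)
    (hcov : CovLe β (s / ∫ t, g t ^ 2 ∂ν)) (n r δ : ℝ) (hn : 0 ≤ n) (hδ : 0 ≤ δ)
    (hM2 : ∫ y, ‖y - b‖ ^ 2 ∂β ≤ n * (s / ∫ t, g t ^ 2 ∂ν))
    (hτ2 : ∫ t, ‖τ t - ∫ t', τ t' ∂ν‖ ^ 2 ∂ν ≤ r * s)
    (hvg : ∫ t, g t ^ 2 ∂ν - (∫ t, g t ∂ν) ^ 2 ≤ δ * ∫ t, g t ^ 2 ∂ν)
    (f : Eu κ → ℝ) (hf : ContDiff ℝ 1 f) (hf1 : ∀ x, ‖fderiv ℝ f x‖ ≤ 1) :
    ProbabilityTheory.variance (fun z => f (GG τ g J b z)) (ν.prod β) ≤ (k + 2 * r + 2 * n * δ) * s := by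
  have hlip := lip_of hf hf1
  have hGm := GG_meas hτ hg J b
  have hGb := GG_bdd (β := β) J b hR hτR hgR hyR
  have hFm : Measurable fun z => f (GG τ g J b z) := hf.continuous.measurable.comp hGm
  have hFb : ∀ᵐ z ∂(ν.prod β), |f (GG τ g J b z)| ≤ |f 0| + (R + R * (R + ‖b‖)) :=
    hGb.mono fun z hz => by
      have h1 := hlip (GG τ g J b z) 0
      rw [sub_zero] at h1
      have h2 : |f (GG τ g J b z)| ≤ |f 0| + |f (GG τ g J b z) - f 0| := by
        have := abs_add_le (f 0) (f (GG τ g J b z) - f 0)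
        rwa [add_sub_cancel] at this
      linarith
  obtain ⟨A, hA⟩ : ∃ A : ℝ, A = ∫ t, g t ^ 2 ∂ν := ⟨_, rfl⟩
  rw [← hA] at hE hcov hM2 hvg
  obtain ⟨q, hq⟩ : ∃ q : Eu κ, q = ∫ t', τ t' ∂ν := ⟨_, rfl⟩
  obtain ⟨h, hh⟩ : ∃ h : ℝ, h = ∫ t, g t ∂ν := ⟨_, rfl⟩
  rw [← hq] at hτ2
  rw [← hh] at hvg
  obtain ⟨M, hM⟩ : ∃ M : ℝ, M = ∫ y, ‖y - b‖ ^ 2 ∂β := ⟨_, rfl⟩
  rw [← hM] at hM2
  obtain ⟨c0, hc0⟩ : ∃ c0 : ℝ, c0 = ∫ y, f (q + h • J (y - b)) ∂β := ⟨_, rfl⟩
  have hsA : 0 < s / A := div_pos hs hE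
  -- bounded functions of `y`
  have hbd : ∀ (x : Eu κ) (c : ℝ), Integrable (fun y => f (x + c • J (y - b))) β ∧
      Measurable (fun y => f (x + c • J (y - b))) ∧
      ∀ᵐ y ∂β, |f (x + c • J (y - b))| ≤ |f 0| + (‖x‖ + |c| * (R + ‖b‖)) := by
    intro x c
    have hm : Measurable (fun y => f (x + c • J (y - b))) := by
      have : Continuous fun y => f (x + c • J (y - b)) := by
        exact hf.continuous.comp (continuous_const.add
          ((J.continuous.comp (continuous_id.sub continuous_const)).const_smul c))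
      exact this.measurable
    have hb' : ∀ᵐ y ∂β, |f (x + c • J (y - b))| ≤ |f 0| + (‖x‖ + |c| * (R + ‖b‖)) := by
      filter_upwards [hyR] with y hy
      have h1 := hlip (x + c • J (y - b)) 0
      rw [sub_zero] at h1
      have h2 : |f (x + c • J (y - b))| ≤ |f 0| + |f (x + c • J (y - b)) - f 0| := by
        have := abs_add_le (f 0) (f (x + c • J (y - b)) - f 0)
        rwa [add_sub_cancel] at this
      have h3 : ‖x + c • J (y - b)‖ ≤ ‖x‖ + |c| * (R + ‖b‖) := by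
        refine (norm_add_le _ _).trans (add_le_add le_rfl ?_)
        rw [norm_smul, Real.norm_eq_abs, J.norm_map]
        exact mul_le_mul_of_nonneg_left ((norm_sub_le _ _).trans (by linarith)) (abs_nonneg _)
      linarith
    exact ⟨int_bdd hm _ hb', hm, hb'⟩
  -- the conditional variance
  have hcv : ∀ t, ProbabilityTheory.variance (fun y => f (GG τ g J b (t, y))) β ≤
      g t ^ 2 * (k * (s / A)) := by
    intro t
    have e0 : (fun y => f (GG τ g J b (t, y))) = fun y => f (τ t + g t • J (y - b)) := rfl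
    rw [e0]
    rcases (hg0 t).eq_or_lt with h0 | h0
    · rw [← h0]
      simp only [zero_smul, add_zero, ne_eq, OfNat.ofNat_ne_zero, not_false_eq_true, zero_pow, zero_mul]
      have : ProbabilityTheory.variance (fun _ : Eu ι' => f (τ t)) β = 0 := by
        rw [ProbabilityTheory.variance_eq_sub (memLp_const _)]
        simp
      rw [this]
    · obtain ⟨u, hu⟩ : ∃ u : Eu ι' → ℝ, u = fun y => (g t)⁻¹ * f (τ t + g t • J (y - b)) := ⟨_, rfl⟩
      have hin : ContDiff ℝ 1 fun y : Eu ι' => τ t + g t • J (y - b) :=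
        contDiff_const.add ((J.toContinuousLinearMap.contDiff.comp
          (contDiff_id.sub contDiff_const)).const_smul (g t))
      have huc : ContDiff ℝ 1 u := by
        rw [hu]
        exact contDiff_const.mul (hf.comp hin)
      have hul : ∀ y z, |u y - u z| ≤ ‖y - z‖ := by
        intro y z
        rw [hu]
        simp only
        rw [← mul_sub, abs_mul, abs_of_pos (inv_pos.2 h0)]
        have h1 := hlip (τ t + g t • J (y - b)) (τ t + g t • J (z - b))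
        have h2 : (τ t + g t • J (y - b)) - (τ t + g t • J (z - b)) = g t • J (y - z) := by
          rw [add_sub_add_left_eq_sub, ← smul_sub, ← map_sub]
          congr 2
          abel
        rw [h2, norm_smul, Real.norm_eq_abs, abs_of_pos h0, J.norm_map] at h1
        calc (g t)⁻¹ * |f (τ t + g t • J (y - b)) - f (τ t + g t • J (z - b))|
            ≤ (g t)⁻¹ * (g t * ‖y - z‖) := mul_le_mul_of_nonneg_left h1 (inv_pos.2 h0).le
          _ = ‖y - z‖ := by rw [← mul_assoc, inv_mul_cancel₀ h0.ne', one_mul]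
      have hud : ∀ y, ‖fderiv ℝ u y‖ ≤ 1 := by
        intro y
        have hL : LipschitzWith 1 u := LipschitzWith.of_dist_le_mul fun y z => by
          rw [Real.dist_eq, dist_eq_norm, NNReal.coe_one, one_mul]
          exact hul y z
        have := norm_fderiv_le_of_lipschitz ℝ (x₀ := y) hL
        simpa using this
      have h3 := (hk (s / A) hsA hcov u huc hud).2
      have e1 : (fun y => f (τ t + g t • J (y - b))) = fun y => g t * u y := by
        funext y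
        rw [hu]
        simp only
        rw [← mul_assoc, mul_inv_cancel₀ h0.ne', one_mul]
      rw [e1, ProbabilityTheory.variance_const_mul]
      exact mul_le_mul_of_nonneg_left h3 (sq_nonneg _)
  -- the conditional mean
  have hnb : Integrable (fun y => ‖y - b‖ ^ 2) β := by
    refine Integrable.of_bound (by fun_prop) ((R + ‖b‖) ^ 2) ?_
    filter_upwards [hyR] with y hy
    rw [Real.norm_eq_abs, abs_of_nonneg (by positivity)]
    exact pow_le_pow_left₀ (norm_nonneg _) ((norm_sub_le _ _).trans (by linarith)) 2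
  have hcm : ∀ t, (∫ y, f (GG τ g J b (t, y)) ∂β - c0) ^ 2 ≤
      2 * ‖τ t - q‖ ^ 2 + 2 * (g t - h) ^ 2 * M := by
    intro t
    obtain ⟨h1, h1m, h1b⟩ := hbd (τ t) (g t)
    obtain ⟨h2, h2m, h2b⟩ := hbd q h
    have e1 : ∫ y, f (GG τ g J b (t, y)) ∂β - c0 =
        ∫ y, (f (τ t + g t • J (y - b)) - f (q + h • J (y - b))) ∂β := by
      rw [integral_sub h1 h2, hc0]
      rfl
    obtain ⟨D, hD⟩ : ∃ D : Eu ι' → ℝ, D = fun y => f (τ t + g t • J (y - b)) -
      f (q + h • J (y - b)) := ⟨_, rfl⟩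
    have hDm : Measurable D := by rw [hD]; exact h1m.sub h2m
    have hDb : ∀ᵐ y ∂β, |D y| ≤ (|f 0| + (‖τ t‖ + |g t| * (R + ‖b‖))) +
        (|f 0| + (‖q‖ + |h| * (R + ‖b‖))) := by
      filter_upwards [h1b, h2b] with y ha hb
      rw [hD]
      exact (abs_sub _ _).trans (add_le_add ha hb)
    have hDl := memLp_bdd hDm _ hDb
    have e2 : (∫ y, D y ∂β) ^ 2 ≤ ∫ y, D y ^ 2 ∂β := by
      have h3 := second_moment_about hDl 0
      have h4 := ProbabilityTheory.variance_nonneg D β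
      simp only [sub_zero] at h3
      rw [h3]
      linarith
    have e3 : (∫ y, (f (τ t + g t • J (y - b)) - f (q + h • J (y - b))) ∂β) = ∫ y, D y ∂β := by
      rw [hD]
    rw [e1, e3]
    refine e2.trans ?_
    have e4 : ∀ y, D y ^ 2 ≤ 2 * ‖τ t - q‖ ^ 2 + 2 * (g t - h) ^ 2 * ‖y - b‖ ^ 2 := by
      intro y
      have h5 : |D y| ≤ ‖τ t - q‖ + |g t - h| * ‖y - b‖ := by
        rw [hD]
        refine (hlip _ _).trans ?_
        have h6 : (τ t + g t • J (y - b)) - (q + h • J (y - b)) = (τ t - q) + (g t - h) • J (y - b) := by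
          rw [sub_smul]
          abel
        rw [h6]
        refine (norm_add_le _ _).trans (le_of_eq ?_)
        rw [norm_smul, Real.norm_eq_abs, J.norm_map]
      have h7 : D y ^ 2 ≤ (‖τ t - q‖ + |g t - h| * ‖y - b‖) ^ 2 := by
        rw [← sq_abs (D y)]
        exact pow_le_pow_left₀ (abs_nonneg _) h5 2
      have h8 : (|g t - h| * ‖y - b‖) ^ 2 = (g t - h) ^ 2 * ‖y - b‖ ^ 2 := by
        rw [mul_pow, sq_abs]
      nlinarith [sq_nonneg (‖τ t - q‖ - |g t - h| * ‖y - b‖)]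
    calc ∫ y, D y ^ 2 ∂β ≤ ∫ y, (2 * ‖τ t - q‖ ^ 2 + 2 * (g t - h) ^ 2 * ‖y - b‖ ^ 2) ∂β :=
          integral_mono hDl.integrable_sq ((integrable_const _).add (hnb.const_mul _)) e4
      _ = 2 * ‖τ t - q‖ ^ 2 + 2 * (g t - h) ^ 2 * M := by
          rw [integral_add (integrable_const _) (hnb.const_mul _),
            integral_const_mul (2 * (g t - h) ^ 2), hM]
          simp
  -- integration over `t`
  have hstep : ProbabilityTheory.variance (fun z => f (GG τ g J b z)) (ν.prod β) ≤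
      ∫ t, (ProbabilityTheory.variance (fun y => f (GG τ g J b (t, y))) β +
        (∫ y, f (GG τ g J b (t, y)) ∂β - c0) ^ 2) ∂ν := by
    rw [← decomp ν β _ hFm _ hFb c0, second_moment_about (memLp_bdd hFm _ hFb) c0]
    linarith [sq_nonneg (∫ z, f (GG τ g J b z) ∂(ν.prod β) - c0)]
  refine hstep.trans ?_
  have hgl := memLp_bdd hg _ hgR
  have hτi : Integrable (fun t => ‖τ t - q‖ ^ 2) ν := by
    refine Integrable.of_bound (by fun_prop) ((R + ‖q‖) ^ 2) ?_
    filter_upwards [hτR] with t ht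
    rw [Real.norm_eq_abs, abs_of_nonneg (by positivity)]
    exact pow_le_pow_left₀ (norm_nonneg _) ((norm_sub_le _ _).trans (by linarith)) 2
  have hgi : Integrable (fun t => (g t - h) ^ 2) ν := (hgl.sub (memLp_const h)).integrable_sq
  have hgh : ∫ t, (g t - h) ^ 2 ∂ν = A - h ^ 2 := by
    rw [second_moment_about hgl h, ← hh, sub_self, ProbabilityTheory.variance_eq_sub hgl, hA, hh]
    simp only [Pi.pow_apply]
    ring
  have hM0 : 0 ≤ M := by
    rw [hM]
    exact integral_nonneg fun y => sq_nonneg _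
  have hAh : 0 ≤ A - h ^ 2 := by
    rw [← hgh]
    exact integral_nonneg fun y => sq_nonneg _
  calc ∫ t, (ProbabilityTheory.variance (fun y => f (GG τ g J b (t, y))) β +
        (∫ y, f (GG τ g J b (t, y)) ∂β - c0) ^ 2) ∂ν
      ≤ ∫ t, (g t ^ 2 * (k * (s / A)) + (2 * ‖τ t - q‖ ^ 2 + 2 * (g t - h) ^ 2 * M)) ∂ν := by
        refine integral_mono_of_nonneg (Eventually.of_forall fun t => ?_) ?_
          (Eventually.of_forall fun t => add_le_add (hcv t) (hcm t))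
        · exact add_nonneg (ProbabilityTheory.variance_nonneg _ _) (sq_nonneg _)
        · exact (hgl.integrable_sq.mul_const _).add ((hτi.const_mul _).add
            ((hgi.const_mul 2).mul_const M))
    _ = A * (k * (s / A)) + (2 * ∫ t, ‖τ t - q‖ ^ 2 ∂ν + 2 * (A - h ^ 2) * M) := by
        have hi1 : Integrable (fun t => g t ^ 2 * (k * (s / A))) ν := hgl.integrable_sq.mul_const _
        have hi2 : Integrable (fun t => 2 * ‖τ t - q‖ ^ 2) ν := hτi.const_mul _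
        have hi3 : Integrable (fun t => 2 * (g t - h) ^ 2 * M) ν := (hgi.const_mul 2).mul_const M
        have hi4 : Integrable (fun t => 2 * ‖τ t - q‖ ^ 2 + 2 * (g t - h) ^ 2 * M) ν := hi2.add hi3
        rw [integral_add hi1 hi4, integral_add hi2 hi3, integral_mul_const, integral_const_mul,
            integral_mul_const, integral_const_mul, hgh, hA]
    _ ≤ k * s + (2 * (r * s) + 2 * (δ * A) * (n * (s / A))) := by
        have h1 : A * (k * (s / A)) = k * s := by field_simp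
        have h2 : 2 * (A - h ^ 2) * M ≤ 2 * (δ * A) * (n * (s / A)) := by
          have h3 : 0 ≤ δ * A := mul_nonneg hδ hE.le
          exact mul_le_mul (by linarith) hM2 hM0 (by linarith)
        linarith
    _ = (k + 2 * r + 2 * n * δ) * s := by
        field_simp
        ring

end main

end Pool.Agent.V11317.NC
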