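import Pool.Agent.V11317.NC.Rev4

/-!
# Convex bodies over a convex body: the inequality for Lipschitz functions, second part
-/

set_option autoImplicit false

namespace Pool.Agent.V11317.NC

open MeasureTheory Set Filter Topology
open scoped ENNReal InnerProductSpace Pointwise
open Pool.Agent.W695.KH (Eu)
open Pool.Agent.V11298.KD (CovLe VarKLS)

variable {X : Type*} [MeasurableSpace X] {κ ι' : Type} [Fintype κ] [Fintype ι']

theorem tower_abs (ν : Measure X) [IsProbabilityMeasure ν] (β : Measure (Eu ι')) [IsProbabilityMeasure β]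
    (τ : X → Eu κ) (hτ : Measurable τ) (g : X → ℝ) (hg : Measurable g) (hg0 : ∀ t, 0 ≤ g t)
    (J : Eu ι' →ₗᵢ[ℝ] Eu κ) (b : Eu ι') (hbar : ∫ y, y ∂β = b) (R : ℝ) (hR : 0 ≤ R)
    (hτR : ∀ᵐ t ∂ν, ‖τ t‖ ≤ R) (hgR : ∀ᵐ t ∂ν, |g t| ≤ R) (hyR : ∀ᵐ y ∂β, ‖y‖ ≤ R)
    (k : ℝ) (hk : VarKLS β k) (hE : 0 < ∫ t, g t ^ 2 ∂ν)
    (V : Submodule ℝ (Eu κ)) (p : Eu κ) (hV : ∀ᵐ t ∂ν, τ t - p ∈ V)
    (δ : ℝ) (hδ : 0 ≤ δ)
    (hvg : ∫ t, g t ^ 2 ∂ν - (∫ t, g t ∂ν) ^ 2 ≤ δ * ∫ t, g t ^ 2 ∂ν) :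
    VarKLS (Measure.map (GG τ g J b) (ν.prod β))
      (k + 2 * Module.finrank ℝ V + 2 * Fintype.card ι' * δ) := by
  intro s hs hcov f hf hf1
  have hGm := GG_meas hτ hg J b
  have hGb := GG_bdd (β := β) J b hR hτR hgR hyR
  have hbm : ∀ {u : Eu κ → ℝ}, Measurable u → ProbabilityTheory.variance u
      (Measure.map (GG τ g J b) (ν.prod β)) =
      ProbabilityTheory.variance (fun z => u (GG τ g J b z)) (ν.prod β) := fun {u} hu =>
    ProbabilityTheory.variance_map hu.aemeasurable hGm.aemeasurable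
  obtain ⟨A, hA⟩ : ∃ A : ℝ, A = ∫ t, g t ^ 2 ∂ν := ⟨_, rfl⟩
  have hlin : ∀ θ : Eu κ, ProbabilityTheory.variance (fun t => ⟪θ, τ t⟫_ℝ) ν +
      A * ProbabilityTheory.variance (fun y => ⟪θ, J y⟫_ℝ) β ≤ s * ‖θ‖ ^ 2 := by
    intro θ
    have h1 := lin_part ν β τ hτ g hg J b R hR hτR hgR hyR hbar θ
    rw [← hA] at h1
    refine h1.trans ?_
    have h2 := hcov θ
    have h3 : ProbabilityTheory.variance (fun x : Eu κ => ⟪θ, x⟫_ℝ)
        (Measure.map (GG τ g J b) (ν.prod β)) ≤ s * ‖θ‖ ^ 2 := by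
      unfold ProbabilityTheory.variance
      exact ENNReal.toReal_le_of_le_ofReal (by positivity) h2
    rw [hbm (by fun_prop)] at h3
    exact h3
  have hτs : ∀ e : Eu κ, ‖e‖ = 1 → ProbabilityTheory.variance (fun t => ⟪e, τ t⟫_ℝ) ν ≤ s := by
    intro e he
    have h1 := hlin e
    rw [he] at h1
    have h2 : 0 ≤ A * ProbabilityTheory.variance (fun y => ⟪e, J y⟫_ℝ) β :=
      mul_nonneg (hA ▸ hE.le) (ProbabilityTheory.variance_nonneg _ _)
    linarith
  have hA0 : 0 < A := hA ▸ hE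
  have hβ : ∀ φ : Eu ι', ProbabilityTheory.variance (fun y : Eu ι' => ⟪φ, y⟫_ℝ) β ≤
      s / A * ‖φ‖ ^ 2 := by
    intro φ
    have h1 := hlin (J φ)
    have h2 := ProbabilityTheory.variance_nonneg (fun t => ⟪J φ, τ t⟫_ℝ) ν
    simp only [J.inner_map_map, J.norm_map] at h1
    rw [div_mul_eq_mul_div, le_div_iff₀ hA0]
    linarith
  have hcovβ : CovLe β (s / A) := by
    intro φ
    have hm : MemLp (fun y : Eu ι' => ⟪φ, y⟫_ℝ) 2 β :=
      memLp_bdd (by fun_prop) (‖φ‖ * R) (hyR.mono fun y hy =>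
        (abs_real_inner_le_norm _ _).trans (mul_le_mul_of_nonneg_left hy (norm_nonneg _)))
    rw [← hm.ofReal_variance_eq]
    exact ENNReal.ofReal_le_ofReal (hβ φ)
  have hM2 : ∫ y, ‖y - b‖ ^ 2 ∂β ≤ Fintype.card ι' * (s / A) := by
    have h1 := second_moment_le β (fun y : Eu ι' => y) measurable_id R hyR ⊤ 0
      (Eventually.of_forall fun y => Submodule.mem_top) (s / A) (fun e he => by
        have := hβ e
        rw [he] at this
        linarith)
    rw [hbar] at h1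
    rw [finrank_top, finrank_euclideanSpace] at h1
    exact h1
  have hτ2 := second_moment_le ν τ hτ R hτR V p hV s hτs
  have hfm : MemLp f 2 (Measure.map (GG τ g J b) (ν.prod β)) := by
    have hb' : ∀ᵐ x ∂(Measure.map (GG τ g J b) (ν.prod β)), ‖x‖ ≤ R + R * (R + ‖b‖) := by
      rw [ae_map_iff hGm.aemeasurable (measurableSet_le (by fun_prop) (by fun_prop))]
      exact hGb
    have : IsProbabilityMeasure (Measure.map (GG τ g J b) (ν.prod β)) :=
      Measure.isProbabilityMeasure_map hGm.aemeasurable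
    refine memLp_bdd hf.continuous.measurable (|f 0| + (R + R * (R + ‖b‖))) (hb'.mono fun x hx => ?_)
    have h1 := lip_of hf hf1 x 0
    rw [sub_zero] at h1
    have h2 : |f x| ≤ |f 0| + |f x - f 0| := by
      have := abs_add_le (f 0) (f x - f 0)
      rwa [add_sub_cancel] at this
    linarith
  refine ⟨hfm, ?_⟩
  rw [hbm hf.continuous.measurable]
  rw [hA] at hcovβ hM2
  exact lip_part ν β τ hτ g hg hg0 J b R hR hτR hgR hyR k hk s hs hE hcovβ (Fintype.card ι')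
    (Module.finrank ℝ V) δ (by positivity) hδ hM2 hτ2 hvg f hf hf1

end Pool.Agent.V11317.NC
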