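import Pool.Agent.V11317.NC.Rev5

/-!
# Convex bodies over a convex body: the theorem
-/

set_option autoImplicit false

namespace Pool.Agent.V11317.NC

open MeasureTheory Set Filter Topology
open scoped ENNReal InnerProductSpace Pointwise
open Pool.Agent.W695.KH (Eu)
open Pool.Agent.V11298.KD (CovLe VarKLS)

variable {ι ι' : Type} [Fintype ι] [Fintype ι']

/-- the second component as a linear isometry -/
noncomputable def inr' : Eu ι' →ₗᵢ[ℝ] Eu (ι ⊕ ι') where
  toFun v := jn (0, v)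
  map_add' x y := by
    rw [← jn_add]
    simp
  map_smul' r x := by
    rw [RingHom.id_apply, ← jn_smul]
    simp
  norm_map' x := by
    have h1 := norm_jn ((0 : Eu ι), x)
    simp only [norm_zero, ne_eq, OfNat.ofNat_ne_zero, not_false_eq_true, zero_pow, zero_add] at h1
    exact (sq_eq_sq₀ (norm_nonneg _) (norm_nonneg _)).1 h1

theorem inr'_apply (v : Eu ι') : inr' (ι := ι) v = jn (0, v) := rfl

theorem pr_eq (a : Eu ι → Eu ι') (g : Eu ι → ℝ) (b : Eu ι') :
    pr a g b = GG (fun t => jn (t, a t)) g inr' b := by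
  funext z
  unfold pr GG
  rw [inr'_apply, ← jn_smul, ← jn_add]
  simp

theorem lft_cont : Continuous (lft : Eu (ι ⊕ ι') → Eu ι) := by
  unfold lft
  refine (PiLp.continuous_toLp 2 _).comp (continuous_pi fun i => ?_)
  fun_prop

theorem norm_lft_le (z : Eu (ι ⊕ ι')) : ‖lft z‖ ≤ ‖z‖ := by
  have h := norm_jn (lft z, rgt z)
  rw [jn_lr] at h
  have h2 : ‖lft z‖ ^ 2 ≤ ‖z‖ ^ 2 := by
    rw [h]
    nlinarith [sq_nonneg ‖rgt z‖]
  exact (sq_le_sq₀ (norm_nonneg _) (norm_nonneg _)).1 h2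

theorem norm_rgt_le (z : Eu (ι ⊕ ι')) : ‖rgt z‖ ≤ ‖z‖ := by
  have h := norm_jn (lft z, rgt z)
  rw [jn_lr] at h
  have h2 : ‖rgt z‖ ^ 2 ≤ ‖z‖ ^ 2 := by
    rw [h]
    nlinarith [sq_nonneg ‖lft z‖]
  exact (sq_le_sq₀ (norm_nonneg _) (norm_nonneg _)).1 h2

theorem lawD_ac (D : Set (Eu ι)) (g : Eu ι → ℝ) (n : ℕ) : lawD D g n ≪ volume.restrict D := by
  unfold lawD
  exact Measure.smul_absolutelyContinuous.trans (withDensity_absolutelyContinuous _ _)

theorem VarKLS_mono {κ : Type} [Fintype κ] {ν : Measure (Eu κ)} {k k' : ℝ} (h : k ≤ k')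
    (hk : VarKLS ν k) : VarKLS ν k' := by
  intro s hs hcov f hf hf1
  obtain ⟨h1, h2⟩ := hk s hs hcov f hf hf1
  exact ⟨h1, h2.trans (mul_le_mul_of_nonneg_right h hs.le)⟩

theorem finrank_sup_span_le (V : Submodule ℝ (Eu (ι ⊕ ι'))) (v : Eu (ι ⊕ ι')) :
    (Module.finrank ℝ (V ⊔ Submodule.span ℝ {v} : Submodule ℝ (Eu (ι ⊕ ι'))) : ℝ) ≤
      Module.finrank ℝ V + 1 := by
  have h1 := Submodule.finrank_add_le_finrank_add_finrank V (Submodule.span ℝ {v})
  have h2 : Module.finrank ℝ (Submodule.span ℝ {v}) ≤ 1 := by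
    have := finrank_span_le_card (R := ℝ) ({v} : Set (Eu (ι ⊕ ι')))
    simpa using this
  exact_mod_cast h1.trans (Nat.add_le_add_left h2 _)

/-- The theorem for the barycentre. -/
theorem tower_bar [Nonempty ι'] (B : Set (Eu ι')) (hB : IsCompact B) (hBi : (interior B).Nonempty)
    (β : Measure (Eu ι')) (hβ : β = (volume B)⁻¹ • volume.restrict B) (k : ℝ) (hk : VarKLS β k)
    (D : Set (Eu ι)) (hDm : MeasurableSet D) (g : Eu ι → ℝ) (hg : Measurable g) (hg0 : ∀ t, 0 ≤ g t)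
    (hgc : ConcaveOn ℝ D g) (a : Eu ι → Eu ι') (ha : Measurable a) (R : ℝ) (hR : 0 ≤ R)
    (hDR : ∀ t ∈ D, ‖t‖ ≤ R) (haR : ∀ t ∈ D, ‖a t‖ ≤ R) (hgR : ∀ t ∈ D, g t ≤ R)
    (V : Submodule ℝ (Eu (ι ⊕ ι'))) (p : Eu (ι ⊕ ι')) (hV : ∀ t ∈ D, jn (t, a t) - p ∈ V)
    (hKm : MeasurableSet (body B D a g (∫ y, y ∂β))) (hK0 : volume (body B D a g (∫ y, y ∂β)) ≠ 0) :
    VarKLS ((volume (body B D a g (∫ y, y ∂β)))⁻¹ • volume.restrict (body B D a g (∫ y, y ∂β)))
      (k + 2 * Module.finrank ℝ V + Fintype.card ι / 2) := by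
  obtain ⟨b, hb⟩ : ∃ b : Eu ι', b = ∫ y, y ∂β := ⟨_, rfl⟩
  rw [← hb] at hKm hK0 ⊢
  have hvB : volume B ≠ 0 := (Measure.measure_pos_of_nonempty_interior volume hBi).ne'
  have hvB' : volume B ≠ ⊤ := hB.measure_lt_top.ne
  have hβp : IsProbabilityMeasure β := prob B hB hBi β hβ
  obtain ⟨n, hn⟩ : ∃ n : ℕ, n = Fintype.card ι' := ⟨_, rfl⟩
  have hn1 : 1 ≤ n := by
    rw [hn]
    exact Fintype.card_pos
  have hvb := vol_body B D hDm a g hg b hKm
  rw [← hn] at hvb
  have hpos : mass D g n ≠ 0 := by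
    intro h
    rw [h, zero_mul] at hvb
    exact hK0 hvb
  have hDfin : volume D ≠ ⊤ := by
    have h1 : D ⊆ Metric.closedBall 0 R := fun t ht => by
      rw [mem_closedBall_zero_iff]
      exact hDR t ht
    exact ne_top_of_le_ne_top (isCompact_closedBall (0 : Eu ι) R).measure_lt_top.ne (measure_mono h1)
  have hfin : ∀ j, mass D g j ≠ ⊤ := by
    intro j
    unfold mass
    refine ne_top_of_le_ne_top (ENNReal.mul_ne_top (ENNReal.ofReal_ne_top (r := R ^ j)) hDfin) ?_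
    rw [← setLIntegral_const]
    refine setLIntegral_mono measurable_const fun t ht => ENNReal.ofReal_le_ofReal ?_
    rw [abs_of_nonneg (hg0 t)]
    exact pow_le_pow_left₀ (hg0 t) (hgR t ht) j
  have hνp := lawD_prob D g n hpos (hfin n)
  obtain ⟨ν, hν⟩ : ∃ ν : Measure (Eu ι), ν = lawD D g n := ⟨_, rfl⟩
  rw [← hν] at hνp
  have hae : ∀ᵐ t ∂ν, t ∈ D := by
    rw [hν]
    exact (lawD_ac D g n).ae_le (ae_restrict_mem hDm)
  have hE : 0 < ∫ t, g t ^ 2 ∂ν := by
    rw [hν, mean_pow D g hg hg0 n 2]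
    refine div_pos (ENNReal.toReal_pos ?_ (hfin _)) (ENNReal.toReal_pos hpos (hfin _))
    intro h
    apply hpos
    unfold mass at h ⊢
    rw [lintegral_eq_zero_iff (by fun_prop)] at h ⊢
    filter_upwards [h] with t ht
    simp only [Pi.zero_apply, ENNReal.ofReal_eq_zero] at ht ⊢
    have h1 : |g t| ^ (n + 2) = 0 := le_antisymm ht (by positivity)
    have h2 : |g t| = 0 := (pow_eq_zero_iff (by omega)).1 h1
    rw [h2, zero_pow (by omega)]
  have hvg := var_g D hDm g hg hg0 hgc n hn1 hfin hpos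
  rw [← hν] at hvg
  have hyR : ∃ R', 0 ≤ R' ∧ ∀ᵐ y ∂β, ‖y‖ ≤ R' := by
    obtain ⟨R', hR'⟩ := hB.isBounded.exists_norm_le
    refine ⟨max R' 0, le_max_right _ _, ?_⟩
    rw [hβ]
    refine Measure.smul_absolutelyContinuous.ae_le ?_
    filter_upwards [ae_restrict_mem hB.measurableSet] with y hy
    exact (hR' y hy).trans (le_max_left _ _)
  obtain ⟨R', hR'0, hyR⟩ := hyR
  have hτm : Measurable fun t : Eu ι => jn (t, a t) :=
    jn_cont.measurable.comp (measurable_id.prodMk ha)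
  have key := tower_abs ν β (fun t => jn (t, a t)) hτm g hg hg0 inr' b hb.symm (2 * R + R')
    (by positivity) (hae.mono fun t ht => by
      have h1 := norm_jn (t, a t)
      have h2 := hDR t ht
      have h3 := haR t ht
      have h4 : ‖jn (t, a t)‖ ^ 2 ≤ (2 * R + R') ^ 2 := by
        rw [h1]
        simp only
        nlinarith [norm_nonneg t, norm_nonneg (a t)]
      exact (sq_le_sq₀ (norm_nonneg _) (by positivity)).1 h4)
    (hae.mono fun t ht => by
      rw [abs_of_nonneg (hg0 t)]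
      linarith [hgR t ht])
    (hyR.mono fun y hy => by linarith) k hk hE V p (hae.mono hV)
    (Fintype.card ι / ((n : ℝ) + 1) ^ 2) (by positivity) hvg
  rw [← pr_eq] at key
  have hlaw := map_law B hB.measurableSet hvB hvB' D hDm a ha g hg b hKm (hn ▸ hpos) (hfin _)
  rw [← hn, ← hν, ← hβ] at hlaw
  rw [hlaw] at key
  refine VarKLS_mono ?_ key
  have h1 : 2 * (Fintype.card ι' : ℝ) * (Fintype.card ι / ((n : ℝ) + 1) ^ 2) ≤ Fintype.card ι / 2 := by
    rw [← hn, mul_div_assoc', div_le_div_iff₀ (by positivity) (by norm_num)]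
    have h2 : (0 : ℝ) ≤ Fintype.card ι := by positivity
    nlinarith [mul_nonneg h2 (sq_nonneg ((n : ℝ) - 1))]
  linarith

end Pool.Agent.V11317.NC
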