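import Pool.Agent.V11317.NC.Rev6

/-!
# Convex bodies over a convex body: the theorem, final form
-/

set_option autoImplicit false

namespace Pool.Agent.V11317.NC

open MeasureTheory Set Filter Topology
open scoped ENNReal InnerProductSpace Pointwise
open Pool.Agent.W695.KH (Eu)
open Pool.Agent.V11298.KD (CovLe VarKLS)

variable {ι ι' : Type} [Fintype ι] [Fintype ι']

/-- **Bodies whose sections are homothets of `B`.** -/
theorem tower [Nonempty ι'] (B : Set (Eu ι')) (hB : IsCompact B) (hBi : (interior B).Nonempty)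
    (k : ℝ) (hk : VarKLS ((volume B)⁻¹ • volume.restrict B) k)
    (D : Set (Eu ι)) (g : Eu ι → ℝ) (hg : Measurable g) (hg0 : ∀ t ∈ D, 0 ≤ g t)
    (hgc : ConcaveOn ℝ D g) (a : Eu ι → Eu ι') (ha : Measurable a)
    (V : Submodule ℝ (Eu (ι ⊕ ι'))) (p : Eu (ι ⊕ ι')) (hV : ∀ t ∈ D, jn (t, a t) - p ∈ V)
    (K : Set (Eu (ι ⊕ ι'))) (hKc : IsCompact K) (hKi : (interior K).Nonempty)
    (hK : ∀ z, z ∈ K ↔ lft z ∈ D ∧ ∃ y ∈ B, rgt z = a (lft z) + g (lft z) • y) :
    VarKLS ((volume K)⁻¹ • volume.restrict K) (k + 2 * (Module.finrank ℝ V + 1) +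
      Fintype.card ι / 2) := by
  classical
  obtain ⟨β, hβ⟩ : ∃ β : Measure (Eu ι'), β = (volume B)⁻¹ • volume.restrict B := ⟨_, rfl⟩
  rw [← hβ] at hk
  obtain ⟨b, hb⟩ : ∃ b : Eu ι', b = ∫ y, y ∂β := ⟨_, rfl⟩
  obtain ⟨y0, hy0⟩ : ∃ y0, y0 ∈ interior B := hBi
  -- a second point of `B`
  obtain ⟨y1, hy1, hne⟩ : ∃ y1 ∈ B, y1 ≠ y0 := by
    have h2 : interior B ∈ 𝓝 y0 := isOpen_interior.mem_nhds hy0
    have h3 : interior B ∩ {y0}ᶜ ∈ 𝓝[≠] y0 := inter_mem (mem_nhdsWithin_of_mem_nhds h2)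
      self_mem_nhdsWithin
    have h4 := Module.punctured_nhds_neBot ℝ (Eu ι') y0
    obtain ⟨y, hy, hyn⟩ := Filter.nonempty_of_mem h3
    exact ⟨y, interior_subset hy, hyn⟩
  have hyB := interior_subset hy0
  -- points of `K`
  have hpt : ∀ t ∈ D, ∀ y ∈ B, jn (t, a t + g t • y) ∈ K := fun t ht y hy => by
    rw [hK]
    exact ⟨ht, y, hy, rfl⟩
  have hDK : D = lft '' K := by
    ext t
    constructor
    · intro ht
      exact ⟨_, hpt t ht y0 hyB, rfl⟩
    · rintro ⟨z, hz, rfl⟩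
      exact ((hK z).1 hz).1
  have hDc : IsCompact D := by
    rw [hDK]
    exact hKc.image lft_cont
  have hDm := hDc.measurableSet
  obtain ⟨R0, hR0⟩ := hKc.isBounded.exists_norm_le
  have hd : 0 < ‖y1 - y0‖ := norm_pos_iff.2 (sub_ne_zero.2 hne)
  obtain ⟨R1, hR1⟩ : ∃ R1 : ℝ, R1 = 2 * max R0 0 / ‖y1 - y0‖ := ⟨_, rfl⟩
  have hR1' : 0 ≤ R1 := by rw [hR1]; positivity
  have hgR : ∀ t ∈ D, g t ≤ R1 := by
    intro t ht
    rw [hR1, le_div_iff₀ hd]
    have h1 := hR0 _ (hpt t ht y1 hy1)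
    have h2 := hR0 _ (hpt t ht y0 hyB)
    have h3 : rgt (jn (t, a t + g t • y1)) - rgt (jn (t, a t + g t • y0)) = g t • (y1 - y0) := by
      rw [rgt_jn, rgt_jn, smul_sub]
      exact add_sub_add_left_eq_sub _ _ _
    have h4 : g t * ‖y1 - y0‖ = ‖g t • (y1 - y0)‖ := by
      rw [norm_smul, Real.norm_eq_abs, abs_of_nonneg (hg0 t ht)]
    rw [h4, ← h3]
    refine (norm_sub_le _ _).trans ?_
    have h5 := (norm_rgt_le (jn (t, a t + g t • y1))).trans (h1.trans (le_max_left R0 0))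
    have h6 := (norm_rgt_le (jn (t, a t + g t • y0))).trans (h2.trans (le_max_left R0 0))
    linarith
  have hDR : ∀ t ∈ D, ‖t‖ ≤ max R0 0 := by
    intro t ht
    have h2 := hR0 _ (hpt t ht y0 hyB)
    exact (norm_lft_le (jn (t, a t + g t • y0))).trans (h2.trans (le_max_left R0 0))
  have haR : ∀ t ∈ D, ‖a t + g t • b‖ ≤ max R0 0 + R1 * ‖b - y0‖ := by
    intro t ht
    have h2 := hR0 _ (hpt t ht y0 hyB)
    have h6 := (norm_rgt_le (jn (t, a t + g t • y0))).trans (h2.trans (le_max_left R0 0))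
    rw [rgt_jn] at h6
    have h3 : a t + g t • b = (a t + g t • y0) + g t • (b - y0) := by
      rw [smul_sub]
      abel
    rw [h3]
    refine (norm_add_le _ _).trans (add_le_add h6 ?_)
    rw [norm_smul, Real.norm_eq_abs, abs_of_nonneg (hg0 t ht)]
    exact mul_le_mul_of_nonneg_right (hgR t ht) (norm_nonneg _)
  -- the modified functions
  obtain ⟨g', hg'⟩ : ∃ g' : Eu ι → ℝ, g' = D.indicator g := ⟨_, rfl⟩
  obtain ⟨a', ha'⟩ : ∃ a' : Eu ι → Eu ι', a' = fun t => a t + g t • b := ⟨_, rfl⟩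
  have hgg : EqOn g g' D := fun t ht => by rw [hg', indicator_of_mem ht]
  have hbody : body B D a' g' b = K := by
    ext z
    rw [hK]
    unfold body
    rw [mem_ofPred_eq]
    refine and_congr_right fun hz => ?_
    refine exists_congr fun y => and_congr_right fun _ => ?_
    rw [ha', ← hgg hz]
    simp only
    rw [smul_sub, add_add_sub_cancel]
  obtain ⟨V', hV'⟩ : ∃ V' : Submodule ℝ (Eu (ι ⊕ ι')), V' = V ⊔ Submodule.span ℝ {jn ((0 : Eu ι), b)} :=
    ⟨_, rfl⟩
  obtain ⟨R, hR⟩ : ∃ R : ℝ, R = max R0 0 + R1 * ‖b - y0‖ + R1 := ⟨_, rfl⟩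
  have hm0 : 0 ≤ max R0 0 := le_max_right _ _
  have hm1 : 0 ≤ R1 * ‖b - y0‖ := mul_nonneg hR1' (norm_nonneg _)
  have key := tower_bar B hB ⟨y0, hy0⟩ β hβ k hk D hDm g' (by rw [hg']; exact hg.indicator hDm)
    (fun t => by rw [hg']; exact indicator_nonneg (fun t ht => hg0 t ht) t) (hgc.congr hgg) a'
    (by rw [ha']; exact ha.add (hg.smul_const b)) R (by rw [hR]; positivity)
    (fun t ht => (hDR t ht).trans (by rw [hR]; linarith))
    (fun t ht => by rw [ha']; exact (haR t ht).trans (by rw [hR]; linarith))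
    (fun t ht => by rw [← hgg ht]; exact (hgR t ht).trans (by rw [hR]; linarith)) V' p
    (fun t ht => by
      rw [hV', ha']
      have e : jn (t, a t + g t • b) - p = (jn (t, a t) - p) + g t • jn ((0 : Eu ι), b) := by
        rw [← jn_smul, Prod.smul_mk, smul_zero]
        have e2 : jn (t, a t + g t • b) = jn (t, a t) + jn ((0 : Eu ι), g t • b) := by
          rw [← jn_add, Prod.mk_add_mk, add_zero]
        rw [e2]
        abel
      simp only
      rw [e]
      exact Submodule.add_mem_sup (hV t ht) (Submodule.smul_mem _ _ (Submodule.mem_span_singleton_self _)))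
    (by rw [← hb, hbody]; exact hKc.measurableSet)
    (by
      rw [← hb, hbody]
      exact (Measure.measure_pos_of_nonempty_interior volume hKi).ne')
  rw [← hb, hbody] at key
  refine VarKLS_mono ?_ key
  have h1 := finrank_sup_span_le V (jn ((0 : Eu ι), b))
  rw [hV']
  linarith

end Pool.Agent.V11317.NC
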