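import Pool.Agent.V11317.NC.Rev7

/-!
# Direct sums: the variance of `g` in high dimension, and the inequality with a general law of the base point
-/

set_option autoImplicit false

namespace Pool.Agent.V11317.NC

open MeasureTheory Set Filter Topology
open scoped ENNReal InnerProductSpace Pointwise
open Pool.Agent.W695.KH (Eu)
open Pool.Agent.V11298.KD (CovLe VarKLS)

/-! ### an elementary inequality -/

theorem elem1 (k : ℕ) (x : ℝ) (h1 : -1 ≤ x) (h2 : x ≤ 1) :
    (1 - x ^ 2) ^ k * (1 + x) ^ 2 ≤ (((k : ℝ) + 2) / (k + 1)) ^ 2 := by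
  have hx2 : x ^ 2 ≤ 1 := by nlinarith
  have hk : (0 : ℝ) ≤ k := Nat.cast_nonneg k
  have h3 : (1 - x ^ 2) ^ k * (1 + k * x ^ 2) ≤ 1 := by
    have h4 : 1 + k * x ^ 2 ≤ (1 + x ^ 2) ^ k := one_add_mul_le_pow (by nlinarith) k
    have h5 : 0 ≤ (1 - x ^ 2) ^ k := pow_nonneg (by linarith) k
    calc (1 - x ^ 2) ^ k * (1 + k * x ^ 2) ≤ (1 - x ^ 2) ^ k * (1 + x ^ 2) ^ k :=
          mul_le_mul_of_nonneg_left h4 h5
      _ = (1 - x ^ 4) ^ k := by rw [← mul_pow]; ring
      _ ≤ 1 := pow_le_one₀ (by nlinarith [sq_nonneg (x ^ 2), sq_nonneg x]) (by nlinarith [sq_nonneg (x ^ 2)])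
  have h6 : ((k : ℝ) + 1) ^ 2 * (1 + x) ^ 2 ≤ ((k : ℝ) + 2) ^ 2 * (1 + k * x ^ 2) := by
    rcases Nat.eq_zero_or_pos k with h0 | h0
    · subst h0
      norm_num
      nlinarith
    · have hk1 : (1 : ℝ) ≤ k := by exact_mod_cast h0
      obtain ⟨c, hc⟩ : ∃ c : ℝ, c = (k : ℝ) ^ 3 + 3 * k ^ 2 + 2 * k - 1 := ⟨_, rfl⟩
      have hc0 : 0 < c := by rw [hc]; nlinarith [pow_pos (show (0 : ℝ) < k by linarith) 3]
      have h7 : 0 ≤ c * (2 * k + 3) - (k + 1) ^ 4 := by
        rw [hc]
        have e : ((k : ℝ) ^ 3 + 3 * k ^ 2 + 2 * k - 1) * (2 * k + 3) - (k + 1) ^ 4 =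
            (k : ℝ) ^ 4 + 5 * k ^ 3 + 7 * k ^ 2 - 4 := by ring
        rw [e]
        have h8 : (1 : ℝ) ≤ k ^ 2 := one_le_pow₀ hk1
        have h9 : (0 : ℝ) ≤ k ^ 4 := by positivity
        have h10 : (0 : ℝ) ≤ k ^ 3 := by positivity
        linarith
      have h11 : c * (((k : ℝ) + 2) ^ 2 * (1 + k * x ^ 2) - ((k : ℝ) + 1) ^ 2 * (1 + x) ^ 2) =
          (c * x - (k + 1) ^ 2) ^ 2 + (c * (2 * k + 3) - (k + 1) ^ 4) := by
        rw [hc]; ring
      have h12 : 0 ≤ c * (((k : ℝ) + 2) ^ 2 * (1 + k * x ^ 2) - ((k : ℝ) + 1) ^ 2 * (1 + x) ^ 2) := by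
        rw [h11]
        have := sq_nonneg (c * x - ((k : ℝ) + 1) ^ 2)
        linarith
      have h13 := nonneg_of_mul_nonneg_right h12 hc0
      linarith
  rw [div_pow, le_div_iff₀ (by positivity)]
  have h5 : 0 ≤ (1 - x ^ 2) ^ k := pow_nonneg (by linarith) k
  calc (1 - x ^ 2) ^ k * (1 + x) ^ 2 * ((k : ℝ) + 1) ^ 2
      = (1 - x ^ 2) ^ k * (((k : ℝ) + 1) ^ 2 * (1 + x) ^ 2) := by ring
    _ ≤ (1 - x ^ 2) ^ k * (((k : ℝ) + 2) ^ 2 * (1 + k * x ^ 2)) := mul_le_mul_of_nonneg_left h6 h5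
    _ = ((k : ℝ) + 2) ^ 2 * ((1 - x ^ 2) ^ k * (1 + k * x ^ 2)) := by ring
    _ ≤ ((k : ℝ) + 2) ^ 2 * 1 := mul_le_mul_of_nonneg_left h3 (sq_nonneg _)
    _ = ((k : ℝ) + 2) ^ 2 := mul_one _

theorem elem2 (k : ℕ) (s t : ℝ) (hs : 0 < s) (ht : 0 < t) :
    s ^ k * t ^ (k + 2) ≤ (((k : ℝ) + 2) / (k + 1) * ((s + t) / 2) ^ (k + 1)) ^ 2 := by
  obtain ⟨z, hz⟩ : ∃ z : ℝ, z = (s + t) / 2 := ⟨_, rfl⟩
  have hz0 : 0 < z := by rw [hz]; positivity
  obtain ⟨x, hx⟩ : ∃ x : ℝ, x = (t - s) / (s + t) := ⟨_, rfl⟩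
  have hst : 0 < s + t := by positivity
  have e1 : s = z * (1 - x) := by rw [hz, hx]; field_simp; ring
  have e2 : t = z * (1 + x) := by rw [hz, hx]; field_simp; ring
  have hx1 : -1 ≤ x := by rw [hx, le_div_iff₀ hst]; linarith
  have hx2 : x ≤ 1 := by rw [hx, div_le_iff₀ hst]; linarith
  have h := elem1 k x hx1 hx2
  rw [← hz, mul_pow]
  have e3 : s ^ k * t ^ (k + 2) = ((1 - x ^ 2) ^ k * (1 + x) ^ 2) * (z ^ (k + 1)) ^ 2 := by
    rw [e1, e2]
    have : (1 - x ^ 2) = (1 - x) * (1 + x) := by ring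
    rw [this]
    rw [mul_pow, mul_pow, mul_pow]
    ring
  rw [e3]
  exact mul_le_mul_of_nonneg_right h (sq_nonneg _)

variable {ι ι' : Type} [Fintype ι] [Fintype ι']

/-- **The moments of a concave function** (a form of Borell's inequality), from Prekopa-Leindler for the
hypograph -/
theorem mass_pl2 (D : Set (Eu ι)) (hD : MeasurableSet D) (g : Eu ι → ℝ) (hg : Measurable g)
    (hg0 : ∀ t, 0 ≤ g t) (hc : ConcaveOn ℝ D g) (k : ℕ) :
    (ENNReal.ofReal (1 / ((k : ℝ) + 1)) * mass D g (k + 1)) ^ (1 / 2 : ℝ) *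
      (ENNReal.ofReal (1 / ((k : ℝ) + 3)) * mass D g (k + 3)) ^ (1 / 2 : ℝ) ≤
      ENNReal.ofReal (1 / ((k : ℝ) + 1)) * mass D g (k + 2) := by
  obtain ⟨S, hS⟩ : ∃ S : Set (Eu ι × ℝ), S = {p | p.1 ∈ D ∧ 0 < p.2 ∧ p.2 ≤ g p.1} := ⟨_, rfl⟩
  have hSm : MeasurableSet S := by
    rw [hS]
    exact (measurable_fst hD).inter ((measurableSet_lt measurable_const measurable_snd).inter
      (measurableSet_le measurable_snd (hg.comp measurable_fst)))
  have key : ∀ j : ℕ, ∫⁻ p : Eu ι × ℝ, S.indicator (fun p => ENNReal.ofReal (p.2 ^ j)) p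
      ∂((volume : Measure (Eu ι)).prod (volume : Measure ℝ)) =
      ENNReal.ofReal (1 / ((j : ℝ) + 1)) * mass D g (j + 1) := by
    intro j
    rw [lintegral_prod _ (Measurable.aemeasurable
      (Measurable.indicator (by fun_prop) hSm))]
    unfold mass
    rw [← lintegral_const_mul _ (by fun_prop), ← lintegral_indicator hD]
    refine lintegral_congr fun t => ?_
    by_cases ht : t ∈ D
    · rw [indicator_of_mem ht]
      have e1 : ∀ x : ℝ, S.indicator (fun p : Eu ι × ℝ => ENNReal.ofReal (p.2 ^ j)) (t, x) =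
          (Ioc 0 (g t)).indicator (fun x => ENNReal.ofReal (x ^ j)) x := by
        intro x
        by_cases hx : x ∈ Ioc 0 (g t)
        · rw [indicator_of_mem hx, indicator_of_mem (by rw [hS]; exact ⟨ht, hx.1, hx.2⟩)]
        · rw [indicator_of_notMem hx, indicator_of_notMem (by
            rw [hS]
            rintro ⟨-, h1, h2⟩
            exact hx ⟨h1, h2⟩)]
      simp only [e1]
      rw [lintegral_indicator measurableSet_Ioc, ← ofReal_integral_eq_lintegral_ofReal, ←
        intervalIntegral.integral_of_le (hg0 t), integral_pow, ← ENNReal.ofReal_mul (by positivity),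
        abs_of_nonneg (hg0 t)]
      · congr 1
        rw [zero_pow (by omega)]
        ring
      · exact (continuous_pow j).integrableOn_Ioc
      · filter_upwards [ae_restrict_mem measurableSet_Ioc] with x hx
        exact pow_nonneg hx.1.le j
    · rw [indicator_of_notMem ht]
      have e1 : ∀ x : ℝ, S.indicator (fun p : Eu ι × ℝ => ENNReal.ofReal (p.2 ^ j)) (t, x) = 0 := by
        intro x
        rw [indicator_of_notMem]
        rw [hS]
        rintro ⟨h1, -⟩
        exact ht h1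
      simp only [e1, lintegral_zero]
  have hpl := Pool.Agent.H212R2.KLS.PL ((volume : Measure (Eu ι)).prod (volume : Measure ℝ)) (1 / 2) (by norm_num) (by norm_num)
    (S.indicator (fun p => ENNReal.ofReal (p.2 ^ k)))
    (S.indicator (fun p => ENNReal.ofReal (p.2 ^ (k + 2))))
    (fun p => ENNReal.ofReal (((k : ℝ) + 2) / (k + 1)) *
      S.indicator (fun p => ENNReal.ofReal (p.2 ^ (k + 1))) p)
    (Measurable.indicator (by fun_prop) hSm) (Measurable.indicator (by fun_prop) hSm)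
    ((Measurable.indicator (by fun_prop) hSm).const_mul _) (by
      intro p q
      by_cases hp : p ∈ S
      · by_cases hq : q ∈ S
        · have hp' := hp
          have hq' := hq
          rw [hS] at hp' hq'
          obtain ⟨hp1, hp2, hp3⟩ := hp'
          obtain ⟨hq1, hq2, hq3⟩ := hq'
          have hmem : (1 - 1 / 2 : ℝ) • p + (1 / 2 : ℝ) • q ∈ S := by
            rw [hS]
            refine ⟨hc.1 hp1 hq1 (by norm_num) (by norm_num) (by norm_num), ?_, ?_⟩
            · simp only [Prod.snd_add, Prod.smul_snd, smul_eq_mul]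
              positivity
            · simp only [Prod.snd_add, Prod.smul_snd, smul_eq_mul]
              have h1 := hc.2 hp1 hq1 (show (0 : ℝ) ≤ 1 - 1 / 2 by norm_num)
                (show (0 : ℝ) ≤ 1 / 2 by norm_num) (by norm_num)
              simp only [smul_eq_mul] at h1
              simp only [Prod.fst_add, Prod.smul_fst]
              refine le_trans ?_ h1
              gcongr
          rw [indicator_of_mem hp, indicator_of_mem hq, indicator_of_mem hmem,
            ENNReal.ofReal_rpow_of_nonneg (by positivity) (by norm_num),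
            ENNReal.ofReal_rpow_of_nonneg (by positivity) (by norm_num),
            ← ENNReal.ofReal_mul (by positivity), ← ENNReal.ofReal_mul (by positivity)]
          apply ENNReal.ofReal_le_ofReal
          simp only [Prod.snd_add, Prod.smul_snd, smul_eq_mul]
          have h2 := elem2 k p.2 q.2 hp2 hq2
          have e3 : (1 - 1 / 2 : ℝ) * p.2 + 1 / 2 * q.2 = (p.2 + q.2) / 2 := by ring
          have e4 : (1 - 1 / 2 : ℝ) = 1 / 2 := by norm_num
          rw [e3, e4, ← Real.mul_rpow (by positivity) (by positivity), ← Real.sqrt_eq_rpow]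
          exact (Real.sqrt_le_left (by positivity)).2 h2
        · rw [indicator_of_notMem hq, ENNReal.zero_rpow_of_pos (by norm_num), mul_zero]
          exact zero_le
      · rw [indicator_of_notMem hp, ENNReal.zero_rpow_of_pos (by norm_num), zero_mul]
        exact zero_le)
  rw [lintegral_const_mul _ (Measurable.indicator (by fun_prop) hSm), key k, key (k + 2), key (k + 1)] at hpl
  have e : (1 - 1 / 2 : ℝ) = 1 / 2 := by norm_num
  rw [e, ← mul_assoc, ← ENNReal.ofReal_mul (by positivity)] at hpl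
  have e5 : ((k + 2 : ℕ) : ℝ) + 1 = k + 3 := by push_cast; ring
  have e6 : ((k : ℝ) + 2) / (k + 1) * (1 / (((k + 1 : ℕ) : ℝ) + 1)) = 1 / (k + 1) := by
    push_cast; field_simp; ring
  rw [e5, e6] at hpl
  exact hpl

end Pool.Agent.V11317.NC
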