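import Pool.Agent.V11317.NC.Sum1

/-!
# Direct sums: the inequality with a general law of the base point
-/

set_option autoImplicit false

namespace Pool.Agent.V11317.NC

open MeasureTheory Set Filter Topology
open scoped ENNReal InnerProductSpace Pointwise
open Pool.Agent.W695.KH (Eu)
open Pool.Agent.V11298.KD (CovLe VarKLS)

variable {X : Type*} [MeasurableSpace X] {κ ι' : Type} [Fintype κ] [Fintype ι']

theorem lip_part2 (ν : Measure X) [IsProbabilityMeasure ν] (β : Measure (Eu ι')) [IsProbabilityMeasure β]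
    (τ : X → Eu κ) (hτ : Measurable τ) (g : X → ℝ) (hg : Measurable g) (hg0 : ∀ t, 0 ≤ g t)
    (J : Eu ι' →ₗᵢ[ℝ] Eu κ) (b : Eu ι') (R : ℝ) (hR : 0 ≤ R)
    (hτR : ∀ᵐ t ∂ν, ‖τ t‖ ≤ R) (hgR : ∀ᵐ t ∂ν, |g t| ≤ R) (hyR : ∀ᵐ y ∂β, ‖y‖ ≤ R)
    (k : ℝ) (hk : VarKLS β k) (s : ℝ) (hs : 0 < s) (hE : 0 < ∫ t, g t ^ 2 ∂ν)
    (hcov : CovLe β (s / ∫ t, g t ^ 2 ∂ν)) (n r δ : ℝ) (hδ : 0 ≤ δ)
    (hM2 : ∫ y, ‖y - b‖ ^ 2 ∂β ≤ n * (s / ∫ t, g t ^ 2 ∂ν))
    (hτ2 : ∀ u : Eu κ → ℝ, ContDiff ℝ 1 u → (∀ x, ‖fderiv ℝ u x‖ ≤ 1) →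
      ProbabilityTheory.variance (fun t => u (τ t)) ν ≤ r * s)
    (hvg : ∫ t, g t ^ 2 ∂ν - (∫ t, g t ∂ν) ^ 2 ≤ δ * ∫ t, g t ^ 2 ∂ν)
    (f : Eu κ → ℝ) (hf : ContDiff ℝ 1 f) (hf1 : ∀ x, ‖fderiv ℝ f x‖ ≤ 1) :
    ProbabilityTheory.variance (fun z => f (GG τ g J b z)) (ν.prod β) ≤ (k + 2 * r + 2 * n * δ) * s := by
  have hlip := lip_of hf hf1
  have hGm := GG_meas hτ hg J b
  have hGb := GG_bdd (β := β) J b hR hτR hgR hyR
  have hFm : Measurable fun z => f (GG τ g J b z) := hf.continuous.measurable.comp hGm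
  have hFb : ∀ᵐ z ∂(ν.prod β), |f (GG τ g J b z)| ≤ |f 0| + (R + R * (R + ‖b‖)) :=
    hGb.mono fun z hz => by
      have h1 := hlip (GG τ g J b z) 0
      rw [sub_zero] at h1
      have h2 : |f (GG τ g J b z)| ≤ |f 0| + |f (GG τ g J b z) - f 0| := by
        have := abs_add_le (f 0) (f (GG τ g J b z) - f 0)
        rwa [add_sub_cancel] at this
      linarith
  obtain ⟨A, hA⟩ : ∃ A : ℝ, A = ∫ t, g t ^ 2 ∂ν := ⟨_, rfl⟩
  rw [← hA] at hE hcov hM2 hvg
  obtain ⟨h, hh⟩ : ∃ h : ℝ, h = ∫ t, g t ∂ν := ⟨_, rfl⟩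
  rw [← hh] at hvg
  obtain ⟨M, hM⟩ : ∃ M : ℝ, M = ∫ y, ‖y - b‖ ^ 2 ∂β := ⟨_, rfl⟩
  rw [← hM] at hM2
  have hsA : 0 < s / A := div_pos hs hE
  -- bounded functions of `y`
  have hbd : ∀ (x : Eu κ) (c : ℝ), Integrable (fun y => f (x + c • J (y - b))) β ∧
      Measurable (fun y => f (x + c • J (y - b))) ∧
      ∀ᵐ y ∂β, |f (x + c • J (y - b))| ≤ |f 0| + (‖x‖ + |c| * (R + ‖b‖)) := by
    intro x c
    have hm : Measurable (fun y => f (x + c • J (y - b))) := by
      have : Continuous fun y => f (x + c • J (y - b)) := by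
        exact hf.continuous.comp (continuous_const.add
          ((J.continuous.comp (continuous_id.sub continuous_const)).const_smul c))
      exact this.measurable
    have hb' : ∀ᵐ y ∂β, |f (x + c • J (y - b))| ≤ |f 0| + (‖x‖ + |c| * (R + ‖b‖)) := by
      filter_upwards [hyR] with y hy
      have h1 := hlip (x + c • J (y - b)) 0
      rw [sub_zero] at h1
      have h2 : |f (x + c • J (y - b))| ≤ |f 0| + |f (x + c • J (y - b)) - f 0| := by
        have := abs_add_le (f 0) (f (x + c • J (y - b)) - f 0)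
        rwa [add_sub_cancel] at this
      have h3 : ‖x + c • J (y - b)‖ ≤ ‖x‖ + |c| * (R + ‖b‖) := by
        refine (norm_add_le _ _).trans (add_le_add le_rfl ?_)
        rw [norm_smul, Real.norm_eq_abs, J.norm_map]
        exact mul_le_mul_of_nonneg_left ((norm_sub_le _ _).trans (by linarith)) (abs_nonneg _)
      linarith
    exact ⟨int_bdd hm _ hb', hm, hb'⟩
  -- the conditional variance
  have hcv : ∀ t, ProbabilityTheory.variance (fun y => f (GG τ g J b (t, y))) β ≤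
      g t ^ 2 * (k * (s / A)) := by
    intro t
    have e0 : (fun y => f (GG τ g J b (t, y))) = fun y => f (τ t + g t • J (y - b)) := rfl
    rw [e0]
    rcases (hg0 t).eq_or_lt with h0 | h0
    · rw [← h0]
      simp only [zero_smul, add_zero, ne_eq, OfNat.ofNat_ne_zero, not_false_eq_true, zero_pow, zero_mul]
      have : ProbabilityTheory.variance (fun _ : Eu ι' => f (τ t)) β = 0 := by
        rw [ProbabilityTheory.variance_eq_sub (memLp_const _)]
        simp
      rw [this]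
    · obtain ⟨u, hu⟩ : ∃ u : Eu ι' → ℝ, u = fun y => (g t)⁻¹ * f (τ t + g t • J (y - b)) := ⟨_, rfl⟩
      have hin : ContDiff ℝ 1 fun y : Eu ι' => τ t + g t • J (y - b) :=
        contDiff_const.add ((J.toContinuousLinearMap.contDiff.comp
          (contDiff_id.sub contDiff_const)).const_smul (g t))
      have huc : ContDiff ℝ 1 u := by
        rw [hu]
        exact contDiff_const.mul (hf.comp hin)
      have hul : ∀ y z, |u y - u z| ≤ ‖y - z‖ := by
        intro y z
        rw [hu]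
        simp only
        rw [← mul_sub, abs_mul, abs_of_pos (inv_pos.2 h0)]
        have h1 := hlip (τ t + g t • J (y - b)) (τ t + g t • J (z - b))
        have h2 : (τ t + g t • J (y - b)) - (τ t + g t • J (z - b)) = g t • J (y - z) := by
          rw [add_sub_add_left_eq_sub, ← smul_sub, ← map_sub]
          congr 2
          abel
        rw [h2, norm_smul, Real.norm_eq_abs, abs_of_pos h0, J.norm_map] at h1
        calc (g t)⁻¹ * |f (τ t + g t • J (y - b)) - f (τ t + g t • J (z - b))|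
            ≤ (g t)⁻¹ * (g t * ‖y - z‖) := mul_le_mul_of_nonneg_left h1 (inv_pos.2 h0).le
          _ = ‖y - z‖ := by rw [← mul_assoc, inv_mul_cancel₀ h0.ne', one_mul]
      have hud : ∀ y, ‖fderiv ℝ u y‖ ≤ 1 := by
        intro y
        have hL : LipschitzWith 1 u := LipschitzWith.of_dist_le_mul fun y z => by
          rw [Real.dist_eq, dist_eq_norm, NNReal.coe_one, one_mul]
          exact hul y z
        have := norm_fderiv_le_of_lipschitz ℝ (x₀ := y) hL
        simpa using this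
      have h3 := (hk (s / A) hsA hcov u huc hud).2
      have e1 : (fun y => f (τ t + g t • J (y - b))) = fun y => g t * u y := by
        funext y
        rw [hu]
        simp only
        rw [← mul_assoc, mul_inv_cancel₀ h0.ne', one_mul]
      rw [e1, ProbabilityTheory.variance_const_mul]
      exact mul_le_mul_of_nonneg_left h3 (sq_nonneg _)
  -- the conditional mean
  have hnb : Integrable (fun y => ‖y - b‖ ^ 2) β := by
    refine Integrable.of_bound (by fun_prop) ((R + ‖b‖) ^ 2) ?_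
    filter_upwards [hyR] with y hy
    rw [Real.norm_eq_abs, abs_of_nonneg (by positivity)]
    exact pow_le_pow_left₀ (norm_nonneg _) ((norm_sub_le _ _).trans (by linarith)) 2
  -- the function with the constant dilation
  obtain ⟨Q, hQ⟩ : ∃ Q : ℝ, Q = |f 0| + (R + |h| * (R + ‖b‖)) := ⟨_, rfl⟩
  obtain ⟨F0, hF0⟩ : ∃ F0 : X × Eu ι' → ℝ, F0 = fun z => f (τ z.1 + h • J (z.2 - b)) := ⟨_, rfl⟩
  have hF0m : Measurable F0 := by
    rw [hF0]
    exact hf.continuous.measurable.comp ((hτ.comp measurable_fst).add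
      ((J.continuous.measurable.comp (measurable_snd.sub_const b)).const_smul h))
  have hgrow : ∀ t y, ‖τ t‖ ≤ R → |F0 (t, y)| ≤ |f 0| + (R + |h| * ‖y - b‖) := by
    intro t y ht
    rw [hF0]
    simp only
    have h1 := hlip (τ t + h • J (y - b)) 0
    rw [sub_zero] at h1
    have h2 : |f (τ t + h • J (y - b))| ≤ |f 0| + |f (τ t + h • J (y - b)) - f 0| := by
      have := abs_add_le (f 0) (f (τ t + h • J (y - b)) - f 0)
      rwa [add_sub_cancel] at this
    have h3 : ‖τ t + h • J (y - b)‖ ≤ R + |h| * ‖y - b‖ := by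
      refine (norm_add_le _ _).trans (add_le_add ht ?_)
      rw [norm_smul, Real.norm_eq_abs, J.norm_map]
    linarith
  have hgrowQ : ∀ t y, ‖τ t‖ ≤ R → ‖y‖ ≤ R → |F0 (t, y)| ≤ Q := by
    intro t y ht hy
    refine (hgrow t y ht).trans ?_
    rw [hQ]
    have : |h| * ‖y - b‖ ≤ |h| * (R + ‖b‖) :=
      mul_le_mul_of_nonneg_left ((norm_sub_le _ _).trans (by linarith)) (abs_nonneg _)
    linarith
  obtain ⟨cy, hcy⟩ : ∃ cy : Eu ι' → ℝ, cy = fun y => ∫ t, F0 (t, y) ∂ν := ⟨_, rfl⟩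
  have hcym : Measurable cy := by
    rw [hcy]
    exact (hF0m.stronglyMeasurable.integral_prod_left' (μ := ν)).measurable
  have hcyb : ∀ y, ‖y‖ ≤ R → |cy y| ≤ Q := by
    intro y hy
    rw [hcy]
    have h1 := norm_integral_le_of_norm_le_const (μ := ν) (f := fun t => F0 (t, y)) (C := Q)
      (hτR.mono fun t ht => by
        rw [Real.norm_eq_abs]
        exact hgrowQ t y ht hy)
    rw [Real.norm_eq_abs] at h1
    simpa using h1
  obtain ⟨W, hW⟩ : ∃ W : X × Eu ι' → ℝ, W = fun z => F0 z - cy z.2 := ⟨_, rfl⟩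
  have hWm : Measurable W := by
    rw [hW]
    exact hF0m.sub (hcym.comp measurable_snd)
  have hWb : ∀ t y, ‖τ t‖ ≤ R → ‖y‖ ≤ R → |W (t, y)| ≤ Q + Q := by
    intro t y ht hy
    rw [hW]
    exact (abs_sub _ _).trans (add_le_add (hgrowQ t y ht hy) (hcyb y hy))
  have hWP : ∀ᵐ z ∂(ν.prod β), |W z| ≤ Q + Q := by
    filter_upwards [Measure.quasiMeasurePreserving_fst.ae hτR,
      Measure.quasiMeasurePreserving_snd.ae hyR] with z h1 h2
    exact hWb z.1 z.2 h1 h2
  have hWi : Integrable (fun z => W z ^ 2) (ν.prod β) := (memLp_bdd hWm _ hWP).integrable_sq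
  have hWvar : ∀ y, ∫ t, W (t, y) ^ 2 ∂ν ≤ r * s := by
    intro y
    have hm1 : Measurable fun t => F0 (t, y) := hF0m.comp measurable_prodMk_right
    have hl1 := memLp_bdd hm1 _ (hτR.mono fun t ht => hgrow t y ht)
    have h1 := second_moment_about hl1 (cy y)
    have h2 : ∫ t, F0 (t, y) ∂ν = cy y := by rw [hcy]
    rw [h2, sub_self] at h1
    simp only [ne_eq, OfNat.ofNat_ne_zero, not_false_eq_true, zero_pow, add_zero] at h1
    have h3 : ∫ t, W (t, y) ^ 2 ∂ν = ∫ t, (F0 (t, y) - cy y) ^ 2 ∂ν := by rw [hW]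
    rw [h3, h1, hF0]
    refine hτ2 (fun x => f (x + h • J (y - b))) (hf.comp (contDiff_id.add contDiff_const)) fun x => ?_
    have e1 : fderiv ℝ (fun x => f (x + h • J (y - b))) x = fderiv ℝ f (x + h • J (y - b)) :=
      fderiv_comp_add_right (h • J (y - b))
    rw [e1]
    exact hf1 _
  obtain ⟨c0, hc0⟩ : ∃ c0 : ℝ, c0 = ∫ y, cy y ∂β := ⟨_, rfl⟩
  have hcyi : Integrable cy β := int_bdd hcym Q (hyR.mono fun y hy => hcyb y hy)
  have hcm : ∀ t, ‖τ t‖ ≤ R → (∫ y, f (GG τ g J b (t, y)) ∂β - c0) ^ 2 ≤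
      2 * ∫ y, W (t, y) ^ 2 ∂β + 2 * (g t - h) ^ 2 * M := by
    intro t ht
    obtain ⟨h1, h1m, h1b⟩ := hbd (τ t) (g t)
    have e1 : ∫ y, f (GG τ g J b (t, y)) ∂β - c0 =
        ∫ y, (f (τ t + g t • J (y - b)) - cy y) ∂β := by
      rw [integral_sub h1 hcyi, hc0]
      rfl
    obtain ⟨D, hD⟩ : ∃ D : Eu ι' → ℝ, D = fun y => f (τ t + g t • J (y - b)) - cy y := ⟨_, rfl⟩
    have hDm : Measurable D := by rw [hD]; exact h1m.sub hcym
    have hDb : ∀ᵐ y ∂β, |D y| ≤ (|f 0| + (‖τ t‖ + |g t| * (R + ‖b‖))) + Q := by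
      filter_upwards [h1b, hyR] with y ha hy
      rw [hD]
      exact (abs_sub _ _).trans (add_le_add ha (hcyb y hy))
    have hDl := memLp_bdd hDm _ hDb
    have e2 : (∫ y, D y ∂β) ^ 2 ≤ ∫ y, D y ^ 2 ∂β := by
      have h3 := second_moment_about hDl 0
      have h4 := ProbabilityTheory.variance_nonneg D β
      simp only [sub_zero] at h3
      rw [h3]
      linarith
    have e3 : (∫ y, (f (τ t + g t • J (y - b)) - cy y) ∂β) = ∫ y, D y ∂β := by
      rw [hD]
    rw [e1, e3]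
    refine e2.trans ?_
    have hWl := memLp_bdd (hWm.comp (measurable_prodMk_left (x := t))) (Q + Q)
      (hyR.mono fun y hy => hWb t y ht hy)
    have hWi' : Integrable (fun y => 2 * W (t, y) ^ 2) β := hWl.integrable_sq.const_mul 2
    have hni : Integrable (fun y => 2 * (g t - h) ^ 2 * ‖y - b‖ ^ 2) β := hnb.const_mul _
    have e4 : ∀ y, D y ^ 2 ≤ 2 * W (t, y) ^ 2 + 2 * (g t - h) ^ 2 * ‖y - b‖ ^ 2 := by
      intro y
      have h5 : |D y - W (t, y)| ≤ |g t - h| * ‖y - b‖ := by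
        rw [hD, hW, hF0]
        simp only
        rw [sub_sub_sub_cancel_right]
        refine (hlip _ _).trans (le_of_eq ?_)
        rw [add_sub_add_left_eq_sub, ← sub_smul, norm_smul, Real.norm_eq_abs, J.norm_map]
      have h7 : (D y - W (t, y)) ^ 2 ≤ (g t - h) ^ 2 * ‖y - b‖ ^ 2 := by
        rw [← sq_abs (D y - W (t, y)), ← sq_abs (g t - h), ← mul_pow]
        exact pow_le_pow_left₀ (abs_nonneg _) h5 2
      nlinarith [sq_nonneg (D y - 2 * W (t, y))]
    calc ∫ y, D y ^ 2 ∂β ≤ ∫ y, (2 * W (t, y) ^ 2 + 2 * (g t - h) ^ 2 * ‖y - b‖ ^ 2) ∂β :=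
          integral_mono hDl.integrable_sq (hWi'.add hni) e4
      _ = 2 * ∫ y, W (t, y) ^ 2 ∂β + 2 * (g t - h) ^ 2 * M := by
          rw [integral_add hWi' hni, integral_const_mul, integral_const_mul, hM]
  -- integration over `t`
  have hstep : ProbabilityTheory.variance (fun z => f (GG τ g J b z)) (ν.prod β) ≤
      ∫ t, (ProbabilityTheory.variance (fun y => f (GG τ g J b (t, y))) β +
        (∫ y, f (GG τ g J b (t, y)) ∂β - c0) ^ 2) ∂ν := by
    rw [← decomp ν β _ hFm _ hFb c0, second_moment_about (memLp_bdd hFm _ hFb) c0]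
    linarith [sq_nonneg (∫ z, f (GG τ g J b z) ∂(ν.prod β) - c0)]
  refine hstep.trans ?_
  have hgl := memLp_bdd hg _ hgR
  have hτi : Integrable (fun t => ∫ y, W (t, y) ^ 2 ∂β) ν := hWi.integral_prod_left
  have hgi : Integrable (fun t => (g t - h) ^ 2) ν := (hgl.sub (memLp_const h)).integrable_sq
  have hgh : ∫ t, (g t - h) ^ 2 ∂ν = A - h ^ 2 := by
    rw [second_moment_about hgl h, ← hh, sub_self, ProbabilityTheory.variance_eq_sub hgl, hA, hh]
    simp only [Pi.pow_apply]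
    ring
  have hM0 : 0 ≤ M := by
    rw [hM]
    exact integral_nonneg fun y => sq_nonneg _
  have hAh : 0 ≤ A - h ^ 2 := by
    rw [← hgh]
    exact integral_nonneg fun y => sq_nonneg _
  have hswap : ∫ t, ∫ y, W (t, y) ^ 2 ∂β ∂ν ≤ r * s := by
    rw [integral_integral_swap (f := fun t y => W (t, y) ^ 2) hWi]
    calc ∫ y, ∫ t, W (t, y) ^ 2 ∂ν ∂β ≤ ∫ _ : Eu ι', r * s ∂β :=
          integral_mono hWi.integral_prod_right (integrable_const _) hWvar
      _ = r * s := by simp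
  calc ∫ t, (ProbabilityTheory.variance (fun y => f (GG τ g J b (t, y))) β +
        (∫ y, f (GG τ g J b (t, y)) ∂β - c0) ^ 2) ∂ν
      ≤ ∫ t, (g t ^ 2 * (k * (s / A)) + (2 * ∫ y, W (t, y) ^ 2 ∂β + 2 * (g t - h) ^ 2 * M)) ∂ν := by
        refine integral_mono_of_nonneg (Eventually.of_forall fun t => ?_) ?_
          (hτR.mono fun t ht => add_le_add (hcv t) (hcm t ht))
        · exact add_nonneg (ProbabilityTheory.variance_nonneg _ _) (sq_nonneg _)
        · exact (hgl.integrable_sq.mul_const _).add ((hτi.const_mul _).add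
            ((hgi.const_mul 2).mul_const M))
    _ = A * (k * (s / A)) + (2 * ∫ t, ∫ y, W (t, y) ^ 2 ∂β ∂ν + 2 * (A - h ^ 2) * M) := by
        have hi1 : Integrable (fun t => g t ^ 2 * (k * (s / A))) ν := hgl.integrable_sq.mul_const _
        have hi2 : Integrable (fun t => 2 * ∫ y, W (t, y) ^ 2 ∂β) ν := hτi.const_mul _
        have hi3 : Integrable (fun t => 2 * (g t - h) ^ 2 * M) ν := (hgi.const_mul 2).mul_const M
        have hi4 : Integrable (fun t => 2 * ∫ y, W (t, y) ^ 2 ∂β + 2 * (g t - h) ^ 2 * M) ν := hi2.add hi3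
        rw [integral_add hi1 hi4, integral_add hi2 hi3, integral_mul_const, integral_const_mul,
            integral_mul_const, integral_const_mul, hgh, hA]
    _ ≤ k * s + (2 * (r * s) + 2 * (δ * A) * (n * (s / A))) := by
        have h1 : A * (k * (s / A)) = k * s := by field_simp
        have h2 : 2 * (A - h ^ 2) * M ≤ 2 * (δ * A) * (n * (s / A)) := by
          have h3 : 0 ≤ δ * A := mul_nonneg hδ hE.le
          exact mul_le_mul (by linarith) hM2 hM0 (by linarith)
        linarith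
    _ = (k + 2 * r + 2 * n * δ) * s := by
        field_simp
        ring

end Pool.Agent.V11317.NC
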