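import Pool.Agent.V11317.NC.Sum2

/-!
# Direct sums: the abstract theorem
-/

set_option autoImplicit false

namespace Pool.Agent.V11317.NC

open MeasureTheory Set Filter Topology
open scoped ENNReal InnerProductSpace Pointwise
open Pool.Agent.W695.KH (Eu)
open Pool.Agent.V11298.KD (CovLe VarKLS)

section var

variable {ι : Type} [Fintype ι]

/-- **The relative variance of `g`**, in arbitrary dimension. -/
theorem var_g2 (D : Set (Eu ι)) (hD : MeasurableSet D) (g : Eu ι → ℝ) (hg : Measurable g)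
    (hg0 : ∀ t, 0 ≤ g t) (hc : ConcaveOn ℝ D g) (n : ℕ) (hn : 1 ≤ n)
    (hfin : ∀ k, mass D g k ≠ ⊤) (hpos : mass D g n ≠ 0) :
    ∫ t, g t ^ 2 ∂(lawD D g n) - (∫ t, g t ∂(lawD D g n)) ^ 2 ≤
      2 / ((n : ℝ) + 2) * ∫ t, g t ^ 2 ∂(lawD D g n) := by
  have h1 := mean_pow D g hg hg0 n 1
  have h2 := mean_pow D g hg hg0 n 2
  simp only [pow_one] at h1
  rw [h1, h2]
  obtain ⟨k, rfl⟩ : ∃ k : ℕ, n = k + 1 := ⟨n - 1, by omega⟩
  obtain ⟨A, hA⟩ : ∃ A : ℝ, A = (mass D g (k + 1)).toReal := ⟨_, rfl⟩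
  obtain ⟨B, hB⟩ : ∃ B : ℝ, B = (mass D g (k + 2)).toReal := ⟨_, rfl⟩
  obtain ⟨C, hC⟩ : ∃ C : ℝ, C = (mass D g (k + 3)).toReal := ⟨_, rfl⟩
  have hA0 : 0 < A := by rw [hA]; exact ENNReal.toReal_pos hpos (hfin _)
  have hB0 : 0 ≤ B := by rw [hB]; exact ENNReal.toReal_nonneg
  have hC0 : 0 ≤ C := by rw [hC]; exact ENNReal.toReal_nonneg
  have e1 : k + 1 + 1 = k + 2 := rfl
  have e2 : k + 1 + 2 = k + 3 := rfl
  rw [e1, e2, ← hA, ← hB, ← hC]
  have hpl := mass_pl2 D hD g hg hg0 hc k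
  have key : (1 / ((k : ℝ) + 1) * A) * (1 / ((k : ℝ) + 3) * C) ≤ (1 / ((k : ℝ) + 1) * B) ^ 2 := by
    have h3 := ENNReal.toReal_mono (ENNReal.mul_ne_top ENNReal.ofReal_ne_top (hfin (k + 2))) hpl
    rw [ENNReal.toReal_mul, ← ENNReal.toReal_rpow, ← ENNReal.toReal_rpow, ENNReal.toReal_mul,
      ENNReal.toReal_mul, ENNReal.toReal_mul, ENNReal.toReal_ofReal (by positivity),
      ENNReal.toReal_ofReal (by positivity), ← hA, ← hB, ← hC,
      ← Real.sqrt_eq_rpow, ← Real.sqrt_eq_rpow] at h3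
    have h4 := pow_le_pow_left₀ (by positivity) h3 2
    rw [mul_pow, Real.sq_sqrt (by positivity), Real.sq_sqrt (by positivity)] at h4
    exact h4
  have h5 : ((k : ℝ) + 1) * (A * C) ≤ ((k : ℝ) + 3) * B ^ 2 := by
    have h6 : (1 / ((k : ℝ) + 1) * A) * (1 / ((k : ℝ) + 3) * C) = (A * C) / ((k + 1) * (k + 3)) := by
      field_simp
    have h7 : (1 / ((k : ℝ) + 1) * B) ^ 2 = B ^ 2 / (k + 1) ^ 2 := by
      field_simp
    rw [h6, h7, div_le_div_iff₀ (by positivity) (by positivity)] at key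
    have h8 : (A * C) * ((k : ℝ) + 1) ^ 2 = (((k : ℝ) + 1) * (A * C)) * (k + 1) := by ring
    have h9 : B ^ 2 * (((k : ℝ) + 1) * (k + 3)) = (((k : ℝ) + 3) * B ^ 2) * (k + 1) := by ring
    rw [h8, h9] at key
    exact le_of_mul_le_mul_right key (by positivity)
  rw [div_pow]
  push_cast
  have h10 : C / A - B ^ 2 / A ^ 2 ≤ 2 / ((k : ℝ) + 1 + 2) * (C / A) := by
    have h11 : ((k : ℝ) + 1) / (k + 3) * (C / A) ≤ B ^ 2 / A ^ 2 := by
      rw [le_div_iff₀ (by positivity)]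
      calc ((k : ℝ) + 1) / (k + 3) * (C / A) * A ^ 2 = (((k : ℝ) + 1) * (A * C)) / (k + 3) := by
            field_simp
        _ ≤ (((k : ℝ) + 3) * B ^ 2) / (k + 3) := div_le_div_of_nonneg_right h5 (by positivity)
        _ = B ^ 2 := by field_simp
    have h12 : 2 / ((k : ℝ) + 1 + 2) * (C / A) = C / A - ((k : ℝ) + 1) / (k + 3) * (C / A) := by
      field_simp
      ring
    rw [h12]
    linarith
  exact h10

/-- facts on the law of the base point -/
theorem law_facts (D : Set (Eu ι)) (hDm : MeasurableSet D) (g : Eu ι → ℝ) (hg : Measurable g)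
    (hg0 : ∀ t, 0 ≤ g t) (R : ℝ) (hDR : ∀ t ∈ D, ‖t‖ ≤ R) (hgR : ∀ t ∈ D, g t ≤ R) (n : ℕ) (hn : 1 ≤ n)
    (hpos : mass D g n ≠ 0) : (∀ j, mass D g j ≠ ⊤) ∧ IsProbabilityMeasure (lawD D g n) ∧
      (∀ᵐ t ∂(lawD D g n), t ∈ D) ∧ 0 < ∫ t, g t ^ 2 ∂(lawD D g n) := by
  have hDfin : volume D ≠ ⊤ := by
    have h1 : D ⊆ Metric.closedBall 0 R := fun t ht => by
      rw [mem_closedBall_zero_iff]
      exact hDR t ht
    exact ne_top_of_le_ne_top (isCompact_closedBall (0 : Eu ι) R).measure_lt_top.ne (measure_mono h1)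
  have hfin : ∀ j, mass D g j ≠ ⊤ := by
    intro j
    unfold mass
    refine ne_top_of_le_ne_top (ENNReal.mul_ne_top (ENNReal.ofReal_ne_top (r := R ^ j)) hDfin) ?_
    rw [← setLIntegral_const]
    refine setLIntegral_mono measurable_const fun t ht => ENNReal.ofReal_le_ofReal ?_
    rw [abs_of_nonneg (hg0 t)]
    exact pow_le_pow_left₀ (hg0 t) (hgR t ht) j
  refine ⟨hfin, lawD_prob D g n hpos (hfin n), (lawD_ac D g n).ae_le (ae_restrict_mem hDm), ?_⟩
  rw [mean_pow D g hg hg0 n 2]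
  refine div_pos (ENNReal.toReal_pos ?_ (hfin _)) (ENNReal.toReal_pos hpos (hfin _))
  intro h
  apply hpos
  unfold mass at h ⊢
  rw [lintegral_eq_zero_iff (by fun_prop)] at h ⊢
  filter_upwards [h] with t ht
  simp only [Pi.zero_apply, ENNReal.ofReal_eq_zero] at ht ⊢
  have h1 : |g t| ^ (n + 2) = 0 := le_antisymm ht (by positivity)
  have h2 : |g t| = 0 := (pow_eq_zero_iff (by omega)).1 h1
  rw [h2, zero_pow (by omega)]

end var

section abs

variable {X : Type*} [MeasurableSpace X] {κ ι' : Type} [Fintype κ] [Fintype ι']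

theorem tower_abs2 (ν : Measure X) [IsProbabilityMeasure ν] (β : Measure (Eu ι')) [IsProbabilityMeasure β]
    (τ : X → Eu κ) (hτ : Measurable τ) (g : X → ℝ) (hg : Measurable g) (hg0 : ∀ t, 0 ≤ g t)
    (J : Eu ι' →ₗᵢ[ℝ] Eu κ) (b : Eu ι') (hbar : ∫ y, y ∂β = b) (R : ℝ) (hR : 0 ≤ R)
    (hτR : ∀ᵐ t ∂ν, ‖τ t‖ ≤ R) (hgR : ∀ᵐ t ∂ν, |g t| ≤ R) (hyR : ∀ᵐ y ∂β, ‖y‖ ≤ R)
    (k : ℝ) (hk : VarKLS β k) (hE : 0 < ∫ t, g t ^ 2 ∂ν)
    (k' : ℝ) (hν : VarKLS (Measure.map τ ν) k')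
    (δ : ℝ) (hδ : 0 ≤ δ)
    (hvg : ∫ t, g t ^ 2 ∂ν - (∫ t, g t ∂ν) ^ 2 ≤ δ * ∫ t, g t ^ 2 ∂ν) :
    VarKLS (Measure.map (GG τ g J b) (ν.prod β)) (k + 2 * k' + 2 * Fintype.card ι' * δ) := by
  intro s hs hcov f hf hf1
  have hGm := GG_meas hτ hg J b
  have hGb := GG_bdd (β := β) J b hR hτR hgR hyR
  have hbm : ∀ {u : Eu κ → ℝ}, Measurable u → ProbabilityTheory.variance u
      (Measure.map (GG τ g J b) (ν.prod β)) =
      ProbabilityTheory.variance (fun z => u (GG τ g J b z)) (ν.prod β) := fun {u} hu =>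
    ProbabilityTheory.variance_map hu.aemeasurable hGm.aemeasurable
  have hbτ : ∀ {u : Eu κ → ℝ}, Measurable u → ProbabilityTheory.variance u
      (Measure.map τ ν) = ProbabilityTheory.variance (fun t => u (τ t)) ν := fun {u} hu =>
    ProbabilityTheory.variance_map hu.aemeasurable hτ.aemeasurable
  obtain ⟨A, hA⟩ : ∃ A : ℝ, A = ∫ t, g t ^ 2 ∂ν := ⟨_, rfl⟩
  have hlin : ∀ θ : Eu κ, ProbabilityTheory.variance (fun t => ⟪θ, τ t⟫_ℝ) ν +
      A * ProbabilityTheory.variance (fun y => ⟪θ, J y⟫_ℝ) β ≤ s * ‖θ‖ ^ 2 := by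
    intro θ
    have h1 := lin_part ν β τ hτ g hg J b R hR hτR hgR hyR hbar θ
    rw [← hA] at h1
    refine h1.trans ?_
    have h2 := hcov θ
    have h3 : ProbabilityTheory.variance (fun x : Eu κ => ⟪θ, x⟫_ℝ)
        (Measure.map (GG τ g J b) (ν.prod β)) ≤ s * ‖θ‖ ^ 2 := by
      unfold ProbabilityTheory.variance
      exact ENNReal.toReal_le_of_le_ofReal (by positivity) h2
    rw [hbm (by fun_prop)] at h3
    exact h3
  have hA0 : 0 < A := hA ▸ hE
  have hcovν : CovLe (Measure.map τ ν) s := by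
    intro θ
    have hm : MemLp (fun x : Eu κ => ⟪θ, x⟫_ℝ) 2 (Measure.map τ ν) := by
      rw [memLp_map_measure_iff (Measurable.aestronglyMeasurable (by fun_prop)) hτ.aemeasurable]
      exact memLp_bdd ((continuous_const.inner continuous_id).measurable.comp hτ) (‖θ‖ * R)
        (hτR.mono fun t ht => (abs_real_inner_le_norm _ _).trans
          (mul_le_mul_of_nonneg_left ht (norm_nonneg _)))
    have hp : IsProbabilityMeasure (Measure.map τ ν) := Measure.isProbabilityMeasure_map hτ.aemeasurable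
    rw [← hm.ofReal_variance_eq, hbτ (by fun_prop)]
    refine ENNReal.ofReal_le_ofReal ?_
    have h1 := hlin θ
    have h2 : 0 ≤ A * ProbabilityTheory.variance (fun y => ⟪θ, J y⟫_ℝ) β :=
      mul_nonneg hA0.le (ProbabilityTheory.variance_nonneg _ _)
    linarith
  have hτ2 : ∀ u : Eu κ → ℝ, ContDiff ℝ 1 u → (∀ x, ‖fderiv ℝ u x‖ ≤ 1) →
      ProbabilityTheory.variance (fun t => u (τ t)) ν ≤ k' * s := by
    intro u hu hu1
    rw [← hbτ hu.continuous.measurable]
    exact (hν s hs hcovν u hu hu1).2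
  have hβ : ∀ φ : Eu ι', ProbabilityTheory.variance (fun y : Eu ι' => ⟪φ, y⟫_ℝ) β ≤
      s / A * ‖φ‖ ^ 2 := by
    intro φ
    have h1 := hlin (J φ)
    have h2 := ProbabilityTheory.variance_nonneg (fun t => ⟪J φ, τ t⟫_ℝ) ν
    simp only [J.inner_map_map, J.norm_map] at h1
    rw [div_mul_eq_mul_div, le_div_iff₀ hA0]
    linarith
  have hcovβ : CovLe β (s / A) := by
    intro φ
    have hm : MemLp (fun y : Eu ι' => ⟪φ, y⟫_ℝ) 2 β :=
      memLp_bdd (by fun_prop) (‖φ‖ * R) (hyR.mono fun y hy =>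
        (abs_real_inner_le_norm _ _).trans (mul_le_mul_of_nonneg_left hy (norm_nonneg _)))
    rw [← hm.ofReal_variance_eq]
    exact ENNReal.ofReal_le_ofReal (hβ φ)
  have hM2 : ∫ y, ‖y - b‖ ^ 2 ∂β ≤ Fintype.card ι' * (s / A) := by
    have h1 := second_moment_le β (fun y : Eu ι' => y) measurable_id R hyR ⊤ 0
      (Eventually.of_forall fun y => Submodule.mem_top) (s / A) (fun e he => by
        have := hβ e
        rw [he] at this
        linarith)
    rw [hbar] at h1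
    rw [finrank_top, finrank_euclideanSpace] at h1
    exact h1
  have hfm : MemLp f 2 (Measure.map (GG τ g J b) (ν.prod β)) := by
    have hb' : ∀ᵐ x ∂(Measure.map (GG τ g J b) (ν.prod β)), ‖x‖ ≤ R + R * (R + ‖b‖) := by
      rw [ae_map_iff hGm.aemeasurable (measurableSet_le (by fun_prop) (by fun_prop))]
      exact hGb
    have : IsProbabilityMeasure (Measure.map (GG τ g J b) (ν.prod β)) :=
      Measure.isProbabilityMeasure_map hGm.aemeasurable
    refine memLp_bdd hf.continuous.measurable (|f 0| + (R + R * (R + ‖b‖))) (hb'.mono fun x hx => ?_)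
    have h1 := lip_of hf hf1 x 0
    rw [sub_zero] at h1
    have h2 : |f x| ≤ |f 0| + |f x - f 0| := by
      have := abs_add_le (f 0) (f x - f 0)
      rwa [add_sub_cancel] at this
    linarith
  refine ⟨hfm, ?_⟩
  rw [hbm hf.continuous.measurable]
  rw [hA] at hcovβ hM2
  exact lip_part2 ν β τ hτ g hg hg0 J b R hR hτR hgR hyR k hk s hs hE hcovβ (Fintype.card ι')
    k' δ hδ hM2 hτ2 hvg f hf hf1

end abs

section lift

variable {ι ι' : Type} [Fintype ι] [Fintype ι']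

/-- the first component as a linear isometry -/
noncomputable def inl' : Eu ι →ₗᵢ[ℝ] Eu (ι ⊕ ι') where
  toFun v := jn (v, 0)
  map_add' x y := by
    rw [← jn_add]
    simp
  map_smul' r x := by
    rw [RingHom.id_apply, ← jn_smul]
    simp
  norm_map' x := by
    have h1 := norm_jn (x, (0 : Eu ι'))
    simp only [norm_zero, ne_eq, OfNat.ofNat_ne_zero, not_false_eq_true, zero_pow, add_zero] at h1
    exact (sq_eq_sq₀ (norm_nonneg _) (norm_nonneg _)).1 h1

theorem inl'_apply (v : Eu ι) : inl' (ι' := ι') v = jn (v, 0) := rfl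

/-- a linear isometry preserves `VarKLS` -/
theorem VarKLS_map {κ : Type} [Fintype κ] (J : Eu ι →ₗᵢ[ℝ] Eu κ) (ν : Measure (Eu ι)) (k : ℝ)
    (h : VarKLS ν k) : VarKLS (Measure.map J ν) k := by
  intro s hs hcov f hf hf1
  have hJm : Measurable J := J.continuous.measurable
  have hc : CovLe ν s := by
    intro θ
    have h1 := hcov (J θ)
    rw [J.norm_map] at h1
    have h2 : ProbabilityTheory.evariance (fun x : Eu κ => ⟪J θ, x⟫_ℝ) (Measure.map J ν) =
        ProbabilityTheory.evariance (fun x : Eu ι => ⟪θ, x⟫_ℝ) ν := by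
      unfold ProbabilityTheory.evariance
      rw [lintegral_map (by fun_prop) hJm, integral_map hJm.aemeasurable
        (Measurable.aestronglyMeasurable (by fun_prop))]
      simp only [J.inner_map_map]
    rwa [h2] at h1
  have hfJ : ContDiff ℝ 1 (fun x => f (J x)) := hf.comp J.toContinuousLinearMap.contDiff
  obtain ⟨h1, h2⟩ := h s hs hc (fun x => f (J x)) hfJ (fun x => by
    have hL : LipschitzWith 1 (fun x => f (J x)) := LipschitzWith.of_dist_le_mul fun y z => by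
      rw [Real.dist_eq, dist_eq_norm, NNReal.coe_one, one_mul]
      refine (lip_of hf hf1 (J y) (J z)).trans (le_of_eq ?_)
      rw [← map_sub, J.norm_map]
    have := norm_fderiv_le_of_lipschitz ℝ (x₀ := x) hL
    simpa using this)
  refine ⟨?_, ?_⟩
  · rw [memLp_map_measure_iff hf.continuous.aestronglyMeasurable hJm.aemeasurable]
    exact h1
  · rw [ProbabilityTheory.variance_map hf.continuous.measurable.aemeasurable hJm.aemeasurable]
    exact h2

end lift

end Pool.Agent.V11317.NC
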