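import Pool.Agent.V11317.NC.Sum3

/-!
# Direct sums: the theorem
-/

set_option autoImplicit false

namespace Pool.Agent.V11317.NC

open MeasureTheory Set Filter Topology
open scoped ENNReal InnerProductSpace Pointwise
open Pool.Agent.W695.KH (Eu)
open Pool.Agent.V11298.KD (CovLe VarKLS)

variable {ι ι' : Type} [Fintype ι] [Fintype ι']

theorem rgt_cont : Continuous (rgt : Eu (ι ⊕ ι') → Eu ι') := by
  unfold rgt
  refine (PiLp.continuous_toLp 2 _).comp (continuous_pi fun i => ?_)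
  fun_prop

/-- exchange of the components -/
noncomputable def sw (z : Eu (ι ⊕ ι')) : Eu (ι' ⊕ ι) := jn (rgt z, lft z)

theorem sw_sw (z : Eu (ι ⊕ ι')) : sw (sw z) = z := jn_lr z

theorem sw_cont : Continuous (sw : Eu (ι ⊕ ι') → Eu (ι' ⊕ ι)) :=
  jn_cont.comp (rgt_cont.prodMk lft_cont)

theorem sw_mp : MeasurePreserving (sw : Eu (ι ⊕ ι') → Eu (ι' ⊕ ι)) volume volume := by
  refine ⟨sw_cont.measurable, ?_⟩
  have h1 := (jn_mp (ι := ι) (ι' := ι')).map_eq
  have h2 := (jn_mp (ι := ι') (ι' := ι)).map_eq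
  rw [← h1, Measure.map_map sw_cont.measurable jn_cont.measurable]
  have e : (sw ∘ jn : Eu ι × Eu ι' → Eu (ι' ⊕ ι)) = jn ∘ Prod.swap := by
    funext z
    rfl
  rw [e, ← Measure.map_map jn_cont.measurable measurable_swap, Measure.prod_swap, h2]

/-- the swapped body -/
theorem map_sw (K : Set (Eu (ι ⊕ ι'))) (hK : MeasurableSet K) :
    Measure.map sw ((volume (sw ⁻¹' K : Set (Eu (ι' ⊕ ι))))⁻¹ •
      volume.restrict (sw ⁻¹' K : Set (Eu (ι' ⊕ ι)))) = (volume K)⁻¹ • volume.restrict K := by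
  have h1 : MeasurePreserving (sw : Eu (ι' ⊕ ι) → Eu (ι ⊕ ι')) (volume.restrict (sw ⁻¹' K))
      (volume.restrict K) := sw_mp.restrict_preimage hK
  rw [Measure.map_smul, h1.map_eq, sw_mp.measure_preimage hK.nullMeasurableSet]

/-- boundedness of the data -/
theorem prep [Nonempty ι'] (B : Set (Eu ι')) (hBi : (interior B).Nonempty)
    (D : Set (Eu ι)) (g : Eu ι → ℝ) (hg0 : ∀ t ∈ D, 0 ≤ g t)
    (K : Set (Eu (ι ⊕ ι'))) (hKc : IsCompact K)
    (hK : ∀ z, z ∈ K ↔ lft z ∈ D ∧ ∃ y ∈ B, rgt z = g (lft z) • y) :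
    MeasurableSet D ∧ ∃ R : ℝ, 0 ≤ R ∧ (∀ t ∈ D, ‖t‖ ≤ R) ∧ ∀ t ∈ D, g t ≤ R := by
  obtain ⟨y0, hy0⟩ : ∃ y0, y0 ∈ interior B := hBi
  obtain ⟨y1, hy1, hne⟩ : ∃ y1 ∈ B, y1 ≠ y0 := by
    have h2 : interior B ∈ 𝓝 y0 := isOpen_interior.mem_nhds hy0
    have h3 : interior B ∩ {y0}ᶜ ∈ 𝓝[≠] y0 := inter_mem (mem_nhdsWithin_of_mem_nhds h2)
      self_mem_nhdsWithin
    have h4 := Module.punctured_nhds_neBot ℝ (Eu ι') y0
    obtain ⟨y, hy, hyn⟩ := Filter.nonempty_of_mem h3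
    exact ⟨y, interior_subset hy, hyn⟩
  have hyB := interior_subset hy0
  have hpt : ∀ t ∈ D, ∀ y ∈ B, jn (t, g t • y) ∈ K := fun t ht y hy => by
    rw [hK]
    exact ⟨ht, y, hy, rfl⟩
  have hDK : D = lft '' K := by
    ext t
    constructor
    · intro ht
      exact ⟨_, hpt t ht y0 hyB, rfl⟩
    · rintro ⟨z, hz, rfl⟩
      exact ((hK z).1 hz).1
  have hDc : IsCompact D := by
    rw [hDK]
    exact hKc.image lft_cont
  obtain ⟨R0, hR0⟩ := hKc.isBounded.exists_norm_le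
  have hd : 0 < ‖y1 - y0‖ := norm_pos_iff.2 (sub_ne_zero.2 hne)
  obtain ⟨R1, hR1⟩ : ∃ R1 : ℝ, R1 = 2 * max R0 0 / ‖y1 - y0‖ := ⟨_, rfl⟩
  have hR1' : 0 ≤ R1 := by rw [hR1]; positivity
  have hm0 : 0 ≤ max R0 0 := le_max_right _ _
  refine ⟨hDc.measurableSet, max R0 0 + R1, by positivity, ?_, ?_⟩
  · intro t ht
    have h2 := hR0 _ (hpt t ht y0 hyB)
    have h3 := (norm_lft_le (jn (t, g t • y0))).trans (h2.trans (le_max_left R0 0))
    rw [lft_jn] at h3
    linarith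
  · intro t ht
    have h0 : g t ≤ R1 := by
      rw [hR1, le_div_iff₀ hd]
      have h1 := hR0 _ (hpt t ht y1 hy1)
      have h2 := hR0 _ (hpt t ht y0 hyB)
      have h3 : rgt (jn (t, g t • y1)) - rgt (jn (t, g t • y0)) = g t • (y1 - y0) := by
        rw [rgt_jn, rgt_jn, smul_sub]
      have h4 : g t * ‖y1 - y0‖ = ‖g t • (y1 - y0)‖ := by
        rw [norm_smul, Real.norm_eq_abs, abs_of_nonneg (hg0 t ht)]
      rw [h4, ← h3]
      refine (norm_sub_le _ _).trans ?_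
      have h5 := (norm_rgt_le (jn (t, g t • y1))).trans (h1.trans (le_max_left R0 0))
      have h6 := (norm_rgt_le (jn (t, g t • y0))).trans (h2.trans (le_max_left R0 0))
      linarith
    linarith

/-- the representation of the uniform measure on a body whose sections are the multiples `g(t) B` -/
theorem repr [Nonempty ι'] (B : Set (Eu ι')) (hB : IsCompact B) (hBi : (interior B).Nonempty)
    (D : Set (Eu ι)) (g : Eu ι → ℝ) (hg : Measurable g) (hg0 : ∀ t ∈ D, 0 ≤ g t) (hgc : ConcaveOn ℝ D g)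
    (K : Set (Eu (ι ⊕ ι'))) (hKc : IsCompact K) (hK0 : volume K ≠ 0)
    (hK : ∀ z, z ∈ K ↔ lft z ∈ D ∧ ∃ y ∈ B, rgt z = g (lft z) • y) :
    ∃ (ν : Measure (Eu ι)) (g' : Eu ι → ℝ) (R : ℝ), IsProbabilityMeasure ν ∧ Measurable g' ∧
      (∀ t, 0 ≤ g' t) ∧ 0 ≤ R ∧ (∀ᵐ t ∂ν, ‖t‖ ≤ R) ∧ (∀ᵐ t ∂ν, |g' t| ≤ R) ∧ 0 < ∫ t, g' t ^ 2 ∂ν ∧
      ∫ t, g' t ^ 2 ∂ν - (∫ t, g' t ∂ν) ^ 2 ≤
        2 / ((Fintype.card ι' : ℝ) + 2) * ∫ t, g' t ^ 2 ∂ν ∧
      Measure.map (fun z : Eu ι × Eu ι' => jn (z.1, g' z.1 • z.2))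
        (ν.prod ((volume B)⁻¹ • volume.restrict B)) = (volume K)⁻¹ • volume.restrict K := by
  obtain ⟨hDm, R, hR, hDR, hgR⟩ := prep B hBi D g hg0 K hKc hK
  have hvB : volume B ≠ 0 := (Measure.measure_pos_of_nonempty_interior volume hBi).ne'
  have hvB' : volume B ≠ ⊤ := hB.measure_lt_top.ne
  obtain ⟨g', hg'⟩ : ∃ g' : Eu ι → ℝ, g' = D.indicator g := ⟨_, rfl⟩
  have hgg : EqOn g g' D := fun t ht => by rw [hg', indicator_of_mem ht]
  have hg'm : Measurable g' := by rw [hg']; exact hg.indicator hDm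
  have hg'0 : ∀ t, 0 ≤ g' t := fun t => by
    rw [hg']; exact indicator_nonneg (fun t ht => hg0 t ht) t
  have hg'c : ConcaveOn ℝ D g' := hgc.congr hgg
  have hbody : body B D (fun _ => 0) g' 0 = K := by
    ext z
    rw [hK]
    unfold body
    rw [mem_ofPred_eq]
    refine and_congr_right fun hz => ?_
    refine exists_congr fun y => and_congr_right fun _ => ?_
    rw [← hgg hz, sub_zero, zero_add]
  obtain ⟨n, hn⟩ : ∃ n : ℕ, n = Fintype.card ι' := ⟨_, rfl⟩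
  have hn1 : 1 ≤ n := by
    rw [hn]
    exact Fintype.card_pos
  have hKm : MeasurableSet (body B D (fun _ => 0) g' 0) := by
    rw [hbody]
    exact hKc.measurableSet
  have hvb := vol_body B D hDm (fun _ => 0) g' hg'm 0 hKm
  rw [← hn] at hvb
  have hpos : mass D g' n ≠ 0 := by
    intro h
    rw [h, zero_mul, hbody] at hvb
    exact hK0 hvb
  obtain ⟨hfin, hp, hae, hE⟩ := law_facts D hDm g' hg'm hg'0 R hDR
    (fun t ht => by rw [← hgg ht]; exact hgR t ht) n hn1 hpos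
  refine ⟨lawD D g' n, g', R, hp, hg'm, hg'0, hR, hae.mono hDR, hae.mono fun t ht => ?_, hE, ?_, ?_⟩
  · rw [abs_of_nonneg (hg'0 t), ← hgg ht]
    exact hgR t ht
  · rw [← hn]
    exact var_g2 D hDm g' hg'm hg'0 hg'c n hn1 hfin hpos
  · have hlaw := map_law B hB.measurableSet hvB hvB' D hDm (fun _ => 0) measurable_const g' hg'm 0 hKm
      (hn ▸ hpos) (hfin _)
    rw [hbody, ← hn] at hlaw
    rw [← hlaw]
    congr 1
    funext z
    unfold pr
    rw [sub_zero, zero_add]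

/-- **Direct sums.** -/
theorem sum [Nonempty ι] [Nonempty ι'] (B1 : Set (Eu ι)) (h1c : IsCompact B1)
    (h1i : (interior B1).Nonempty) (h1b : ∫ x in B1, x = 0) (B2 : Set (Eu ι')) (h2c : IsCompact B2)
    (h2i : (interior B2).Nonempty) (h2b : ∫ x in B2, x = 0) (k1 k2 : ℝ)
    (hk1 : VarKLS ((volume B1)⁻¹ • volume.restrict B1) k1)
    (hk2 : VarKLS ((volume B2)⁻¹ • volume.restrict B2) k2)
    (D1 : Set (Eu ι)) (g1 : Eu ι → ℝ) (hg1 : Measurable g1) (hg10 : ∀ t ∈ D1, 0 ≤ g1 t)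
    (hg1c : ConcaveOn ℝ D1 g1) (D2 : Set (Eu ι')) (g2 : Eu ι' → ℝ) (hg2 : Measurable g2)
    (hg20 : ∀ t ∈ D2, 0 ≤ g2 t) (hg2c : ConcaveOn ℝ D2 g2)
    (K : Set (Eu (ι ⊕ ι'))) (hKc : IsCompact K) (hKi : (interior K).Nonempty)
    (hK1 : ∀ z, z ∈ K ↔ lft z ∈ D1 ∧ ∃ y ∈ B2, rgt z = g1 (lft z) • y)
    (hK2 : ∀ z, z ∈ K ↔ rgt z ∈ D2 ∧ ∃ x ∈ B1, lft z = g2 (rgt z) • x) :
    VarKLS ((volume K)⁻¹ • volume.restrict K) (k2 + 2 * k1 + 12) := by
  have hK0 : volume K ≠ 0 := (Measure.measure_pos_of_nonempty_interior volume hKi).ne'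
  obtain ⟨β1, hβ1⟩ : ∃ β : Measure (Eu ι), β = (volume B1)⁻¹ • volume.restrict B1 := ⟨_, rfl⟩
  obtain ⟨β2, hβ2⟩ : ∃ β : Measure (Eu ι'), β = (volume B2)⁻¹ • volume.restrict B2 := ⟨_, rfl⟩
  have hp1 : IsProbabilityMeasure β1 := prob B1 h1c h1i β1 hβ1
  have hp2 : IsProbabilityMeasure β2 := prob B2 h2c h2i β2 hβ2
  have hbar1 : ∫ y, y ∂β1 = 0 := by rw [hβ1, integral_smul_measure, h1b, smul_zero]
  have hbar2 : ∫ y, y ∂β2 = 0 := by rw [hβ2, integral_smul_measure, h2b, smul_zero]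
  have hbdd : ∀ {κ : Type} [Fintype κ] (B : Set (Eu κ)), IsCompact B →
      ∃ R', 0 ≤ R' ∧ ∀ᵐ y ∂((volume B)⁻¹ • volume.restrict B), ‖y‖ ≤ R' := by
    intro κ _ B hB
    obtain ⟨R', hR'⟩ := hB.isBounded.exists_norm_le
    refine ⟨max R' 0, le_max_right _ _, ?_⟩
    refine Measure.smul_absolutelyContinuous.ae_le ?_
    filter_upwards [ae_restrict_mem hB.measurableSet] with y hy
    exact (hR' y hy).trans (le_max_left _ _)
  obtain ⟨R1, hR1, hb1⟩ := hbdd B1 h1c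
  obtain ⟨R2, hR2, hb2⟩ := hbdd B2 h2c
  rw [← hβ1] at hb1 hk1
  rw [← hβ2] at hb2 hk2
  -- the two representations
  obtain ⟨ν1, γ1, S1, hν1, hγ1m, hγ10, hS1, hν1S, hγ1S, hγ1E, hγ1v, hlaw1⟩ :=
    repr B2 h2c h2i D1 g1 hg1 hg10 hg1c K hKc hK0 hK1
  have hKm := hKc.measurableSet
  have hK'0 : volume (sw ⁻¹' K : Set (Eu (ι' ⊕ ι))) ≠ 0 := by
    rw [sw_mp.measure_preimage hKm.nullMeasurableSet]
    exact hK0
  have hK'c : IsCompact (sw ⁻¹' K : Set (Eu (ι' ⊕ ι))) := by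
    have e : (sw ⁻¹' K : Set (Eu (ι' ⊕ ι))) = sw '' K := by
      ext z
      constructor
      · intro hz
        exact ⟨sw z, hz, sw_sw z⟩
      · rintro ⟨w, hw, rfl⟩
        rw [mem_preimage, sw_sw]
        exact hw
    rw [e]
    exact hKc.image sw_cont
  obtain ⟨ν2, γ2, S2, hν2, hγ2m, hγ20, hS2, hν2S, hγ2S, hγ2E, hγ2v, hlaw2⟩ :=
    repr B1 h1c h1i D2 g2 hg2 hg20 hg2c (sw ⁻¹' K : Set (Eu (ι' ⊕ ι))) hK'c hK'0 (fun z => by
      rw [mem_preimage, hK2]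
      rfl)
  rw [← hβ2] at hlaw1
  rw [← hβ1] at hlaw2
  -- the law of the first component
  have hν1eq : ν1 = Measure.map (GG (fun _ : Eu ι' => (0 : Eu ι)) γ2 LinearIsometry.id 0)
      (ν2.prod β1) := by
    have hm1 : Measurable fun z : Eu ι × Eu ι' => jn (z.1, γ1 z.1 • z.2) :=
      jn_cont.measurable.comp (measurable_fst.prodMk ((hγ1m.comp measurable_fst).smul measurable_snd))
    have hm2 : Measurable fun z : Eu ι' × Eu ι => jn (z.1, γ2 z.1 • z.2) :=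
      jn_cont.measurable.comp (measurable_fst.prodMk ((hγ2m.comp measurable_fst).smul measurable_snd))
    have e1 : Measure.map lft ((volume K)⁻¹ • volume.restrict K) = ν1 := by
      rw [← hlaw1, Measure.map_map lft_cont.measurable hm1]
      have e2 : (lft ∘ fun z : Eu ι × Eu ι' => jn (z.1, γ1 z.1 • z.2)) = Prod.fst := by
        funext z
        rfl
      rw [e2]
      have h := Measure.fst_prod (μ := ν1) (ν := β2)
      exact h
    rw [← e1, ← map_sw K hKm, ← hlaw2, Measure.map_map lft_cont.measurable sw_cont.measurable,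
      Measure.map_map (lft_cont.comp sw_cont).measurable hm2]
    congr 1
    funext z
    unfold GG
    simp only [Function.comp_apply, sub_zero, zero_add]
    rfl
  -- the law of the first component satisfies the inequality
  have hν1k : VarKLS ν1 (k1 + 4) := by
    have h := tower_abs ν2 β1 (fun _ => (0 : Eu ι)) measurable_const γ2 hγ2m hγ20 LinearIsometry.id 0
      hbar1 (S2 + R1) (by positivity) (Eventually.of_forall fun t => by
        rw [norm_zero]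
        positivity) (hγ2S.mono fun t ht => by linarith) (hb1.mono fun t ht => by linarith) k1 hk1 hγ2E ⊥ 0
      (Eventually.of_forall fun t => by simp) _ (by positivity) hγ2v
    rw [← hν1eq] at h
    refine VarKLS_mono ?_ h
    rw [finrank_bot]
    have h1 : 2 * (Fintype.card ι : ℝ) * (2 / ((Fintype.card ι : ℝ) + 2)) ≤ 4 := by
      rw [mul_div_assoc', div_le_iff₀ (by positivity)]
      have : (0 : ℝ) ≤ Fintype.card ι := by positivity
      linarith
    push_cast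
    linarith
  have hν1k' := VarKLS_map (inl' (ι := ι) (ι' := ι')) ν1 (k1 + 4) hν1k
  have hτm : Measurable (inl' (ι := ι) (ι' := ι')) := inl'.continuous.measurable
  have key := tower_abs2 ν1 β2 (inl' (ι := ι) (ι' := ι')) hτm γ1 hγ1m hγ10 inr' 0 hbar2 (S1 + R2)
    (by positivity) (hν1S.mono fun t ht => by
      rw [inl'.norm_map]
      linarith) (hγ1S.mono fun t ht => by linarith) (hb2.mono fun t ht => by linarith) k2 hk2 hγ1E
    (k1 + 4) hν1k' _ (by positivity) hγ1v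
  have e3 : GG (inl' (ι := ι) (ι' := ι')) γ1 inr' 0 = fun z : Eu ι × Eu ι' => jn (z.1, γ1 z.1 • z.2) := by
    funext z
    unfold GG
    rw [inl'_apply, inr'_apply, ← jn_smul, ← jn_add]
    simp
  rw [e3, hlaw1] at key
  refine VarKLS_mono ?_ key
  have h1 : 2 * (Fintype.card ι' : ℝ) * (2 / ((Fintype.card ι' : ℝ) + 2)) ≤ 4 := by
    rw [mul_div_assoc', div_le_iff₀ (by positivity)]
    have : (0 : ℝ) ≤ Fintype.card ι' := by positivity
    linarith
  linarith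

end Pool.Agent.V11317.NC
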