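import Pool.Agent.V11317.NC.Sum4

/-!
# Direct sums: the theorem in terms of sections
-/

set_option autoImplicit false

namespace Pool.Agent.V11317.NC

open MeasureTheory Set Filter Topology
open scoped ENNReal InnerProductSpace Pointwise
open Pool.Agent.W695.KH (Eu)
open Pool.Agent.V11298.KD (CovLe VarKLS)

variable {ι ι' : Type} [Fintype ι] [Fintype ι']

theorem sec_fun [Nonempty ι'] (B : Set (Eu ι')) (hB : IsCompact B) (hBi : (interior B).Nonempty)
    (K : Set (Eu (ι ⊕ ι'))) (hKv : Convex ℝ K) (hKm : MeasurableSet K)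
    (hS : ∀ x : Eu ι, (∃ y, jn (x, y) ∈ K) → ∃ r : ℝ, 0 ≤ r ∧ {y : Eu ι' | jn (x, y) ∈ K} = r • B) :
    ∃ (D : Set (Eu ι)) (g : Eu ι → ℝ), Measurable g ∧ (∀ t ∈ D, 0 ≤ g t) ∧ ConcaveOn ℝ D g ∧
      ∀ z, z ∈ K ↔ lft z ∈ D ∧ ∃ y ∈ B, rgt z = g (lft z) • y := by
  have hvB : volume B ≠ 0 := (Measure.measure_pos_of_nonempty_interior volume hBi).ne'
  have hvB' : volume B ≠ ⊤ := hB.measure_lt_top.ne
  have hV : 0 < (volume B).toReal := ENNReal.toReal_pos hvB hvB'
  obtain ⟨n, hn⟩ : ∃ n : ℕ, n = Fintype.card ι' := ⟨_, rfl⟩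
  have hn0 : n ≠ 0 := by
    rw [hn]
    exact Fintype.card_ne_zero
  obtain ⟨D, hD⟩ : ∃ D : Set (Eu ι), D = {x | ∃ y, jn (x, y) ∈ K} := ⟨_, rfl⟩
  obtain ⟨g, hg⟩ : ∃ g : Eu ι → ℝ, g = fun x =>
    ((volume {y : Eu ι' | jn (x, y) ∈ K}).toReal / (volume B).toReal) ^ (1 / (n : ℝ)) := ⟨_, rfl⟩
  have hgm : Measurable g := by
    rw [hg]
    have h1 : MeasurableSet (jn ⁻¹' K : Set (Eu ι × Eu ι')) := jn_cont.measurable hKm
    have h2 := measurable_measure_prodMk_left (ν := (volume : Measure (Eu ι'))) h1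
    exact (h2.ennreal_toReal.div_const _).pow_const _
  have hgr : ∀ (x : Eu ι) (r : ℝ), 0 ≤ r → {y : Eu ι' | jn (x, y) ∈ K} = r • B → g x = r := by
    intro x r hr h
    rw [hg]
    simp only
    rw [h, Measure.addHaar_smul, finrank_euclideanSpace, ← hn, abs_of_nonneg (pow_nonneg hr _),
      ENNReal.toReal_mul, ENNReal.toReal_ofReal (pow_nonneg hr _), mul_div_assoc, div_self hV.ne',
      mul_one, one_div]
    exact Real.pow_rpow_inv_natCast hr hn0
  have hsec : ∀ x ∈ D, 0 ≤ g x ∧ {y : Eu ι' | jn (x, y) ∈ K} = g x • B := by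
    intro x hx
    rw [hD] at hx
    obtain ⟨r, hr, h⟩ := hS x hx
    rw [hgr x r hr h]
    exact ⟨hr, h⟩
  refine ⟨D, g, hgm, fun t ht => (hsec t ht).1, ?_, ?_⟩
  · have hcomb : ∀ (x x' : Eu ι) (y y' : Eu ι') (a b : ℝ), jn (x, y) ∈ K → jn (x', y') ∈ K → 0 ≤ a →
        0 ≤ b → a + b = 1 → jn (a • x + b • x', a • y + b • y') ∈ K := by
      intro x x' y y' a b h1 h2 ha hb hab
      have h3 := hKv h1 h2 ha hb hab
      rwa [← jn_smul, ← jn_smul, ← jn_add] at h3
    refine ⟨?_, ?_⟩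
    · intro x hx x' hx' a b ha hb hab
      rw [hD] at hx hx' ⊢
      obtain ⟨y, hy⟩ := hx
      obtain ⟨y', hy'⟩ := hx'
      exact ⟨_, hcomb x x' y y' a b hy hy' ha hb hab⟩
    · intro x hx x' hx' a b ha hb hab
      obtain ⟨h1, h2⟩ := hsec x hx
      obtain ⟨h1', h2'⟩ := hsec x' hx'
      have hm : a • x + b • x' ∈ D := by
        rw [hD] at hx hx' ⊢
        obtain ⟨y, hy⟩ := hx
        obtain ⟨y', hy'⟩ := hx'
        exact ⟨_, hcomb x x' y y' a b hy hy' ha hb hab⟩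
      obtain ⟨h3, h4⟩ := hsec _ hm
      have hc : 0 ≤ a * g x + b * g x' := by positivity
      have hsub : (a * g x + b * g x') • B ⊆ g (a • x + b • x') • B := by
        rw [← h4]
        rintro _ ⟨y, hy, rfl⟩
        have h5 : jn (x, g x • y) ∈ K := by
          have : g x • y ∈ {y : Eu ι' | jn (x, y) ∈ K} := by
            rw [h2]
            exact smul_mem_smul_set hy
          exact this
        have h6 : jn (x', g x' • y) ∈ K := by
          have : g x' • y ∈ {y : Eu ι' | jn (x', y) ∈ K} := by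
            rw [h2']
            exact smul_mem_smul_set hy
          exact this
        have h7 := hcomb x x' _ _ a b h5 h6 ha hb hab
        rw [smul_smul, smul_smul, ← add_smul] at h7
        exact h7
      have hvol := measure_mono (μ := volume) hsub
      rw [Measure.addHaar_smul, Measure.addHaar_smul, finrank_euclideanSpace, ← hn,
        abs_of_nonneg (pow_nonneg hc _), abs_of_nonneg (pow_nonneg h3 _)] at hvol
      have h8 := (ENNReal.mul_le_mul_iff_left hvB hvB').1 hvol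
      rw [ENNReal.ofReal_le_ofReal_iff (pow_nonneg h3 _)] at h8
      have h9 := (pow_le_pow_iff_left₀ hc h3 hn0).1 h8
      simpa using h9
  · intro z
    constructor
    · intro hz
      have hx : lft z ∈ D := by
        rw [hD]
        exact ⟨rgt z, by rw [jn_lr]; exact hz⟩
      obtain ⟨h1, h2⟩ := hsec _ hx
      have h3 : rgt z ∈ g (lft z) • B := by
        rw [← h2]
        change jn (lft z, rgt z) ∈ K
        rw [jn_lr]
        exact hz
      obtain ⟨y, hy, he⟩ := h3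
      exact ⟨hx, y, hy, he.symm⟩
    · rintro ⟨hx, y, hy, he⟩
      obtain ⟨h1, h2⟩ := hsec _ hx
      have h3 : rgt z ∈ {y : Eu ι' | jn (lft z, y) ∈ K} := by
        rw [h2, he]
        exact smul_mem_smul_set hy
      have h4 : jn (lft z, rgt z) ∈ K := h3
      rwa [jn_lr] at h4

/-- **Direct sums, in terms of sections.** -/
theorem sum_sections [Nonempty ι] [Nonempty ι'] (B1 : Set (Eu ι)) (h1c : IsCompact B1)
    (h1i : (interior B1).Nonempty) (h1b : ∫ x in B1, x = 0) (B2 : Set (Eu ι')) (h2c : IsCompact B2)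
    (h2i : (interior B2).Nonempty) (h2b : ∫ x in B2, x = 0) (k1 k2 : ℝ)
    (hk1 : VarKLS ((volume B1)⁻¹ • volume.restrict B1) k1)
    (hk2 : VarKLS ((volume B2)⁻¹ • volume.restrict B2) k2)
    (K : Set (Eu (ι ⊕ ι'))) (hKv : Convex ℝ K) (hKc : IsCompact K) (hKi : (interior K).Nonempty)
    (hS2 : ∀ x : Eu ι, (∃ y, jn (x, y) ∈ K) → ∃ r : ℝ, 0 ≤ r ∧ {y : Eu ι' | jn (x, y) ∈ K} = r • B2)
    (hS1 : ∀ y : Eu ι', (∃ x, jn (x, y) ∈ K) → ∃ r : ℝ, 0 ≤ r ∧ {x : Eu ι | jn (x, y) ∈ K} = r • B1) :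
    VarKLS ((volume K)⁻¹ • volume.restrict K) (k2 + 2 * k1 + 12) := by
  obtain ⟨D1, g1, hg1, hg10, hg1c, hK1⟩ := sec_fun B2 h2c h2i K hKv hKc.measurableSet hS2
  have hKv' : Convex ℝ (sw ⁻¹' K : Set (Eu (ι' ⊕ ι))) := by
    intro z hz w hw a b ha hb hab
    have h1 := hKv hz hw ha hb hab
    rw [mem_preimage]
    have e : sw (a • z + b • w) = a • sw z + b • sw w := by
      ext i
      rcases i with i | i <;> rfl
    rw [e]
    exact h1
  obtain ⟨D2, g2, hg2, hg20, hg2c, hK2⟩ := sec_fun B1 h1c h1i (sw ⁻¹' K : Set (Eu (ι' ⊕ ι))) hKv'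
    (sw_cont.measurable hKc.measurableSet) (fun y hy => hS1 y hy)
  refine sum B1 h1c h1i h1b B2 h2c h2i h2b k1 k2 hk1 hk2 D1 g1 hg1 hg10 hg1c D2 g2 hg2 hg20 hg2c K hKc hKi
    hK1 fun z => ?_
  have h := hK2 (sw z)
  rw [mem_preimage, sw_sw] at h
  exact h

end Pool.Agent.V11317.NC
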