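import Pool.Agent.V11317.NC.Sum5
import Pool.Agent.V11317.NC.Sum6

/-!
# Direct sums of several bodies
-/

set_option autoImplicit false

namespace Pool.Agent.V11317.NC

open MeasureTheory Set Filter Topology
open scoped ENNReal InnerProductSpace Pointwise
open Pool.Agent.W695.KH (Eu)
open Pool.Agent.V11298.KD (CovLe VarKLS)

section abs

variable {X : Type*} [MeasurableSpace X] {κ ι' : Type} [Fintype κ] [Fintype ι']

theorem tower_abs3 (ν : Measure X) [IsProbabilityMeasure ν] (β : Measure (Eu ι')) [IsProbabilityMeasure β]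
    (τ : X → Eu κ) (hτ : Measurable τ) (g : X → ℝ) (hg : Measurable g) (hg0 : ∀ t, 0 ≤ g t)
    (J : Eu ι' →ₗᵢ[ℝ] Eu κ) (b : Eu ι') (hbar : ∫ y, y ∂β = b) (R : ℝ) (hR : 0 ≤ R)
    (hτR : ∀ᵐ t ∂ν, ‖τ t‖ ≤ R) (hgR : ∀ᵐ t ∂ν, |g t| ≤ R) (hyR : ∀ᵐ y ∂β, ‖y‖ ≤ R)
    (k : ℝ) (hk : VarKLS β k) (hE : 0 < ∫ t, g t ^ 2 ∂ν)
    (k' : ℝ) (hν : VarKLS (Measure.map τ ν) k')
    (δ ε : ℝ) (hδ : 0 ≤ δ) (hε : 0 < ε)
    (hvg : ∫ t, g t ^ 2 ∂ν - (∫ t, g t ∂ν) ^ 2 ≤ δ * ∫ t, g t ^ 2 ∂ν) :
    VarKLS (Measure.map (GG τ g J b) (ν.prod β))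
      (k + (1 + ε) * k' + (1 + 1 / ε) * Fintype.card ι' * δ) := by
  intro s hs hcov f hf hf1
  have hGm := GG_meas hτ hg J b
  have hGb := GG_bdd (β := β) J b hR hτR hgR hyR
  have hbm : ∀ {u : Eu κ → ℝ}, Measurable u → ProbabilityTheory.variance u
      (Measure.map (GG τ g J b) (ν.prod β)) =
      ProbabilityTheory.variance (fun z => u (GG τ g J b z)) (ν.prod β) := fun {u} hu =>
    ProbabilityTheory.variance_map hu.aemeasurable hGm.aemeasurable
  have hbτ : ∀ {u : Eu κ → ℝ}, Measurable u → ProbabilityTheory.variance u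
      (Measure.map τ ν) = ProbabilityTheory.variance (fun t => u (τ t)) ν := fun {u} hu =>
    ProbabilityTheory.variance_map hu.aemeasurable hτ.aemeasurable
  obtain ⟨A, hA⟩ : ∃ A : ℝ, A = ∫ t, g t ^ 2 ∂ν := ⟨_, rfl⟩
  have hlin : ∀ θ : Eu κ, ProbabilityTheory.variance (fun t => ⟪θ, τ t⟫_ℝ) ν +
      A * ProbabilityTheory.variance (fun y => ⟪θ, J y⟫_ℝ) β ≤ s * ‖θ‖ ^ 2 := by
    intro θ
    have h1 := lin_part ν β τ hτ g hg J b R hR hτR hgR hyR hbar θ
    rw [← hA] at h1
    refine h1.trans ?_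
    have h2 := hcov θ
    have h3 : ProbabilityTheory.variance (fun x : Eu κ => ⟪θ, x⟫_ℝ)
        (Measure.map (GG τ g J b) (ν.prod β)) ≤ s * ‖θ‖ ^ 2 := by
      unfold ProbabilityTheory.variance
      exact ENNReal.toReal_le_of_le_ofReal (by positivity) h2
    rw [hbm (by fun_prop)] at h3
    exact h3
  have hA0 : 0 < A := hA ▸ hE
  have hcovν : CovLe (Measure.map τ ν) s := by
    intro θ
    have hm : MemLp (fun x : Eu κ => ⟪θ, x⟫_ℝ) 2 (Measure.map τ ν) := by
      rw [memLp_map_measure_iff (Measurable.aestronglyMeasurable (by fun_prop)) hτ.aemeasurable]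
      exact memLp_bdd ((continuous_const.inner continuous_id).measurable.comp hτ) (‖θ‖ * R)
        (hτR.mono fun t ht => (abs_real_inner_le_norm _ _).trans
          (mul_le_mul_of_nonneg_left ht (norm_nonneg _)))
    have hp : IsProbabilityMeasure (Measure.map τ ν) := Measure.isProbabilityMeasure_map hτ.aemeasurable
    rw [← hm.ofReal_variance_eq, hbτ (by fun_prop)]
    refine ENNReal.ofReal_le_ofReal ?_
    have h1 := hlin θ
    have h2 : 0 ≤ A * ProbabilityTheory.variance (fun y => ⟪θ, J y⟫_ℝ) β :=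
      mul_nonneg hA0.le (ProbabilityTheory.variance_nonneg _ _)
    linarith
  have hτ2 : ∀ u : Eu κ → ℝ, ContDiff ℝ 1 u → (∀ x, ‖fderiv ℝ u x‖ ≤ 1) →
      ProbabilityTheory.variance (fun t => u (τ t)) ν ≤ k' * s := by
    intro u hu hu1
    rw [← hbτ hu.continuous.measurable]
    exact (hν s hs hcovν u hu hu1).2
  have hβ : ∀ φ : Eu ι', ProbabilityTheory.variance (fun y : Eu ι' => ⟪φ, y⟫_ℝ) β ≤
      s / A * ‖φ‖ ^ 2 := by
    intro φ
    have h1 := hlin (J φ)
    have h2 := ProbabilityTheory.variance_nonneg (fun t => ⟪J φ, τ t⟫_ℝ) ν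
    simp only [J.inner_map_map, J.norm_map] at h1
    rw [div_mul_eq_mul_div, le_div_iff₀ hA0]
    linarith
  have hcovβ : CovLe β (s / A) := by
    intro φ
    have hm : MemLp (fun y : Eu ι' => ⟪φ, y⟫_ℝ) 2 β :=
      memLp_bdd (by fun_prop) (‖φ‖ * R) (hyR.mono fun y hy =>
        (abs_real_inner_le_norm _ _).trans (mul_le_mul_of_nonneg_left hy (norm_nonneg _)))
    rw [← hm.ofReal_variance_eq]
    exact ENNReal.ofReal_le_ofReal (hβ φ)
  have hM2 : ∫ y, ‖y - b‖ ^ 2 ∂β ≤ Fintype.card ι' * (s / A) := by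
    have h1 := second_moment_le β (fun y : Eu ι' => y) measurable_id R hyR ⊤ 0
      (Eventually.of_forall fun y => Submodule.mem_top) (s / A) (fun e he => by
        have := hβ e
        rw [he] at this
        linarith)
    rw [hbar] at h1
    rw [finrank_top, finrank_euclideanSpace] at h1
    exact h1
  have hfm : MemLp f 2 (Measure.map (GG τ g J b) (ν.prod β)) := by
    have hb' : ∀ᵐ x ∂(Measure.map (GG τ g J b) (ν.prod β)), ‖x‖ ≤ R + R * (R + ‖b‖) := by
      rw [ae_map_iff hGm.aemeasurable (measurableSet_le (by fun_prop) (by fun_prop))]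
      exact hGb
    have : IsProbabilityMeasure (Measure.map (GG τ g J b) (ν.prod β)) :=
      Measure.isProbabilityMeasure_map hGm.aemeasurable
    refine memLp_bdd hf.continuous.measurable (|f 0| + (R + R * (R + ‖b‖))) (hb'.mono fun x hx => ?_)
    have h1 := lip_of hf hf1 x 0
    rw [sub_zero] at h1
    have h2 : |f x| ≤ |f 0| + |f x - f 0| := by
      have := abs_add_le (f 0) (f x - f 0)
      rwa [add_sub_cancel] at this
    linarith
  refine ⟨hfm, ?_⟩
  rw [hbm hf.continuous.measurable]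
  rw [hA] at hcovβ hM2
  exact lip_part3 ν β τ hτ g hg hg0 J b R hR hτR hgR hyR k hk s hs hE hcovβ (Fintype.card ι')
    k' δ ε hδ hε hM2 hτ2 hvg f hf hf1

end abs

section blocks

variable {κ J : Type} [Fintype κ] [DecidableEq J] (c : κ → J)

/-- the splitting of the coordinates -/
def spl (j : J) : {i // ¬ c i = j} ⊕ {i // c i = j} ≃ κ :=
  (Equiv.sumComm _ _).trans (Equiv.sumCompl fun i => c i = j)

/-- the isometry of the splitting -/
noncomputable def TT (j : J) : Eu ({i // ¬ c i = j} ⊕ {i // c i = j}) ≃ₗᵢ[ℝ] Eu κ :=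
  LinearIsometryEquiv.piLpCongrLeft 2 ℝ ℝ (spl c j)

theorem TT_of_eq (j : J) (z : Eu ({i // ¬ c i = j} ⊕ {i // c i = j})) (i : κ) (h : c i = j) :
    TT c j z i = z (Sum.inr ⟨i, h⟩) := by
  have e : (spl c j).symm i = Sum.inr ⟨i, h⟩ := by
    rw [Equiv.symm_apply_eq]
    rfl
  have h1 : TT c j z i = z ((spl c j).symm i) := rfl
  rw [h1, e]

theorem TT_of_ne (j : J) (z : Eu ({i // ¬ c i = j} ⊕ {i // c i = j})) (i : κ) (h : ¬ c i = j) :
    TT c j z i = z (Sum.inl ⟨i, h⟩) := by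
  have e : (spl c j).symm i = Sum.inl ⟨i, h⟩ := by
    rw [Equiv.symm_apply_eq]
    rfl
  have h1 : TT c j z i = z ((spl c j).symm i) := rfl
  rw [h1, e]

/-- the point `x` with the block `j` replaced by `y` -/
noncomputable def repl (j : J) (x : Eu κ) (y : Eu {i // c i = j}) : Eu κ :=
  WithLp.toLp 2 fun i => if h : c i = j then y ⟨i, h⟩ else x i

theorem repl_TT (j : J) (t : Eu {i // ¬ c i = j}) (y y' : Eu {i // c i = j}) :
    repl c j (TT c j (jn (t, y'))) y = TT c j (jn (t, y)) := by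
  ext i
  by_cases h : c i = j
  · rw [TT_of_eq c j _ i h]
    simp only [repl, h, dite_true]
    rfl
  · rw [TT_of_ne c j _ i h]
    simp only [repl, h, dite_false]
    rw [TT_of_ne c j _ i h]
    rfl

/-- the projection to the blocks in `S` -/
noncomputable def PP (S : Finset J) (x : Eu κ) : Eu κ :=
  WithLp.toLp 2 fun i => if c i ∈ S then x i else 0

theorem PP_cont (S : Finset J) : Continuous (PP c S) := by
  unfold PP
  refine (PiLp.continuous_toLp 2 _).comp (continuous_pi fun i => ?_)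
  by_cases h : c i ∈ S
  · simp only [h, if_true]
    fun_prop
  · simp only [h, if_false]
    fun_prop

/-- the block `j` as a linear isometry -/
noncomputable def EE (j : J) : Eu {i // c i = j} →ₗᵢ[ℝ] Eu κ :=
  (TT c j).toLinearIsometry.comp inr'

theorem EE_apply (j : J) (y : Eu {i // c i = j}) : EE c j y = TT c j (jn (0, y)) := rfl

theorem PP_insert (S : Finset J) (j : J) (hj : j ∉ S) (t : Eu {i // ¬ c i = j}) (y : Eu {i // c i = j}) :
    PP c (insert j S) (TT c j (jn (t, y))) = PP c S (TT c j (jn (t, 0))) + EE c j y := by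
  ext i
  rw [EE_apply]
  simp only [PP, PiLp.add_apply]
  by_cases h : c i = j
  · rw [TT_of_eq c j _ i h, TT_of_eq c j _ i h, TT_of_eq c j _ i h]
    simp only [h, Finset.mem_insert_self, if_true, hj, if_false, zero_add]
    rfl
  · rw [TT_of_ne c j _ i h, TT_of_ne c j _ i h, TT_of_ne c j _ i h]
    have e : c i ∈ insert j S ↔ c i ∈ S := by
      rw [Finset.mem_insert]
      exact ⟨fun h1 => h1.resolve_left h, Or.inr⟩
    simp only [e]
    have e2 : (jn ((0 : Eu {i // ¬ c i = j}), y)) (Sum.inl ⟨i, h⟩) = 0 := rfl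
    rw [e2, add_zero]
    rfl

theorem PP_rest (S : Finset J) (j : J) (hj : j ∉ S) (t : Eu {i // ¬ c i = j}) (y : Eu {i // c i = j}) :
    PP c S (TT c j (jn (t, y))) = PP c S (TT c j (jn (t, 0))) := by
  ext i
  simp only [PP]
  by_cases h : c i = j
  · simp only [h, hj, if_false]
  · rw [TT_of_ne c j _ i h, TT_of_ne c j _ i h]
    rfl

end blocks

end Pool.Agent.V11317.NC
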