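import Pool.Agent.V11317.NC.Sum7

/-!
# Direct sums of several bodies: the theorem
-/

set_option autoImplicit false

namespace Pool.Agent.V11317.NC

open MeasureTheory Set Filter Topology
open scoped ENNReal InnerProductSpace Pointwise
open Pool.Agent.W695.KH (Eu)
open Pool.Agent.V11298.KD (CovLe VarKLS)

variable {κ J : Type} [Fintype κ] [DecidableEq J] (c : κ → J)

theorem base_case (μ : Measure (Eu κ)) [IsProbabilityMeasure μ] :
    VarKLS (Measure.map (PP c ∅) μ) 0 := by
  intro s hs hcov f hf hf1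
  have hm : Measurable (PP c (∅ : Finset J)) := (PP_cont c ∅).measurable
  have e : ∀ x, PP c (∅ : Finset J) x = 0 := by
    intro x
    ext i
    simp [PP]
  refine ⟨?_, ?_⟩
  · rw [memLp_map_measure_iff hf.continuous.aestronglyMeasurable hm.aemeasurable]
    have e2 : f ∘ PP c (∅ : Finset J) = fun _ => f 0 := by
      funext x
      simp only [Function.comp_apply, e]
    rw [e2]
    exact memLp_const _
  · rw [ProbabilityTheory.variance_map hf.continuous.measurable.aemeasurable hm.aemeasurable]
    have e2 : f ∘ PP c (∅ : Finset J) = fun _ => f 0 := by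
      funext x
      simp only [Function.comp_apply, e]
    rw [e2, ProbabilityTheory.variance_eq_sub (memLp_const _)]
    simp

/-- the representation with respect to the block `j` -/
theorem repr_block (j : J) [Nonempty {i // c i = j}] (B : Set (Eu {i // c i = j})) (hB : IsCompact B)
    (hBi : (interior B).Nonempty) (K : Set (Eu κ)) (hKv : Convex ℝ K) (hKc : IsCompact K)
    (hKi : (interior K).Nonempty)
    (hS : ∀ x ∈ K, ∃ r : ℝ, 0 ≤ r ∧ {y : Eu {i // c i = j} | repl c j x y ∈ K} = r • B) :
    ∃ (ν : Measure (Eu {i // ¬ c i = j})) (g' : Eu {i // ¬ c i = j} → ℝ) (R : ℝ),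
      IsProbabilityMeasure ν ∧ Measurable g' ∧
      (∀ t, 0 ≤ g' t) ∧ 0 ≤ R ∧ (∀ᵐ t ∂ν, ‖t‖ ≤ R) ∧ (∀ᵐ t ∂ν, |g' t| ≤ R) ∧ 0 < ∫ t, g' t ^ 2 ∂ν ∧
      ∫ t, g' t ^ 2 ∂ν - (∫ t, g' t ∂ν) ^ 2 ≤
        2 / ((Fintype.card {i // c i = j} : ℝ) + 2) * ∫ t, g' t ^ 2 ∂ν ∧
      Measure.map (fun z : Eu {i // ¬ c i = j} × Eu {i // c i = j} => TT c j (jn (z.1, g' z.1 • z.2)))
        (ν.prod ((volume B)⁻¹ • volume.restrict B)) = (volume K)⁻¹ • volume.restrict K := by
  have hTm : Measurable (TT c j) := (TT c j).continuous.measurable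
  have hTmp : MeasurePreserving (TT c j) volume volume := (TT c j).measurePreserving
  have hKm := hKc.measurableSet
  obtain ⟨K', hK'⟩ : ∃ K' : Set (Eu ({i // ¬ c i = j} ⊕ {i // c i = j})), K' = TT c j ⁻¹' K := ⟨_, rfl⟩
  have hK'v : Convex ℝ K' := by
    rw [hK']
    exact hKv.linear_preimage (TT c j).toLinearEquiv.toLinearMap
  have hK'c : IsCompact K' := by
    rw [hK']
    exact (TT c j).toHomeomorph.isCompact_preimage.2 hKc
  have hK0 : volume K ≠ 0 := (Measure.measure_pos_of_nonempty_interior volume hKi).ne'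
  have hK'vol : volume K' = volume K := by
    rw [hK']
    exact hTmp.measure_preimage hKm.nullMeasurableSet
  have hsec : ∀ t : Eu {i // ¬ c i = j}, (∃ y, jn (t, y) ∈ K') →
      ∃ r : ℝ, 0 ≤ r ∧ {y : Eu {i // c i = j} | jn (t, y) ∈ K'} = r • B := by
    rintro t ⟨y0, hy0⟩
    rw [hK', mem_preimage] at hy0
    obtain ⟨r, hr, h⟩ := hS _ hy0
    refine ⟨r, hr, ?_⟩
    rw [← h]
    ext y
    simp only [mem_ofPred_eq]
    rw [repl_TT, hK']
    rfl
  obtain ⟨D, g, hg, hg0, hgc, hKD⟩ := sec_fun B hB hBi K' hK'v hK'c.measurableSet hsec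
  obtain ⟨ν, g', R, h1, h2, h3, h4, h5, h6, h7, h8, h9⟩ :=
    repr B hB hBi D g hg hg0 hgc K' hK'c (by rw [hK'vol]; exact hK0) hKD
  refine ⟨ν, g', R, h1, h2, h3, h4, h5, h6, h7, h8, ?_⟩
  have hm : Measurable fun z : Eu {i // ¬ c i = j} × Eu {i // c i = j} => jn (z.1, g' z.1 • z.2) :=
    jn_cont.measurable.comp (measurable_fst.prodMk ((h2.comp measurable_fst).smul measurable_snd))
  have h10 := Measure.map_map (μ := ν.prod ((volume B)⁻¹ • volume.restrict B)) hTm hm
  have h11 : MeasurePreserving (TT c j) (volume.restrict (TT c j ⁻¹' K)) (volume.restrict K) :=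
    hTmp.restrict_preimage hKm
  have h12 : Measure.map (TT c j) ((volume K')⁻¹ • volume.restrict K') =
      (volume K)⁻¹ • volume.restrict K := by
    rw [Measure.map_smul, hK'vol, hK', h11.map_eq]
  rw [h9, h12] at h10
  exact h10.symm

/-- **Direct sums of several bodies.** -/
theorem sums [Fintype J] [Nonempty J] (hc : Function.Surjective c) (B : ∀ j, Set (Eu {i // c i = j}))
    (hB : ∀ j, IsCompact (B j)) (hBi : ∀ j, (interior (B j)).Nonempty) (hBb : ∀ j, ∫ x in B j, x = 0)
    (k : ℝ) (hk0 : 0 ≤ k) (hk : ∀ j, VarKLS ((volume (B j))⁻¹ • volume.restrict (B j)) k)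
    (K : Set (Eu κ)) (hKv : Convex ℝ K) (hKc : IsCompact K) (hKi : (interior K).Nonempty)
    (hS : ∀ j, ∀ x ∈ K, ∃ r : ℝ, 0 ≤ r ∧ {y : Eu {i // c i = j} | repl c j x y ∈ K} = r • B j) :
    VarKLS ((volume K)⁻¹ • volume.restrict K)
      (3 * Fintype.card J * (k + 2 * Fintype.card J + 2)) := by
  obtain ⟨μ, hμ⟩ : ∃ μ : Measure (Eu κ), μ = (volume K)⁻¹ • volume.restrict K := ⟨_, rfl⟩
  rw [← hμ]
  have hμp : IsProbabilityMeasure μ := prob K hKc hKi μ hμ
  obtain ⟨q, hq⟩ : ∃ q : ℕ, q = Fintype.card J := ⟨_, rfl⟩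
  have hq1 : 1 ≤ q := by
    rw [hq]
    exact Fintype.card_pos
  have hq0 : (0 : ℝ) < q := by exact_mod_cast hq1
  obtain ⟨ε, hε⟩ : ∃ ε : ℝ, ε = 1 / (q : ℝ) := ⟨_, rfl⟩
  have hε0 : 0 < ε := by rw [hε]; positivity
  obtain ⟨C, hC⟩ : ∃ C : ℝ, C = k + 2 * q + 2 := ⟨_, rfl⟩
  have hC0 : 0 ≤ C := by rw [hC]; positivity
  have hbdd : ∀ j, ∃ R', 0 ≤ R' ∧ ∀ᵐ y ∂((volume (B j))⁻¹ • volume.restrict (B j)), ‖y‖ ≤ R' := by
    intro j
    obtain ⟨R', hR'⟩ := (hB j).isBounded.exists_norm_le
    refine ⟨max R' 0, le_max_right _ _, ?_⟩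
    refine Measure.smul_absolutelyContinuous.ae_le ?_
    filter_upwards [ae_restrict_mem (hB j).measurableSet] with y hy
    exact (hR' y hy).trans (le_max_left _ _)
  have step : ∀ (S : Finset J), VarKLS (Measure.map (PP c S) μ) (S.card * (1 + ε) ^ S.card * C) := by
    intro S
    induction S using Finset.induction_on with
    | empty =>
      simp only [Finset.card_empty, Nat.cast_zero, zero_mul]
      exact base_case c μ
    | insert j S hj ih =>
      obtain ⟨i0, hi0⟩ := hc j
      have hne : Nonempty {i // c i = j} := ⟨⟨i0, hi0⟩⟩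
      obtain ⟨ν, g', R, hν, hg'm, hg'0, hR, hνR, hg'R, hE, hv, hlaw⟩ :=
        repr_block c j (B j) (hB j) (hBi j) K hKv hKc hKi (hS j)
      rw [← hμ] at hlaw
      obtain ⟨β, hβ⟩ : ∃ β : Measure (Eu {i // c i = j}), β = (volume (B j))⁻¹ • volume.restrict (B j) :=
        ⟨_, rfl⟩
      have hkj := hk j
      obtain ⟨R', hR', hbR⟩ := hbdd j
      rw [← hβ] at hlaw hkj hbR
      have hβp : IsProbabilityMeasure β := prob (B j) (hB j) (hBi j) β hβ
      have hbar : ∫ y, y ∂β = 0 := by rw [hβ, integral_smul_measure, hBb, smul_zero]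
      obtain ⟨τ, hτ⟩ : ∃ τ : Eu {i // ¬ c i = j} → Eu κ, τ = fun t => PP c S (TT c j (jn (t, 0))) :=
        ⟨_, rfl⟩
      have hTm : Measurable (TT c j) := (TT c j).continuous.measurable
      have hτc : Continuous τ := by
        rw [hτ]
        exact (PP_cont c S).comp ((TT c j).continuous.comp
          (jn_cont.comp (continuous_id.prodMk continuous_const)))
      have hτR : ∀ t, ‖t‖ ≤ R → ‖τ t‖ ≤ R := by
        intro t ht
        have h1 : ‖τ t‖ ≤ ‖TT c j (jn (t, 0))‖ := by
          rw [hτ]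
          simp only
          rw [EuclideanSpace.norm_eq, EuclideanSpace.norm_eq]
          apply Real.sqrt_le_sqrt
          refine Finset.sum_le_sum fun i _ => ?_
          simp only [PP]
          split_ifs
          · exact le_rfl
          · simp only [norm_zero, ne_eq, OfNat.ofNat_ne_zero, not_false_eq_true, zero_pow]
            positivity
        rw [(TT c j).norm_map] at h1
        have h2 : ‖jn (t, (0 : Eu {i // c i = j}))‖ = ‖t‖ := inl'.norm_map t
        rw [h2] at h1
        exact h1.trans ht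
      have hm : Measurable fun z : Eu {i // ¬ c i = j} × Eu {i // c i = j} =>
          TT c j (jn (z.1, g' z.1 • z.2)) :=
        hTm.comp (jn_cont.measurable.comp
          (measurable_fst.prodMk ((hg'm.comp measurable_fst).smul measurable_snd)))
      -- the law of the components in `S`
      have hlawS : Measure.map (PP c S) μ = Measure.map τ ν := by
        rw [← hlaw, Measure.map_map (PP_cont c S).measurable hm]
        have e1 : (PP c S ∘ fun z : Eu {i // ¬ c i = j} × Eu {i // c i = j} =>
            TT c j (jn (z.1, g' z.1 • z.2))) = τ ∘ Prod.fst := by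
          funext z
          simp only [Function.comp_apply]
          rw [PP_rest c S j hj, hτ]
        rw [e1, ← Measure.map_map hτc.measurable measurable_fst]
        congr 1
        exact Measure.fst_prod (μ := ν) (ν := β)
      have hlawI : Measure.map (PP c (insert j S)) μ = Measure.map (GG τ g' (EE c j) 0) (ν.prod β) := by
        rw [← hlaw, Measure.map_map (PP_cont c _).measurable hm]
        congr 1
        funext z
        simp only [Function.comp_apply]
        rw [PP_insert c S j hj, hτ]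
        unfold GG
        rw [sub_zero, map_smul]
      rw [hlawS] at ih
      have key := tower_abs3 ν β τ hτc.measurable g' hg'm hg'0 (EE c j) 0 hbar (R + R') (by positivity)
        (hνR.mono fun t ht => (hτR t ht).trans (by linarith)) (hg'R.mono fun t ht => by linarith)
        (hbR.mono fun t ht => by linarith) k hkj hE _ ih _ ε (by positivity) hε0 hv
      rw [hlawI]
      refine VarKLS_mono ?_ key
      rw [Finset.card_insert_of_notMem hj]
      have h1 : (Fintype.card {i // c i = j} : ℝ) * (2 / ((Fintype.card {i // c i = j} : ℝ) + 2)) ≤ 2 := by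
        rw [mul_div_assoc', div_le_iff₀ (by positivity)]
        have : (0 : ℝ) ≤ Fintype.card {i // c i = j} := by positivity
        linarith
      have h2 : (1 + 1 / ε) * Fintype.card {i // c i = j} *
          (2 / ((Fintype.card {i // c i = j} : ℝ) + 2)) ≤ 2 * q + 2 := by
        have h3 : 1 + 1 / ε = 1 + q := by rw [hε]; field_simp
        rw [h3, mul_assoc]
        have h4 : (1 + (q : ℝ)) * ((Fintype.card {i // c i = j} : ℝ) *
            (2 / ((Fintype.card {i // c i = j} : ℝ) + 2))) ≤ (1 + q) * 2 :=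
          mul_le_mul_of_nonneg_left h1 (by positivity)
        linarith
      have h5 : 1 ≤ (1 + ε) ^ (S.card + 1) := one_le_pow₀ (by linarith)
      push_cast
      have h6 : ((S.card : ℝ) + 1) * (1 + ε) ^ (S.card + 1) * C =
          (1 + ε) ^ (S.card + 1) * C + (1 + ε) * (S.card * (1 + ε) ^ S.card * C) := by
        rw [pow_succ]
        ring
      rw [h6]
      have h7 : C ≤ (1 + ε) ^ (S.card + 1) * C := by nlinarith
      linarith
  have hu := step Finset.univ
  have e : Measure.map (PP c Finset.univ) μ = μ := by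
    have e1 : PP c (Finset.univ : Finset J) = id := by
      funext x
      ext i
      simp [PP]
    rw [e1, Measure.map_id]
  rw [e, Finset.card_univ, ← hq] at hu
  rw [← hq]
  refine VarKLS_mono ?_ hu
  have h1 : (1 + ε) ^ q ≤ 3 := by
    have h2 : 1 + ε ≤ Real.exp ε := by
      have := Real.add_one_le_exp ε
      linarith
    calc (1 + ε) ^ q ≤ (Real.exp ε) ^ q := pow_le_pow_left₀ (by positivity) h2 q
      _ = Real.exp 1 := by
          rw [← Real.exp_nat_mul, hε]
          congr 1
          field_simp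
      _ ≤ 3 := by
          have := Real.exp_one_lt_d9
          linarith
  have h3 : (q : ℝ) * (1 + ε) ^ q * C ≤ q * 3 * C := by gcongr
  rw [← hC]
  linarith

end Pool.Agent.V11317.NC
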