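import Pool.Agent.V11317.NC.Sum8

/-!
# The `ψ`-direct sums of bodies
-/

set_option autoImplicit false

namespace Pool.Agent.V11317.NC

open MeasureTheory Set Filter Topology
open scoped ENNReal InnerProductSpace Pointwise
open Pool.Agent.W695.KH (Eu)
open Pool.Agent.V11298.KD (CovLe VarKLS)

variable {κ J : Type} [Fintype κ] [DecidableEq J] (c : κ → J)

/-- the block `j` of `x` -/
noncomputable def res (j : J) (x : Eu κ) : Eu {i // c i = j} := WithLp.toLp 2 fun i => x i.1

theorem res_cont (j : J) : Continuous (res c j) := by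
  unfold res
  refine (PiLp.continuous_toLp 2 _).comp (continuous_pi fun i => ?_)
  fun_prop

theorem res_repl_eq (j : J) (x : Eu κ) (y : Eu {i // c i = j}) : res c j (repl c j x y) = y := by
  ext i
  obtain ⟨i, hi⟩ := i
  simp only [res, repl, hi, dite_true]

theorem res_repl_ne (j j' : J) (h : j' ≠ j) (x : Eu κ) (y : Eu {i // c i = j}) :
    res c j' (repl c j x y) = res c j' x := by
  ext i
  obtain ⟨i, hi⟩ := i
  have h2 : ¬ c i = j := by rw [hi]; exact h
  simp only [res, repl, h2, dite_false]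

theorem res_lin (j : J) (a b : ℝ) (x y : Eu κ) : res c j (a • x + b • y) = a • res c j x + b • res c j y := by
  ext i
  rfl

/-- conditions on `ψ` -/
structure Psi (ψ : (J → ℝ) → ℝ) : Prop where
  cont : Continuous ψ
  conv : ConvexOn ℝ {r | ∀ j, 0 ≤ r j} ψ
  mono : ∀ r r' : J → ℝ, (∀ j, 0 ≤ r j) → (∀ j, r j ≤ r' j) → ψ r ≤ ψ r'
  zero : ψ 0 < 1
  bdd : ∃ R : ℝ, ∀ r : J → ℝ, (∀ j, 0 ≤ r j) → ψ r ≤ 1 → ∀ j, r j ≤ R

/-- the `ψ`-direct sum -/
noncomputable def psiSum (ψ : (J → ℝ) → ℝ) (B : ∀ j, Set (Eu {i // c i = j})) : Set (Eu κ) :=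
  {x | ψ (fun j => gauge (B j) (res c j x)) ≤ 1}

theorem gauge_le_iff {E : Type*} [NormedAddCommGroup E] [NormedSpace ℝ E] (B : Set E) (hB : IsCompact B)
    (hBv : Convex ℝ B) (h0 : B ∈ 𝓝 0) (r : ℝ) (hr : 0 ≤ r) (y : E) : gauge B y ≤ r ↔ y ∈ r • B := by
  rcases hr.eq_or_lt with h | h
  · rw [← h, zero_smul_set ⟨0, mem_of_mem_nhds h0⟩]
    have h1 := gauge_eq_zero (x := y) (absorbent_nhds_zero h0)
      ((NormedSpace.isVonNBounded_iff ℝ).2 hB.isBounded)
    rw [Set.mem_zero, ← h1]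
    exact ⟨fun h2 => le_antisymm h2 (gauge_nonneg y), fun h2 => h2.le⟩
  · rw [mem_smul_set_iff_inv_smul_mem₀ h.ne']
    have h1 := gauge_le_one_iff_mem_closure hBv h0 (x := r⁻¹ • y)
    rw [hB.isClosed.closure_eq] at h1
    rw [← h1, gauge_smul_of_nonneg (inv_nonneg.2 hr), smul_eq_mul, inv_mul_le_iff₀ h, mul_one]



theorem psi_facts (ψ : (J → ℝ) → ℝ) (hψ : Psi ψ) (B : ∀ j, Set (Eu {i // c i = j}))
    (hB : ∀ j, IsCompact (B j)) (hBv : ∀ j, Convex ℝ (B j)) (h0 : ∀ j, B j ∈ 𝓝 0) :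
    Convex ℝ (psiSum c ψ B) ∧ IsCompact (psiSum c ψ B) ∧ (interior (psiSum c ψ B)).Nonempty ∧
    ∀ j, ∀ x ∈ psiSum c ψ B, ∃ r : ℝ, 0 ≤ r ∧
      {y : Eu {i // c i = j} | repl c j x y ∈ psiSum c ψ B} = r • B j := by
  have hgc : Continuous fun x : Eu κ => fun j => gauge (B j) (res c j x) :=
    continuous_pi fun j => (continuous_gauge (hBv j) (h0 j)).comp (res_cont c j)
  have hg0 : ∀ x : Eu κ, ∀ j, 0 ≤ gauge (B j) (res c j x) := fun x j => gauge_nonneg _
  refine ⟨?_, ?_, ?_, ?_⟩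
  · intro x hx y hy a b ha hb hab
    have h1 := hψ.conv.2 (hg0 x) (hg0 y) ha hb hab
    have h2 : ψ (fun j => gauge (B j) (res c j (a • x + b • y))) ≤
        ψ (a • (fun j => gauge (B j) (res c j x)) + b • fun j => gauge (B j) (res c j y)) := by
      refine hψ.mono _ _ (hg0 _) fun j => ?_
      rw [res_lin]
      refine (gauge_add_le (hBv j) (absorbent_nhds_zero (h0 j)) _ _).trans (le_of_eq ?_)
      rw [gauge_smul_of_nonneg ha, gauge_smul_of_nonneg hb]
      rfl
    have hx' : ψ (fun j => gauge (B j) (res c j x)) ≤ 1 := hx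
    have hy' : ψ (fun j => gauge (B j) (res c j y)) ≤ 1 := hy
    refine (h2.trans h1).trans ?_
    simp only [smul_eq_mul]
    nlinarith
  · have hcl : IsClosed (psiSum c ψ B) := isClosed_le (hψ.cont.comp hgc) continuous_const
    refine Metric.isCompact_of_isClosed_isBounded hcl ?_
    obtain ⟨R, hR⟩ := hψ.bdd
    have hbj : ∀ j, ∃ C : ℝ, ∀ y ∈ (max R 0) • B j, ‖y‖ ≤ C := fun j =>
      ((hB j).smul (max R 0)).isBounded.exists_norm_le
    choose C hC using hbj
    refine isBounded_iff_forall_norm_le.2 ⟨Real.sqrt (∑ i : κ, (C (c i)) ^ 2), fun x hx => ?_⟩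
    rw [EuclideanSpace.norm_eq]
    apply Real.sqrt_le_sqrt
    refine Finset.sum_le_sum fun i _ => ?_
    have h1 : gauge (B (c i)) (res c (c i) x) ≤ max R 0 :=
      (hR _ (hg0 x) hx (c i)).trans (le_max_left _ _)
    have h2 := (gauge_le_iff (B (c i)) (hB _) (hBv _) (h0 _) _ (le_max_right _ _) _).1 h1
    have h3 := hC (c i) _ h2
    have h4 : ‖x i‖ ≤ ‖res c (c i) x‖ := PiLp.norm_apply_le (res c (c i) x) ⟨i, rfl⟩
    exact pow_le_pow_left₀ (norm_nonneg _) (h4.trans h3) 2
  · refine ⟨0, ?_⟩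
    rw [mem_interior_iff_mem_nhds]
    have h1 : {x : Eu κ | ψ (fun j => gauge (B j) (res c j x)) < 1} ∈ 𝓝 (0 : Eu κ) := by
      refine (isOpen_lt (hψ.cont.comp hgc) continuous_const).mem_nhds ?_
      have e : (fun j => gauge (B j) (res c j (0 : Eu κ))) = 0 := by
        funext j
        have : res c j (0 : Eu κ) = 0 := rfl
        rw [this, gauge_zero]
        rfl
      change ψ (fun j => gauge (B j) (res c j (0 : Eu κ))) < 1
      rw [e]
      exact hψ.zero
    refine mem_of_superset h1 fun x hx => ?_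
    change ψ (fun j => gauge (B j) (res c j x)) ≤ 1
    exact le_of_lt hx
  · intro j x hx
    obtain ⟨ρ, hρ⟩ : ∃ ρ : J → ℝ, ρ = fun j => gauge (B j) (res c j x) := ⟨_, rfl⟩
    have hρ0 : ∀ i, 0 ≤ ρ i := fun i => by rw [hρ]; exact hg0 x i
    obtain ⟨S, hS⟩ : ∃ S : Set ℝ, S = {r | 0 ≤ r ∧ ψ (Function.update ρ j r) ≤ 1} := ⟨_, rfl⟩
    have hup : ∀ r, 0 ≤ r → ∀ i, 0 ≤ Function.update ρ j r i := by
      intro r hr i
      by_cases h : i = j
      · subst h
        rw [Function.update_self]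
        exact hr
      · rw [Function.update_of_ne h]
        exact hρ0 i
    have hSn : S.Nonempty := ⟨ρ j, by
      rw [hS]
      refine ⟨hρ0 j, ?_⟩
      rw [Function.update_eq_self, hρ]
      exact hx⟩
    obtain ⟨R, hR⟩ := hψ.bdd
    have hSb : BddAbove S := ⟨R, fun r hr => by
      rw [hS] at hr
      have := hR _ (hup r hr.1) hr.2 j
      rwa [Function.update_self] at this⟩
    have hScl : IsClosed S := by
      rw [hS]
      exact (isClosed_le continuous_const continuous_id).inter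
        (isClosed_le (hψ.cont.comp (continuous_const.update j continuous_id)) continuous_const)
    have hmem : sSup S ∈ S := hScl.csSup_mem hSn hSb
    obtain ⟨r0, hr0⟩ : ∃ r0 : ℝ, r0 = sSup S := ⟨_, rfl⟩
    rw [← hr0] at hmem
    have hmem' := hmem
    rw [hS] at hmem'
    refine ⟨r0, hmem'.1, ?_⟩
    ext y
    rw [← gauge_le_iff (B j) (hB j) (hBv j) (h0 j) r0 hmem'.1 y]
    have e : (fun i => gauge (B i) (res c i (repl c j x y))) = Function.update ρ j (gauge (B j) y) := by
      funext i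
      by_cases h : i = j
      · subst h
        rw [Function.update_self, res_repl_eq]
      · rw [Function.update_of_ne h, res_repl_ne c j i h, hρ]
    change ψ (fun i => gauge (B i) (res c i (repl c j x y))) ≤ 1 ↔ gauge (B j) y ≤ r0
    rw [e]
    constructor
    · intro h
      rw [hr0]
      refine le_csSup hSb ?_
      rw [hS]
      exact ⟨gauge_nonneg _, h⟩
    · intro h
      refine (hψ.mono _ _ (hup _ (gauge_nonneg _)) fun i => ?_).trans hmem'.2
      by_cases hi : i = j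
      · subst hi
        rw [Function.update_self, Function.update_self]
        exact h
      · rw [Function.update_of_ne hi, Function.update_of_ne hi]

end Pool.Agent.V11317.NC
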