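import Pool.Agent.V11317.NC.Che
import Pool.Agent.V11298.KD.Sym

/-!
# The variance form of KLS implies the Cheeger form for sets of measure one half, for all convex bodies
-/

set_option autoImplicit false

namespace Pool.Agent.V11317.NC

open MeasureTheory Set Filter Topology
open scoped ENNReal InnerProductSpace
open Pool.Agent.W695.KH (Eu)
open Pool.Agent.V11298.KD (CovLe VarKLS SymKLS LC mu)

variable {κ : Type} [Fintype κ]

theorem memLp_lin (K : Set (Eu κ)) (hcp : IsCompact K) (hint : (interior K).Nonempty)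
    (μ : Measure (Eu κ)) (hμ : μ = (volume K)⁻¹ • volume.restrict K) (f : Eu κ → ℝ)
    (hf : Continuous f) : MemLp f 2 μ := by
  have hvol : 0 < volume K := Measure.measure_pos_of_nonempty_interior volume hint
  rw [memLp_two_iff_integrable_sq hf.aestronglyMeasurable, hμ]
  refine Integrable.smul_measure ?_ (ENNReal.inv_ne_top.2 hvol.ne')
  exact (hf.pow 2).continuousOn.integrableOn_compact hcp

theorem cov_of_unit (K : Set (Eu κ)) (hcp : IsCompact K) (hint : (interior K).Nonempty)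
    (μ : Measure (Eu κ)) (hμ : μ = (volume K)⁻¹ • volume.restrict K) (s : ℝ) (hs : 0 < s)
    (h : ∀ θ : Eu κ, ‖θ‖ = 1 → ProbabilityTheory.variance (fun x => ⟪θ, x⟫_ℝ) μ ≤ s) :
    CovLe μ s := by
  have hp := prob K hcp hint μ hμ
  intro θ
  have hm : MemLp (fun x : Eu κ => ⟪θ, x⟫_ℝ) 2 μ :=
    memLp_lin K hcp hint μ hμ _ (by fun_prop)
  rw [← hm.ofReal_variance_eq]
  apply ENNReal.ofReal_le_ofReal
  by_cases h0 : θ = 0
  · subst h0
    simp only [inner_zero_left, norm_zero]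
    have h0 : ProbabilityTheory.variance (fun _ : Eu κ => (0 : ℝ)) μ = 0 :=
      ProbabilityTheory.variance_zero μ
    rw [h0]
    simp
  · have hn : 0 < ‖θ‖ := norm_pos_iff.2 h0
    have h1 := h (‖θ‖⁻¹ • θ) (by rw [norm_smul, norm_inv, norm_norm, inv_mul_cancel₀ hn.ne'])
    have e1 : (fun x : Eu κ => ⟪θ, x⟫_ℝ) = fun x => ‖θ‖ * ⟪‖θ‖⁻¹ • θ, x⟫_ℝ := by
      funext x
      rw [real_inner_smul_left, ← mul_assoc, mul_inv_cancel₀ hn.ne', one_mul]
    rw [e1, ProbabilityTheory.variance_const_mul, mul_comm]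
    exact mul_le_mul_of_nonneg_right h1 (sq_nonneg _)

/-- The variance form gives the Cheeger form for sets of measure one half. -/
theorem cheeger_var : ∃ c : ℝ, 0 < c ∧ ∀ (κ : Type) [Fintype κ] (K : Set (Eu κ)),
    IsCompact K → Convex ℝ K → (interior K).Nonempty → ∀ μ : Measure (Eu κ),
    μ = (volume K)⁻¹ • volume.restrict K → ∀ k : ℝ, 0 < k → VarKLS μ k → ∀ t : ℝ≥0∞,
    (∀ (a : Eu κ) (b : ℝ), a ≠ 0 → t * min (μ {x | ⟪a, x⟫_ℝ ≤ b}) (1 - μ {x | ⟪a, x⟫_ℝ ≤ b}) ≤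
      liminf (fun ε : ℝ => (μ (Metric.thickening ε {x | ⟪a, x⟫_ℝ ≤ b}) - μ {x | ⟪a, x⟫_ℝ ≤ b}) /
        ENNReal.ofReal ε) (𝓝[>] 0)) →
    ∀ S : Set (Eu κ), μ S = 1 / 2 → ENNReal.ofReal (c / Real.sqrt k) * t * (1 / 2) ≤
      liminf (fun ε : ℝ => (μ (Metric.thickening ε S) - μ S) / ENNReal.ofReal ε) (𝓝[>] 0) := by
  obtain ⟨C, hC, H⟩ := var_of_halfspaces
  refine ⟨1 / (20 * Real.sqrt C), by positivity, ?_⟩
  intro κ _ K hcp hco hint μ hμ k hk hv t ht S hS
  have hCs : 0 < Real.sqrt C := Real.sqrt_pos.2 hC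
  have hks : 0 < Real.sqrt k := Real.sqrt_pos.2 hk
  obtain ⟨I, hI⟩ : ∃ I : ℝ≥0∞, I = liminf (fun ε : ℝ => (μ (Metric.thickening ε S) - μ S) /
    ENNReal.ofReal ε) (𝓝[>] 0) := ⟨_, rfl⟩
  rw [← hI]
  have key : ∀ r : ℝ, 0 < r → ENNReal.ofReal r ≤ t →
      ENNReal.ofReal (1 / (40 * Real.sqrt C * Real.sqrt k)) * ENNReal.ofReal r ≤ I := by
    intro r hr hrt
    have h1 := cov_of_unit K hcp hint μ hμ (C / r ^ 2) (by positivity)
      (H κ K hcp hco hint μ hμ t ht r hr hrt)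
    have h2 := hv (C / r ^ 2) (by positivity) h1
    have h3 := half_of_var K hcp hco hint μ hμ (k * (C / r ^ 2)) (by positivity)
      (fun f hf hf1 => (h2 f hf hf1).2) S hS
    rw [← hI] at h3
    refine le_trans (le_of_eq ?_) h3
    rw [← ENNReal.ofReal_mul (by positivity), Real.sqrt_mul hk.le, Real.sqrt_div hC.le,
      Real.sqrt_sq hr.le]
    congr 1
    field_simp
  have h1 := Pool.Agent.Y532.PV.ennreal_sup_aux _ _ _ key
  refine le_trans (le_of_eq ?_) h1
  have h2 : (1 / 2 : ℝ≥0∞) = ENNReal.ofReal (1 / 2) := by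
    rw [ENNReal.ofReal_div_of_pos (by norm_num)]
    norm_num
  rw [mul_assoc, mul_comm t, ← mul_assoc, h2, ← ENNReal.ofReal_mul (by positivity)]
  congr 2
  field_simp
  norm_num

/-- the uniform measure on a convex body as a measure with a log-concave density -/
theorem unif_density (K : Set (Eu κ)) (hcp : IsCompact K) (hco : Convex ℝ K)
    (hint : (interior K).Nonempty) (μ : Measure (Eu κ))
    (hμ : μ = (volume K)⁻¹ • volume.restrict K) :
    ∃ ρ : Eu κ → ℝ, LC ρ ∧ mu ρ = μ ∧ ∀ x y, (x ∈ K ↔ y ∈ K) → ρ x = ρ y := by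
  have hvol : 0 < volume K := Measure.measure_pos_of_nonempty_interior volume hint
  have hfin : volume K ≠ ⊤ := hcp.measure_lt_top.ne
  obtain ⟨V, hV⟩ : ∃ V : ℝ, V = (volume K).toReal := ⟨_, rfl⟩
  have hV0 : 0 < V := by rw [hV]; exact ENNReal.toReal_pos hvol.ne' hfin
  refine ⟨K.indicator (fun _ => V⁻¹), ⟨fun x => indicator_nonneg (fun _ _ => by positivity) x,
    measurable_const.indicator hcp.measurableSet, ?_⟩, ?_, ?_⟩
  · intro x y t ht0 ht1
    have h1t : 0 < 1 - t := by linarith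
    by_cases hx : x ∈ K
    · by_cases hy : y ∈ K
      · have hxy : (1 - t) • x + t • y ∈ K := hco hx hy h1t.le ht0.le (by ring)
        rw [indicator_of_mem hx, indicator_of_mem hy, indicator_of_mem hxy,
          ← Real.rpow_add (by positivity)]
        norm_num
      · rw [indicator_of_notMem hy, Real.zero_rpow ht0.ne', mul_zero]
        exact indicator_nonneg (fun _ _ => by positivity) _
    · rw [indicator_of_notMem hx, Real.zero_rpow h1t.ne', zero_mul]
      exact indicator_nonneg (fun _ _ => by positivity) _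
  · unfold mu
    have e1 : (fun x => ENNReal.ofReal (K.indicator (fun _ => V⁻¹) x)) =
        K.indicator (fun _ => (volume K)⁻¹) := by
      funext x
      by_cases hx : x ∈ K
      · rw [indicator_of_mem hx, indicator_of_mem hx, ENNReal.ofReal_inv_of_pos hV0, hV,
          ENNReal.ofReal_toReal hfin]
      · rw [indicator_of_notMem hx, indicator_of_notMem hx, ENNReal.ofReal_zero]
    rw [e1, withDensity_indicator hcp.measurableSet, withDensity_const, hμ]
  · intro x y hxy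
    by_cases hx : x ∈ K
    · rw [indicator_of_mem hx, indicator_of_mem (hxy.1 hx)]
    · rw [indicator_of_notMem hx, indicator_of_notMem (fun h => hx (hxy.2 h))]

/-- Poincare inequality for functions with bounded gradient -/
theorem var_of_poincare (μ : Measure (Eu κ)) (hp : IsProbabilityMeasure μ) (f : Eu κ → ℝ) (B : ℝ)
    (hB : 0 ≤ B) (hf1 : ∀ x, ‖fderiv ℝ f x‖ ≤ 1)
    (h : ENNReal.ofReal (ProbabilityTheory.variance f μ) ≤
      ENNReal.ofReal B * ∫⁻ x, ENNReal.ofReal (‖fderiv ℝ f x‖ ^ 2) ∂μ) :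
    ProbabilityTheory.variance f μ ≤ B := by
  have h1 : ∫⁻ x, ENNReal.ofReal (‖fderiv ℝ f x‖ ^ 2) ∂μ ≤ 1 := by
    calc ∫⁻ x, ENNReal.ofReal (‖fderiv ℝ f x‖ ^ 2) ∂μ ≤ ∫⁻ _, 1 ∂μ := by
          refine lintegral_mono fun x => ?_
          rw [← ENNReal.ofReal_one]
          refine ENNReal.ofReal_le_ofReal ?_
          have := hf1 x
          exact pow_le_one₀ (norm_nonneg _) this
      _ = 1 := by simp
  have h2 : ENNReal.ofReal (ProbabilityTheory.variance f μ) ≤ ENNReal.ofReal B := by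
    refine h.trans ?_
    calc ENNReal.ofReal B * ∫⁻ x, ENNReal.ofReal (‖fderiv ℝ f x‖ ^ 2) ∂μ
        ≤ ENNReal.ofReal B * 1 := by gcongr
      _ = ENNReal.ofReal B := mul_one _
  exact (ENNReal.ofReal_le_ofReal_iff hB).1 h2

/-- bodies with a symmetry group for which the variance form is known -/
theorem cheeger_of_sym : ∃ c : ℝ, 0 < c ∧ ∀ (κ : Type) [Fintype κ] (K : Set (Eu κ)),
    IsCompact K → Convex ℝ K → (interior K).Nonempty → ∀ μ : Measure (Eu κ),
    μ = (volume K)⁻¹ • volume.restrict K → ∀ k : ℝ, 0 < k → SymKLS K k → ∀ t : ℝ≥0∞,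
    (∀ (a : Eu κ) (b : ℝ), a ≠ 0 → t * min (μ {x | ⟪a, x⟫_ℝ ≤ b}) (1 - μ {x | ⟪a, x⟫_ℝ ≤ b}) ≤
      liminf (fun ε : ℝ => (μ (Metric.thickening ε {x | ⟪a, x⟫_ℝ ≤ b}) - μ {x | ⟪a, x⟫_ℝ ≤ b}) /
        ENNReal.ofReal ε) (𝓝[>] 0)) →
    ∀ S : Set (Eu κ), μ S = 1 / 2 → ENNReal.ofReal (c / Real.sqrt k) * t * (1 / 2) ≤
      liminf (fun ε : ℝ => (μ (Metric.thickening ε S) - μ S) / ENNReal.ofReal ε) (𝓝[>] 0) := by
  obtain ⟨c, hc, H⟩ := cheeger_var
  refine ⟨c, hc, ?_⟩
  intro κ _ K hcp hco hint μ hμ k hk hS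
  obtain ⟨ρ, h1, h2, h3⟩ := unif_density K hcp hco hint μ hμ
  have hp := prob K hcp hint μ hμ
  refine H κ K hcp hco hint μ hμ k hk ?_
  rw [← h2]
  exact hS ρ h1 (by rw [h2]; exact hp) fun e he x => h3 _ _ (he x)

end Pool.Agent.V11317.NC
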